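import Pool.Agent.Work.MP_552024_lc.Stmts

/-!
Item B7 of MP_552024_lc (helper85): subdivide until no edge has coefficients of opposite sign.
-/

set_option autoImplicit false

namespace Pool.Agent.MP552024

section B7

variable {G : Type} [AddCommGroup G] [Lattice G]

/-- an ordered edge with a positive first and a negative second coefficient -/
def B7bad (M : Mdl G) (c : M.V → ℤ) (p : M.V × M.V) : Prop :=
  M.Δ.face {p.1, p.2} ∧ 0 < c p.1 ∧ c p.2 < 0

open Classical in
/-- the bad edges of weight `W` -/
noncomputable def B7set (M : Mdl G) (c : M.V → ℤ) (W : ℤ) : Finset (M.V × M.V) :=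
  Finset.univ.filter fun p => B7bad M c p ∧ c p.1 - c p.2 = W

theorem B7mem (M : Mdl G) (c : M.V → ℤ) (W : ℤ) (p : M.V × M.V) :
    p ∈ B7set M c W ↔ B7bad M c p ∧ c p.1 - c p.2 = W := by
  classical
  unfold B7set
  simp

/-- the new bad edges -/
theorem B7new (M : Mdl G) (c : M.V → ℤ) (i j : M.V) (hij : i ≠ j) (h : M.Δ.face {i, j})
    (W : ℤ) (hW : ∀ p, B7bad M c p → c p.1 - c p.2 ≤ W) (hi : 0 < c i) (hj : c j < 0)
    (q : Option M.V × Option M.V)
    (hq : B7bad (M.subd i j hij h) (fun o : Option M.V => o.elim (c i + c j) c) q) :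
    (q.1.elim (c i + c j) c - q.2.elim (c i + c j) c < W) ∨
      ∃ k l : M.V, q = (some k, some l) ∧ B7bad M c (k, l) ∧ (k, l) ≠ (i, j) := by
  obtain ⟨⟨hn, hf⟩, h1, h2⟩ := hq
  obtain ⟨q1, q2⟩ := q
  simp only at hn hf h1 h2 ⊢
  rcases q1 with _ | k
  · rcases q2 with _ | l
    · exfalso
      simp only [Option.elim_none] at h1 h2
      linarith
    · left
      simp only [Option.elim_none, Option.elim_some] at h1 h2 ⊢
      have h3 : M.Δ.face {i, l} := by
        refine M.Δ.down _ _ ?_ hf
        rintro v (rfl | hv)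
        · right
          simp
        · left
          have hv' : v = l := hv
          subst hv'
          simp
      have h4 := hW (i, l) ⟨h3, hi, h2⟩
      simp only at h4
      linarith
  · rcases q2 with _ | l
    · left
      simp only [Option.elim_none, Option.elim_some] at h1 h2 ⊢
      have h3 : M.Δ.face {k, j} := by
        refine M.Δ.down _ _ ?_ hf
        rintro v (rfl | hv)
        · left
          simp
        · right
          have hv' : v = j := hv
          subst hv'
          simp
      have h4 := hW (k, j) ⟨h3, h1, hj⟩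
      simp only at h4
      linarith
    · right
      simp only [Option.elim_some] at h1 h2
      refine ⟨k, l, rfl, ⟨?_, h1, h2⟩, ?_⟩
      · refine M.Δ.down _ _ ?_ hf
        rintro v (rfl | hv)
        · left
          simp
        · left
          have hv' : v = l := hv
          subst hv'
          simp
      · intro he
        have e1 : k = i := congrArg Prod.fst he
        have e2 : l = j := congrArg Prod.snd he
        subst e1
        subst e2
        exact hn ⟨by simp, by simp⟩

theorem B7main [IsOrderedAddMonoid G] : ∀ (W : ℕ) (n : ℕ) (M : Mdl G) (g : G) (c : M.V → ℤ), M.Lin g c →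
    (∀ p, B7bad M c p → c p.1 - c p.2 ≤ (W : ℤ)) → (B7set M c (W : ℤ)).card ≤ n →
    ∃ N : Mdl G, Ref M N ∧ ∃ d : N.V → ℤ, N.Lin g d ∧
      ∀ i j, N.Δ.face {i, j} → ¬ (0 < d i ∧ d j < 0) := by
  intro W
  induction W with
  | zero =>
    intro n M g c hg hW _
    refine ⟨M, Ref.rfl' M, c, hg, fun i j hf hc => ?_⟩
    have := hW (i, j) ⟨hf, hc.1, hc.2⟩
    simp only [Nat.cast_zero] at this
    have h1 := hc.1
    have h2 := hc.2
    linarith
  | succ W ihW =>
    intro n
    induction n with
    | zero =>
      intro M g c hg hW hn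
      refine ihW _ M g c hg (fun p hp => ?_) le_rfl
      have h1 := hW p hp
      have h2 : c p.1 - c p.2 ≠ ((W + 1 : ℕ) : ℤ) := by
        intro h
        have h3 : p ∈ B7set M c ((W + 1 : ℕ) : ℤ) := (B7mem _ _ _ _).2 ⟨hp, h⟩
        have h4 := Finset.card_pos.2 ⟨p, h3⟩
        omega
      push_cast at h1 h2
      omega
    | succ n ihn =>
      intro M g c hg hW hn
      by_cases he : (B7set M c ((W + 1 : ℕ) : ℤ)) = ∅
      · exact ihn M g c hg hW (by rw [he]; simp)
      obtain ⟨⟨i, j⟩, hp⟩ := Finset.nonempty_iff_ne_empty.2 he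
      obtain ⟨⟨hf, hi, hj⟩, hw⟩ := (B7mem _ _ _ _).1 hp
      simp only at hf hi hj hw
      have hij : i ≠ j := by
        rintro rfl
        linarith
      have hg' := hg.subd i j hij hf
      have hnew := B7new M c i j hij hf _ hW hi hj
      have hcard : (B7set (M.subd i j hij hf) (fun o : Option M.V => o.elim (c i + c j) c)
          ((W + 1 : ℕ) : ℤ)).card ≤ n := by
        classical
        have hsub : B7set (M.subd i j hij hf) (fun o : Option M.V => o.elim (c i + c j) c)
            ((W + 1 : ℕ) : ℤ) ⊆ ((B7set M c ((W + 1 : ℕ) : ℤ)).erase (i, j)).image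
              (fun p => ((some p.1, some p.2) : Option M.V × Option M.V)) := by
          intro q hq
          obtain ⟨hq1, hq2⟩ := (B7mem _ _ _ _).1 hq
          rcases hnew q hq1 with h3 | ⟨k, l, rfl, h3, h4⟩
          · exfalso
            exact absurd hq2 (ne_of_lt h3)
          · refine Finset.mem_image.2 ⟨(k, l), Finset.mem_erase.2 ⟨h4, (B7mem _ _ _ _).2 ⟨h3, ?_⟩⟩, rfl⟩
            exact hq2
        have h5 := Finset.card_le_card hsub
        have h6 := Finset.card_image_le (s := (B7set M c ((W + 1 : ℕ) : ℤ)).erase (i, j))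
          (f := fun p => ((some p.1, some p.2) : Option M.V × Option M.V))
        have h7 := Finset.card_erase_of_mem hp
        have h8 := Finset.card_pos.2 ⟨_, hp⟩
        omega
      obtain ⟨N, hN1, hN2⟩ := ihn (M.subd i j hij hf) g _ hg' (fun q hq => by
        rcases hnew q hq with h3 | ⟨k, l, rfl, h3, h4⟩
        · exact h3.le
        · exact hW _ h3) hcard
      exact ⟨N, (Ref.step M i j hij hf).trans' hN1, hN2⟩

end B7

theorem prfB7 : S_sign := by
  intro G _ _ _ M g c hg
  have hb : ∃ W : ℕ, ∀ p, B7bad M c p → c p.1 - c p.2 ≤ (W : ℤ) := by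
    refine ⟨∑ p : M.V × M.V, (c p.1 - c p.2).toNat, fun p _ => ?_⟩
    have h1 : (c p.1 - c p.2).toNat ≤ ∑ p : M.V × M.V, (c p.1 - c p.2).toNat :=
      Finset.single_le_sum (f := fun p : M.V × M.V => (c p.1 - c p.2).toNat)
        (fun _ _ => Nat.zero_le _) (Finset.mem_univ p)
    have h2 := Int.self_le_toNat (c p.1 - c p.2)
    have h3 : ((c p.1 - c p.2).toNat : ℤ) ≤ ((∑ p : M.V × M.V, (c p.1 - c p.2).toNat : ℕ) : ℤ) := by
      exact_mod_cast h1
    linarith
  obtain ⟨W, hW⟩ := hb
  exact B7main W _ M g c hg hW le_rfl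

end Pool.Agent.MP552024
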