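import Pool.Agent.Work.MP_552024_lc.Stmts

/-!
MP_552024_lc: S_pos and S_linall.
-/

set_option autoImplicit false

namespace Pool.Agent.MP552024

theorem prfB8 : S_pos := by
  intro G _ _ _ M g c hg hno z hz
  rw [M.chart.sup _ _ z hz, M.chart.zero hz, hg z hz]
  by_cases hall : ∃ i, z i ≠ 0 ∧ 0 < c i
  · obtain ⟨i, hi, hci⟩ := hall
    have hge : ∀ j, z j ≠ 0 → 0 ≤ c j := by
      intro j hj
      by_contra hc
      push Not at hc
      refine hno i j (Cx.face_of_mem hz _ ?_) ⟨hci, hc⟩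
      rintro k (rfl | hk)
      · exact hi
      · rw [Set.mem_singleton_iff] at hk
        rw [hk]
        exact hj
    have hsum : ∑ i, ((max (c i) 0 : ℤ) : ℝ) * z i = ∑ i, (c i : ℝ) * z i := by
      refine Finset.sum_congr rfl (fun j _ => ?_)
      by_cases hj : z j = 0
      · rw [hj]; simp
      · rw [max_eq_left (hge j hj)]
    rw [hsum]
    refine max_eq_left (Finset.sum_nonneg (fun j _ => ?_))
    by_cases hj : z j = 0
    · rw [hj]; simp
    · exact mul_nonneg (by exact_mod_cast hge j hj) (hz.1 j)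
  · push Not at hall
    have hsum : ∑ i, ((max (c i) 0 : ℤ) : ℝ) * z i = 0 := by
      refine Finset.sum_eq_zero (fun j _ => ?_)
      by_cases hj : z j = 0
      · rw [hj]; simp
      · rw [max_eq_right (hall j hj)]; simp
    rw [hsum]
    refine max_eq_right (Finset.sum_nonpos (fun j _ => ?_))
    by_cases hj : z j = 0
    · rw [hj]; simp
    · exact mul_nonpos_of_nonpos_of_nonneg (by exact_mod_cast hall j hj) (hz.1 j)

theorem prfB9 (h : S_sign) : S_linall := by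
  classical
  intro G _ _ _ M α _ g
  -- every element becomes linear after refining any refinement of M
  have hP : ∀ a ∈ LP M.V, ∃ g : G, (∀ z ∈ M.Δ.Z, M.ev g z = a z) ∧
      ∀ M' : Mdl G, Ref M M' → ∃ N : Mdl G, Ref M' N ∧ ∃ c : N.V → ℤ, N.Lin g c := by
    intro a ha
    have hneg : ∀ a : (M.V → ℝ) → ℝ, (∃ g : G, (∀ z ∈ M.Δ.Z, M.ev g z = a z) ∧
        ∀ M' : Mdl G, Ref M M' → ∃ N : Mdl G, Ref M' N ∧ ∃ c : N.V → ℤ, N.Lin g c) →
        ∃ g : G, (∀ z ∈ M.Δ.Z, M.ev g z = -a z) ∧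
        ∀ M' : Mdl G, Ref M M' → ∃ N : Mdl G, Ref M' N ∧ ∃ c : N.V → ℤ, N.Lin g c := by
      rintro a ⟨g, hg, hL⟩
      refine ⟨-g, fun z hz => by rw [M.chart.neg _ hz, hg z hz], fun M' hM' => ?_⟩
      obtain ⟨N, hN, c, hc⟩ := hL M' hM'
      exact ⟨N, hN, _, hc.neg⟩
    have hsup : ∀ a b : (M.V → ℝ) → ℝ, (∃ g : G, (∀ z ∈ M.Δ.Z, M.ev g z = a z) ∧
        ∀ M' : Mdl G, Ref M M' → ∃ N : Mdl G, Ref M' N ∧ ∃ c : N.V → ℤ, N.Lin g c) →
        (∃ g : G, (∀ z ∈ M.Δ.Z, M.ev g z = b z) ∧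
        ∀ M' : Mdl G, Ref M M' → ∃ N : Mdl G, Ref M' N ∧ ∃ c : N.V → ℤ, N.Lin g c) →
        ∃ g : G, (∀ z ∈ M.Δ.Z, M.ev g z = max (a z) (b z)) ∧
        ∀ M' : Mdl G, Ref M M' → ∃ N : Mdl G, Ref M' N ∧ ∃ c : N.V → ℤ, N.Lin g c := by
      rintro a b ⟨g, hg, hL⟩ ⟨k, hk, hL'⟩
      refine ⟨g ⊔ k, fun z hz => by rw [M.chart.sup _ _ z hz, hg z hz, hk z hz], fun M' hM' => ?_⟩
      obtain ⟨N1, hN1, c1, hc1⟩ := hL M' hM'
      obtain ⟨N2, hN2, d2, hd2⟩ := hL' N1 (hM'.trans' hN1)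
      obtain ⟨c2, hc2⟩ := hN2.lin hc1
      obtain ⟨N3, hN3, e, he, hno⟩ := h G N2 (g - k) _ (hc2.sub hd2)
      have h3 := prfB8 G N3 (g - k) e he hno
      obtain ⟨d3, hd3⟩ := hN3.lin hd2
      have heq : (g - k) ⊔ 0 + k = g ⊔ k := by
        refine N3.chart.ext (fun z hz => ?_)
        rw [N3.chart.add _ _ z hz, N3.chart.sup _ _ z hz, N3.chart.sup _ _ z hz,
          N3.chart.sub _ _ hz, N3.chart.zero hz, ← max_add_add_right]
        congr 1 <;> ring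
      have h4 := h3.add hd3
      rw [heq] at h4
      exact ⟨N3, (hN1.trans' hN2).trans' hN3, _, h4⟩
    refine LP_ind (P := fun a => ∃ g : G, (∀ z ∈ M.Δ.Z, M.ev g z = a z) ∧
      ∀ M' : Mdl G, Ref M M' → ∃ N : Mdl G, Ref M' N ∧ ∃ c : N.V → ℤ, N.Lin g c) ha ?_ ?_ ?_ hneg
      hsup ?_
    · intro i
      obtain ⟨g, hg⟩ := M.chart.hat i
      have hlin : M.Lin g (fun j => if j = i then 1 else 0) := by
        intro z hz
        rw [hg z hz]
        simp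
      refine ⟨g, hg, fun M' hM' => ?_⟩
      obtain ⟨d, hd⟩ := hM'.lin hlin
      exact ⟨M', Ref.rfl' M', d, hd⟩
    · exact ⟨0, fun z hz => M.chart.zero hz, fun M' _ => ⟨M', Ref.rfl' M', _, M'.lin_zero⟩⟩
    · rintro a b ⟨g, hg, hL⟩ ⟨k, hk, hL'⟩
      refine ⟨g + k, fun z hz => by rw [M.chart.add _ _ z hz, hg z hz, hk z hz], fun M' hM' => ?_⟩
      obtain ⟨N1, hN1, c1, hc1⟩ := hL M' hM'
      obtain ⟨N2, hN2, d2, hd2⟩ := hL' N1 (hM'.trans' hN1)
      obtain ⟨c2, hc2⟩ := hN2.lin hc1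
      exact ⟨N2, hN1.trans' hN2, _, hc2.add hd2⟩
    · intro a b ha hb
      have h1 := hneg _ (hsup _ _ (hneg a ha) (hneg b hb))
      have h2 : (fun z => -max (-a z) (-b z)) = fun z => min (a z) (b z) := by
        funext z
        rw [max_neg_neg, neg_neg]
      obtain ⟨g, hg, hL⟩ := h1
      refine ⟨g, fun z hz => ?_, hL⟩
      rw [hg z hz]
      exact congrFun h2 z
  have hL : ∀ (g : G) (M' : Mdl G), Ref M M' → ∃ N : Mdl G, Ref M' N ∧
      ∃ c : N.V → ℤ, N.Lin g c := by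
    intro g
    obtain ⟨a, ha, hga⟩ := M.chart.mem g
    obtain ⟨g', hg', hL⟩ := hP a ha
    have : g = g' := M.chart.ext (fun z hz => by rw [hga z hz, hg' z hz])
    rw [this]
    exact hL
  have := Fintype.ofFinite α
  have hfin : ∀ s : Finset α, ∃ N : Mdl G, Ref M N ∧ ∀ a ∈ s, ∃ c : N.V → ℤ, N.Lin (g a) c := by
    intro s
    induction s using Finset.induction_on with
    | empty => exact ⟨M, Ref.rfl' M, fun a ha => absurd ha (Finset.notMem_empty a)⟩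
    | insert a s _ ih =>
      obtain ⟨N, hN, hNs⟩ := ih
      obtain ⟨N', hN', c, hc⟩ := hL (g a) N hN
      refine ⟨N', hN.trans' hN', fun b hb => ?_⟩
      rcases Finset.mem_insert.1 hb with rfl | hb
      · exact ⟨c, hc⟩
      · obtain ⟨d, hd⟩ := hNs b hb
        exact hN'.lin hd
  obtain ⟨N, hN, hNs⟩ := hfin Finset.univ
  exact ⟨N, hN, fun a => hNs a (Finset.mem_univ a)⟩

end Pool.Agent.MP552024
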