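import Pool.Agent.Work.MP_552024_lc.Defs

/-!
Basic facts about charts and models, MP_552024_lc.
-/

set_option autoImplicit false

namespace Pool.Agent.MP552024

open Classical in
/-- the vertex `i` as a point of the realisation -/
noncomputable def pt {V : Type} (i : V) : V → ℝ := fun j => if j = i then 1 else 0

section Points

variable {V : Type}

theorem pt_self (i : V) : pt i i = 1 := by simp [pt]

theorem pt_ne {i j : V} (h : j ≠ i) : pt i j = 0 := by simp [pt, h]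

theorem pt_nonneg (i j : V) : 0 ≤ pt i j := by unfold pt; split_ifs <;> norm_num

theorem Cx.Z_nonneg {Δ : Cx V} {z : V → ℝ} (hz : z ∈ Δ.Z) (i : V) : 0 ≤ z i := hz.1 i

/-- criterion for points of `Z` -/
theorem Cx.mem_Z {Δ : Cx V} {z : V → ℝ} (h1 : ∀ i, 0 ≤ z i) (s : Set V) (hs : Δ.face s)
    (h2 : ∀ i, z i ≠ 0 → i ∈ s) : z ∈ Δ.Z := ⟨h1, Δ.down _ _ h2 hs⟩

theorem Cx.zero_mem {Δ : Cx V} : (fun _ => (0 : ℝ)) ∈ Δ.Z :=
  Cx.mem_Z (fun _ => le_rfl) ∅ Δ.empt (fun _ h => absurd rfl h)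

theorem Cx.pt_mem {Δ : Cx V} (i : V) : pt i ∈ Δ.Z := by
  refine Cx.mem_Z (pt_nonneg i) {i} (Δ.vert i) (fun j h => ?_)
  by_contra hc
  exact h (pt_ne hc)

theorem Cx.smul_mem {Δ : Cx V} {z : V → ℝ} (hz : z ∈ Δ.Z) {r : ℝ} (hr : 0 ≤ r) :
    (fun i => r * z i) ∈ Δ.Z := by
  refine Cx.mem_Z (fun i => mul_nonneg hr (hz.1 i)) _ hz.2 (fun i h h2 => h ?_)
  rw [h2, mul_zero]

theorem Cx.pair_mem {Δ : Cx V} {i j : V} (h : Δ.face {i, j}) {a b : ℝ} (ha : 0 ≤ a) (hb : 0 ≤ b) :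
    (fun l => a * pt i l + b * pt j l) ∈ Δ.Z := by
  refine Cx.mem_Z (fun l => add_nonneg (mul_nonneg ha (pt_nonneg _ _)) (mul_nonneg hb (pt_nonneg _ _)))
    _ h (fun l hl => ?_)
  by_contra hc
  simp only [Set.mem_insert_iff, Set.mem_singleton_iff, not_or] at hc
  apply hl
  rw [pt_ne hc.1, pt_ne hc.2]
  ring

/-- subsets of the support of a point of `Z` are faces -/
theorem Cx.face_of_mem {Δ : Cx V} {z : V → ℝ} (hz : z ∈ Δ.Z) (s : Set V) (hs : ∀ i ∈ s, z i ≠ 0) :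
    Δ.face s := Δ.down _ _ hs hz.2

end Points

section Chart

variable {G : Type} [AddCommGroup G] [Lattice G] {V : Type} {Δ : Cx V} {ev : G → (V → ℝ) → ℝ}

theorem IsChart.zero (hc : IsChart Δ ev) {z : V → ℝ} (hz : z ∈ Δ.Z) : ev 0 z = 0 := by
  have := hc.add 0 0 z hz
  rw [add_zero] at this
  linarith

theorem IsChart.neg (hc : IsChart Δ ev) (a : G) {z : V → ℝ} (hz : z ∈ Δ.Z) : ev (-a) z = -ev a z := by
  have := hc.add a (-a) z hz
  rw [add_neg_cancel, hc.zero hz] at this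
  linarith

theorem IsChart.sub (hc : IsChart Δ ev) (a b : G) {z : V → ℝ} (hz : z ∈ Δ.Z) :
    ev (a - b) z = ev a z - ev b z := by
  rw [sub_eq_add_neg, hc.add _ _ z hz, hc.neg b hz]
  ring

theorem IsChart.nsmul (hc : IsChart Δ ev) (k : ℕ) (a : G) {z : V → ℝ} (hz : z ∈ Δ.Z) :
    ev (k • a) z = k * ev a z := by
  induction k with
  | zero => simp [hc.zero hz]
  | succ k ih => rw [succ_nsmul, hc.add _ _ z hz, ih]; push_cast; ring

theorem IsChart.sum (hc : IsChart Δ ev) {α : Type} (s : Finset α) (g : α → G) {z : V → ℝ}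
    (hz : z ∈ Δ.Z) : ev (∑ i ∈ s, g i) z = ∑ i ∈ s, ev (g i) z := by
  classical
  induction s using Finset.induction_on with
  | empty => simp [hc.zero hz]
  | insert a s ha ih => rw [Finset.sum_insert ha, Finset.sum_insert ha, hc.add _ _ z hz, ih]

theorem IsChart.ext (hc : IsChart Δ ev) {a b : G} (h : ∀ z ∈ Δ.Z, ev a z = ev b z) : a = b := by
  refine sub_eq_zero.1 (hc.inj _ (fun z hz => ?_))
  rw [hc.sub a b hz, h z hz, sub_self]

theorem IsChart.le_iff (hc : IsChart Δ ev) {a b : G} : a ≤ b ↔ ∀ z ∈ Δ.Z, ev a z ≤ ev b z := by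
  constructor
  · intro h z hz
    have := hc.sup a b z hz
    rw [sup_eq_right.2 h] at this
    rw [this]
    exact le_max_left _ _
  · intro h
    rw [← sup_eq_right]
    refine hc.ext (fun z hz => ?_)
    rw [hc.sup a b z hz, max_eq_right (h z hz)]

theorem IsChart.nonneg_iff (hc : IsChart Δ ev) {a : G} : 0 ≤ a ↔ ∀ z ∈ Δ.Z, 0 ≤ ev a z := by
  rw [hc.le_iff]
  constructor
  · intro h z hz; have := h z hz; rwa [hc.zero hz] at this
  · intro h z hz; rw [hc.zero hz]; exact h z hz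

theorem IsChart.inf [IsOrderedAddMonoid G] (hc : IsChart Δ ev) (a b : G) {z : V → ℝ} (hz : z ∈ Δ.Z) :
    ev (a ⊓ b) z = min (ev a z) (ev b z) := by
  have h1 : a ⊓ b = -(-a ⊔ -b) := by rw [neg_sup, neg_neg, neg_neg]
  rw [h1, hc.neg _ hz, hc.sup _ _ z hz, hc.neg _ hz, hc.neg _ hz, max_neg_neg, neg_neg]

theorem IsChart.hom (hc : IsChart Δ ev) (a : G) {z : V → ℝ} (hz : z ∈ Δ.Z) {r : ℝ} (hr : 0 ≤ r) :
    ev a (fun i => r * z i) = r * ev a z := by
  obtain ⟨b, hb, h⟩ := hc.mem a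
  rw [h _ (Cx.smul_mem hz hr), h z hz, LP_hom hb r hr]

theorem IsChart.int (hc : IsChart Δ ev) (a : G) {z : V → ℝ} (hz : z ∈ Δ.Z)
    (hi : ∀ i, ∃ k : ℤ, z i = k) : ∃ k : ℤ, ev a z = k := by
  obtain ⟨b, hb, h⟩ := hc.mem a
  rw [h z hz]
  exact LP_int hb z hi

theorem IsChart.int_pt (hc : IsChart Δ ev) (a : G) (i : V) : ∃ k : ℤ, ev a (pt i) = k := by
  refine hc.int a (Cx.pt_mem i) (fun j => ?_)
  by_cases h : j = i
  · exact ⟨1, by rw [h, pt_self]; norm_num⟩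
  · exact ⟨0, by rw [pt_ne h]; norm_num⟩

/-- hat functions -/
theorem IsChart.hat (hc : IsChart Δ ev) (i : V) : ∃ g : G, ∀ z ∈ Δ.Z, ev g z = z i :=
  hc.sur _ (LP_coord i)

/-- two groups with charts on the same complex are isomorphic -/
theorem iso_of_charts {H : Type} [AddCommGroup H] [Lattice H] {ev' : H → (V → ℝ) → ℝ}
    (hc : IsChart Δ ev) (hc' : IsChart Δ ev') : ∃ e : G ≃+ H, ∀ a b : G, e a ≤ e b ↔ a ≤ b := by
  have h1 : ∀ g : G, ∃ h : H, ∀ z ∈ Δ.Z, ev' h z = ev g z := by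
    intro g
    obtain ⟨a, ha, h⟩ := hc.mem g
    obtain ⟨k, hk⟩ := hc'.sur a ha
    exact ⟨k, fun z hz => by rw [hk z hz, h z hz]⟩
  have h2 : ∀ h : H, ∃ g : G, ∀ z ∈ Δ.Z, ev g z = ev' h z := by
    intro g
    obtain ⟨a, ha, h⟩ := hc'.mem g
    obtain ⟨k, hk⟩ := hc.sur a ha
    exact ⟨k, fun z hz => by rw [hk z hz, h z hz]⟩
  choose e he using h1
  choose e' he' using h2
  refine ⟨{ toFun := e, invFun := e', left_inv := ?_, right_inv := ?_, map_add' := ?_ }, ?_⟩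
  · intro g
    exact hc.ext (fun z hz => by rw [he' _ z hz, he _ z hz])
  · intro g
    exact hc'.ext (fun z hz => by rw [he _ z hz, he' _ z hz])
  · intro a b
    exact hc'.ext (fun z hz => by rw [he _ z hz, hc'.add _ _ z hz, he _ z hz, he _ z hz,
      hc.add _ _ z hz])
  · intro a b
    show e a ≤ e b ↔ a ≤ b
    rw [hc.le_iff, hc'.le_iff]
    constructor
    · intro h z hz; rw [← he _ z hz, ← he _ z hz]; exact h z hz
    · intro h z hz; rw [he _ z hz, he _ z hz]; exact h z hz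

end Chart

section Models

variable {G : Type} [AddCommGroup G] [Lattice G] {M N : Mdl G}

theorem Mdl.Lin.pt {g : G} {c : M.V → ℤ} (h : M.Lin g c) (i : M.V) :
    M.ev g (MP552024.pt i) = c i := by
  classical
  rw [h _ (Cx.pt_mem i), Finset.sum_eq_single i]
  · rw [pt_self, mul_one]
  · intro j _ hj
    rw [pt_ne hj, mul_zero]
  · intro h; exact absurd (Finset.mem_univ _) h

theorem Mdl.Lin.unique {g : G} {c d : M.V → ℤ} (h : M.Lin g c) (h' : M.Lin g d) : c = d := by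
  funext i
  have := h.pt i
  rw [h'.pt i] at this
  exact_mod_cast this.symm

theorem Mdl.Lin.mono {g h : G} {c d : M.V → ℤ} (hg : M.Lin g c) (hh : M.Lin h d) (hle : g ≤ h)
    (i : M.V) : c i ≤ d i := by
  have := M.chart.le_iff.1 hle _ (Cx.pt_mem i)
  rw [hg.pt, hh.pt] at this
  exact_mod_cast this

theorem Mdl.Lin.le {g h : G} {c d : M.V → ℤ} (hg : M.Lin g c) (hh : M.Lin h d)
    (hle : ∀ i, c i ≤ d i) : g ≤ h := by
  refine M.chart.le_iff.2 (fun z hz => ?_)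
  rw [hg z hz, hh z hz]
  exact Finset.sum_le_sum (fun i _ => mul_le_mul_of_nonneg_right (by exact_mod_cast hle i) (hz.1 i))

theorem Mdl.lin_zero (M : Mdl G) : M.Lin 0 (fun _ => 0) := by
  intro z hz
  rw [M.chart.zero hz]
  simp

theorem Mdl.Lin.nonneg {g : G} {c : M.V → ℤ} (hg : M.Lin g c) (h : 0 ≤ g) (i : M.V) : 0 ≤ c i :=
  (M.lin_zero).mono hg h i

theorem Mdl.Lin.nonneg' {g : G} {c : M.V → ℤ} (hg : M.Lin g c) (h : ∀ i, 0 ≤ c i) : 0 ≤ g :=
  (M.lin_zero).le hg h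

theorem Mdl.Lin.add {g h : G} {c d : M.V → ℤ} (hg : M.Lin g c) (hh : M.Lin h d) :
    M.Lin (g + h) (fun i => c i + d i) := by
  intro z hz
  rw [M.chart.add _ _ z hz, hg z hz, hh z hz, ← Finset.sum_add_distrib]
  refine Finset.sum_congr rfl (fun i _ => ?_)
  push_cast
  ring

theorem Mdl.Lin.neg {g : G} {c : M.V → ℤ} (hg : M.Lin g c) : M.Lin (-g) (fun i => -c i) := by
  intro z hz
  rw [M.chart.neg _ hz, hg z hz, ← Finset.sum_neg_distrib]
  refine Finset.sum_congr rfl (fun i _ => ?_)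
  push_cast
  ring

theorem Mdl.Lin.sub {g h : G} {c d : M.V → ℤ} (hg : M.Lin g c) (hh : M.Lin h d) :
    M.Lin (g - h) (fun i => c i - d i) := by
  have := hg.add hh.neg
  simpa only [← sub_eq_add_neg] using this

theorem Mdl.Lin.sum {α : Type} (s : Finset α) {g : α → G} {c : α → M.V → ℤ}
    (hg : ∀ a, M.Lin (g a) (c a)) : M.Lin (∑ a ∈ s, g a) (fun i => ∑ a ∈ s, c a i) := by
  classical
  induction s using Finset.induction_on with
  | empty => simpa using M.lin_zero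
  | insert a s ha ih =>
    have := (hg a).add ih
    simpa only [Finset.sum_insert ha] using this

/-- every integral vector is the coefficient vector of an element -/
theorem Mdl.exists_lin (M : Mdl G) (c : M.V → ℤ) : ∃ g : G, M.Lin g c :=
  M.chart.sur _ (LP_lin c)

/-- linear elements stay linear under subdivision -/
theorem Mdl.Lin.subd {g : G} {c : M.V → ℤ} (hg : M.Lin g c) (i j : M.V) (hij : i ≠ j)
    (h : M.Δ.face {i, j}) :
    (M.subd i j hij h).Lin g (fun o : Option M.V => o.elim (c i + c j) c) := by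
  classical
  intro z hz
  have h1 := hg (Tmap i j z) (Tmap_Z i j M.Δ hij h z hz)
  show M.ev g (Tmap i j z) = _
  rw [h1]
  show _ = ∑ o : Option M.V, ((o.elim (c i + c j) c : ℤ) : ℝ) * z o
  rw [Fintype.sum_option]
  simp only [Tmap, mul_add, Finset.sum_add_distrib, Option.elim_none, Option.elim_some]
  rw [add_comm]
  congr 1
  rw [← Finset.sum_subset (Finset.subset_univ ({i, j} : Finset M.V)), Finset.sum_pair hij]
  · simp only [true_or, or_true, if_true]
    push_cast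
    ring
  · intro l _ hl
    simp only [Finset.mem_insert, Finset.mem_singleton] at hl
    rw [if_neg hl, mul_zero]

theorem Ref.lin (h : Ref M N) {g : G} {c : M.V → ℤ} (hg : M.Lin g c) : ∃ d, N.Lin g d := by
  unfold Ref at h
  induction h with
  | refl => exact ⟨c, hg⟩
  | tail _ hs ih =>
    obtain ⟨d, hd⟩ := ih
    obtain ⟨i, j, hij, hf, rfl⟩ := hs
    exact ⟨_, hd.subd i j hij hf⟩

theorem Ref.trans' {K : Mdl G} (h : Ref M N) (h' : Ref N K) : Ref M K :=
  Relation.ReflTransGen.trans h h'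

theorem Ref.rfl' (M : Mdl G) : Ref M M := Relation.ReflTransGen.refl

theorem Ref.step (M : Mdl G) (i j : M.V) (hij : i ≠ j) (h : M.Δ.face {i, j}) :
    Ref M (M.subd i j hij h) := Relation.ReflTransGen.single ⟨i, j, hij, h, rfl⟩

/-- refinements are given by a map of the realisations -/
theorem Ref.map (h : Ref M N) : ∃ T : (N.V → ℝ) → (M.V → ℝ), (∀ z ∈ N.Δ.Z, T z ∈ M.Δ.Z) ∧
    (∀ y ∈ M.Δ.Z, ∃ z ∈ N.Δ.Z, T z = y) ∧ ∀ g : G, ∀ z ∈ N.Δ.Z, N.ev g z = M.ev g (T z) := by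
  unfold Ref at h
  induction h with
  | refl => exact ⟨id, fun z hz => hz, fun y hy => ⟨y, hy, rfl⟩, fun g z hz => rfl⟩
  | @tail N' K _ hs ih =>
    obtain ⟨T, h1, h2, h3⟩ := ih
    obtain ⟨i, j, hij, hf, rfl⟩ := hs
    have hT : ∀ z ∈ (N'.subd i j hij hf).Δ.Z, Tmap i j z ∈ N'.Δ.Z :=
      fun z hz => Tmap_Z i j N'.Δ hij hf z hz
    refine ⟨fun z => T (Tmap i j z), fun z hz => h1 _ (hT z hz), fun y hy => ?_, fun g z hz => ?_⟩
    · obtain ⟨z, hz, rfl⟩ := h2 y hy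
      exact ⟨Rmap i j z, Rmap_Z i j N'.Δ hij hf z hz, congrArg T (Tmap_Rmap i j z)⟩
    · exact h3 g _ (hT z hz)

end Models

end Pool.Agent.MP552024
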