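import Pool.Agent.Work.MP_552024_lc.Stmts

/-!
MP_552024_lc, item C1 (helper61): the base model of the free abelian l-group.
-/

set_option autoImplicit false

namespace Pool.Agent.MP552024

/-- the complex of the coordinate orthants -/
def c1Cx (n : ℕ) : Cx (Fin n × Bool) where
  face s := ∀ i, ¬ ((i, true) ∈ s ∧ (i, false) ∈ s)
  down s t hts h i hi := h i ⟨hts hi.1, hts hi.2⟩
  vert v i hi := by
    obtain ⟨h1, h2⟩ := hi
    rw [Set.mem_singleton_iff] at h1 h2
    have := h1.trans h2.symm
    simp at this
  empt i hi := hi.1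

/-- the map to the space -/
def c1T {n : ℕ} (z : Fin n × Bool → ℝ) : Fin n → ℝ := fun i => z (i, true) - z (i, false)

/-- positive and negative parts -/
noncomputable def c1R {n : ℕ} (x : Fin n → ℝ) : Fin n × Bool → ℝ :=
  fun v => if v.2 = true then max (x v.1) 0 else max (-x v.1) 0

theorem c1R_true {n : ℕ} (x : Fin n → ℝ) (i : Fin n) : c1R x (i, true) = max (x i) 0 := by
  simp [c1R]

theorem c1R_false {n : ℕ} (x : Fin n → ℝ) (i : Fin n) : c1R x (i, false) = max (-x i) 0 := by
  simp [c1R]

theorem c1_TR {n : ℕ} (x : Fin n → ℝ) : c1T (c1R x) = x := by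
  funext i
  unfold c1T
  rw [c1R_true, c1R_false]
  rcases le_total (x i) 0 with h | h
  · rw [max_eq_right h, max_eq_left (by linarith)]
    ring
  · rw [max_eq_left h, max_eq_right (by linarith)]
    ring

theorem c1_RZ {n : ℕ} (x : Fin n → ℝ) : c1R x ∈ (c1Cx n).Z := by
  constructor
  · rintro ⟨i, b⟩
    cases b
    · rw [c1R_false]
      exact le_max_right _ _
    · rw [c1R_true]
      exact le_max_right _ _
  · rintro i ⟨h1, h2⟩
    simp only [Set.mem_ofPred_eq] at h1 h2
    rw [c1R_true] at h1
    rw [c1R_false] at h2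
    rcases le_total (x i) 0 with h | h
    · exact h1 (max_eq_right h)
    · exact h2 (max_eq_right (by linarith))

theorem c1_RT {n : ℕ} (z : Fin n × Bool → ℝ) (hz : z ∈ (c1Cx n).Z) : c1R (c1T z) = z := by
  have hdis : ∀ i, z (i, true) = 0 ∨ z (i, false) = 0 := by
    intro i
    by_contra hcon
    push Not at hcon
    exact hz.2 i hcon
  funext v
  obtain ⟨i, b⟩ := v
  have h1 := hz.1 (i, true)
  have h2 := hz.1 (i, false)
  cases b
  · rw [c1R_false]
    unfold c1T
    rcases hdis i with h | h
    · rw [h, max_eq_left (by linarith)]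
      ring
    · rw [h, max_eq_right (by linarith)]
  · rw [c1R_true]
    unfold c1T
    rcases hdis i with h | h
    · rw [h, max_eq_right (by linarith)]
    · rw [h, max_eq_left (by linarith)]
      ring

theorem c1R_LP {n : ℕ} (v : Fin n × Bool) : (fun x : Fin n → ℝ => c1R x v) ∈ LP (Fin n) := by
  obtain ⟨i, b⟩ := v
  cases b
  · simp only [c1R_false]
    exact LP_max (LP_neg (LP_coord i)) LP_zero
  · simp only [c1R_true]
    exact LP_max (LP_coord i) LP_zero

/-- the base model -/
noncomputable def c1M (n : ℕ) : Mdl (FL n) where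
  V := Fin n × Bool
  fin := inferInstance
  Δ := c1Cx n
  ev a z := a.1 (c1T z)
  chart := {
    add := fun a b z _ => rfl
    sup := fun a b z _ => rfl
    inj := by
      intro a ha
      apply Subtype.ext
      funext x
      have := ha (c1R x) (c1_RZ x)
      rw [c1_TR] at this
      exact this
    mem := by
      intro a
      refine ⟨fun z => a.1 (c1T z), ?_, fun z _ => rfl⟩
      exact LP_comp a.2 (fun i z => z (i, true) - z (i, false))
        (fun i => LP_sub (LP_coord _) (LP_coord _))
    sur := by
      intro b hb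
      refine ⟨⟨fun x => b (c1R x), LP_comp hb (fun v x => c1R x v) c1R_LP⟩, fun z hz => ?_⟩
      show b (c1R (c1T z)) = b z
      rw [c1_RT z hz] }

/-- the unit vectors and their negatives -/
def c1t {n : ℕ} (v : Fin n × Bool) (k : Fin n) : ℤ :=
  if v.1 = k then (if v.2 = true then 1 else -1) else 0

theorem c1_sum {n : ℕ} (z : Fin n × Bool → ℝ) (k : Fin n) :
    ∑ v, (c1t v k : ℝ) * z v = c1T z k := by
  rw [Fintype.sum_prod_type, Finset.sum_eq_single k]
  · rw [Fintype.sum_bool]
    simp only [c1t, if_true]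
    unfold c1T
    simp
    ring
  · intro i _ hik
    rw [Fintype.sum_bool]
    simp [c1t, hik]
  · intro h
    exact absurd (Finset.mem_univ _) h

theorem prfC1 : S_base := by
  intro n
  refine ⟨c1M n, c1t, ?_, ?_⟩
  · intro a z _
    show a.1 (c1T z) = a.1 _
    refine congrArg a.1 (funext fun k => ?_)
    exact (c1_sum z k).symm
  · intro x
    refine ⟨c1R x, c1_RZ x, fun k => ?_⟩
    have := c1_sum (c1R x) k
    rw [c1_TR] at this
    exact this.symm

theorem c1_sub_sum {V : Type} [Fintype V] {i j : V} (hij : i ≠ j) (c : V → ℤ)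
    (z : Option V → ℝ) :
    ∑ v, (c v : ℝ) * Tmap i j z v = ∑ o : Option V, ((o.elim (c i + c j) c : ℤ) : ℝ) * z o := by
  classical
  rw [Fintype.sum_option]
  simp only [Tmap, mul_add, Finset.sum_add_distrib, Option.elim_none, Option.elim_some]
  rw [add_comm]
  congr 1
  rw [← Finset.sum_subset (Finset.subset_univ ({i, j} : Finset V)), Finset.sum_pair hij]
  · simp only [true_or, or_true, if_true]
    push_cast
    ring
  · intro l _ hl
    simp only [Finset.mem_insert, Finset.mem_singleton] at hl
    rw [if_neg hl, mul_zero]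

theorem prfC1b : S_baseRef := by
  intro n M N t ht hMN
  unfold Ref at hMN
  induction hMN with
  | refl => exact ⟨t, ht⟩
  | @tail N' K _ hs ih =>
    obtain ⟨t', h1, h2⟩ := ih
    obtain ⟨i, j, hij, hf, rfl⟩ := hs
    refine ⟨fun (o : Option N'.V) k => o.elim (t' i k + t' j k) (fun v => t' v k), ?_, ?_⟩
    · intro a z hz
      have hz' := Tmap_Z i j N'.Δ hij hf z hz
      show N'.ev a (Tmap i j z) = _
      rw [h1 a _ hz']
      refine congrArg a.1 (funext fun k => ?_)
      exact c1_sub_sum hij (fun v => t' v k) z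
    · intro x
      obtain ⟨z, hz, hx⟩ := h2 x
      refine ⟨Rmap i j z, Rmap_Z i j N'.Δ hij hf z hz, fun k => ?_⟩
      have h3 := c1_sub_sum hij (fun v => t' v k) (Rmap i j z)
      rw [Tmap_Rmap] at h3
      rw [hx k]
      exact h3

end Pool.Agent.MP552024
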