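import Pool.Agent.Work.MP_552024_lc.Stmts

/-!
Item C2 of MP_552024_lc (helper85): models of finitely presented groups.
-/

set_option autoImplicit false

namespace Pool.Agent.MP552024

section C2

variable {n : ℕ}

/-- the absolute value of an element of the free group -/
def C2abs (F : FL n) : FL n := F ⊔ -F

theorem C2abs_val (F : FL n) (x : Fin n → ℝ) : (C2abs F).1 x = |F.1 x| := rfl

theorem C2abs_nonneg (F : FL n) : 0 ≤ C2abs F := fun x => abs_nonneg (F.1 x)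

theorem C2null (h2 : S_baseRef) (h3 : S_linall) (N : Mdl (FL n)) (t : N.V → Fin n → ℤ)
    (hT : Tracks N t) (f b : (Fin n → ℝ) → ℝ) (hf : f ∈ LP (Fin n)) (hb : b ∈ LP (Fin n))
    (h : ∀ x, f x = 0 → b x = 0) : ∃ k : ℕ, |b| ≤ k • |f| := by
  let F : FL n := ⟨f, hf⟩
  let B : FL n := ⟨b, hb⟩
  obtain ⟨N', hR, hl⟩ := h3 (FL n) N Bool (fun s => if s then C2abs B else C2abs F)
  obtain ⟨t', hT'⟩ := h2 n N N' t hT hR
  obtain ⟨d, hd⟩ := hl true
  obtain ⟨c, hc⟩ := hl false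
  simp only [if_true, Bool.false_eq_true, if_false] at hd hc
  have hc0 := hc.nonneg (C2abs_nonneg F)
  have hd0 := hd.nonneg (C2abs_nonneg B)
  have hz : ∀ i, c i = 0 → d i = 0 := by
    intro i hi
    have e1 := hT'.1 (C2abs F) _ (Cx.pt_mem i)
    rw [hc.pt, hi, C2abs_val] at e1
    have e2 := hT'.1 (C2abs B) _ (Cx.pt_mem i)
    rw [hd.pt, C2abs_val] at e2
    have e3 : f (fun k => ∑ j, (t' j k : ℝ) * pt i j) = 0 := by
      have : |f (fun k => ∑ j, (t' j k : ℝ) * pt i j)| = 0 := by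
        have e4 : F.1 = f := rfl
        rw [e4] at e1
        rw [← e1]
        simp
      exact abs_eq_zero.1 this
    have e5 := h _ e3
    have e6 : B.1 = b := rfl
    rw [e6, e5, abs_zero] at e2
    exact_mod_cast e2
  refine ⟨∑ i, (d i).toNat, fun x => ?_⟩
  obtain ⟨y, hy, hxy⟩ := hT'.2 x
  have hx : x = fun k => ∑ i, (t' i k : ℝ) * y i := funext hxy
  have e1 := hT'.1 (C2abs F) y hy
  have e2 := hT'.1 (C2abs B) y hy
  rw [← hx, C2abs_val, hc y hy] at e1
  rw [← hx, C2abs_val, hd y hy] at e2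
  show |b x| ≤ ((∑ i, (d i).toNat) • |f|) x
  have e3 : ((∑ i, (d i).toNat) • |f|) x = ((∑ i, (d i).toNat : ℕ) : ℝ) * |f x| := by
    rw [Pi.smul_apply, nsmul_eq_mul]
    rfl
  rw [e3]
  have e4 : F.1 x = f x := rfl
  have e5 : B.1 x = b x := rfl
  rw [e4] at e1
  rw [e5] at e2
  rw [← e1, ← e2, Finset.mul_sum]
  refine Finset.sum_le_sum fun i _ => ?_
  rw [← mul_assoc]
  refine mul_le_mul_of_nonneg_right ?_ (hy.1 i)
  have key : d i ≤ ((∑ i, (d i).toNat : ℕ) : ℤ) * c i := by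
    by_cases hi : c i = 0
    · rw [hz i hi, hi, mul_zero]
    · have h1 : 1 ≤ c i := by
        have := hc0 i
        omega
      have h4 : (d i).toNat ≤ ∑ i, (d i).toNat :=
        Finset.single_le_sum (f := fun i => (d i).toNat) (fun _ _ => Nat.zero_le _)
          (Finset.mem_univ i)
      have h5 := Int.self_le_toNat (d i)
      have h6 : ((d i).toNat : ℤ) ≤ ((∑ i, (d i).toNat : ℕ) : ℤ) := by exact_mod_cast h4
      have h7 : (0 : ℤ) ≤ ((∑ i, (d i).toNat : ℕ) : ℤ) := Int.natCast_nonneg _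
      nlinarith
  exact_mod_cast key

variable {f : (Fin n → ℝ) → ℝ} {G : Type} [AddCommGroup G] [Lattice G]
  {ψ : ((Fin n → ℝ) → ℝ) → G}

theorem C2sub (hP : Pres n f G ψ) {a b : (Fin n → ℝ) → ℝ} (ha : a ∈ LP (Fin n))
    (hb : b ∈ LP (Fin n)) : ψ (fun x => a x - b x) = ψ a - ψ b := by
  have h1 := (hP.1 _ (LP_sub ha hb) b hb).1
  have h2 : ((fun x => a x - b x) + b : (Fin n → ℝ) → ℝ) = a := by
    funext x
    simp
  rw [h2] at h1
  rw [h1]
  abel

theorem C2eq (hP : Pres n f G ψ) {a b : (Fin n → ℝ) → ℝ} (ha : a ∈ LP (Fin n))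
    (hb : b ∈ LP (Fin n)) (h : ψ a = ψ b) (x : Fin n → ℝ) (hx : f x = 0) : a x = b x := by
  have h1 : ψ (fun x => a x - b x) = 0 := by
    rw [C2sub hP ha hb, h, sub_self]
  obtain ⟨k, hk⟩ := (hP.2.2 _ (LP_sub ha hb)).1 h1
  have h2 : |a x - b x| ≤ (k • |f|) x := hk x
  have h3 : (k • |f|) x = (k : ℝ) * |f x| := by
    rw [Pi.smul_apply, nsmul_eq_mul]
    rfl
  rw [h3, hx, abs_zero, mul_zero] at h2
  have h4 := abs_eq_zero.1 (le_antisymm h2 (abs_nonneg _))
  linarith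

/-- the subcomplex of the vertices with coefficient zero -/
def C2Cx {V : Type} (Δ : Cx V) (c : V → ℤ) : Cx {i : V // c i = 0} where
  face s := Δ.face (Subtype.val '' s)
  down s t hts h := Δ.down _ _ (Set.image_mono hts) h
  vert v := by
    rw [Set.image_singleton]
    exact Δ.vert _
  empt := by
    rw [Set.image_empty]
    exact Δ.empt

/-- extension by zero -/
noncomputable def C2ext {V : Type} (c : V → ℤ) (z : {i : V // c i = 0} → ℝ) : V → ℝ :=
  fun i => if h : c i = 0 then z ⟨i, h⟩ else 0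

theorem C2ext_val {V : Type} (c : V → ℤ) (z : {i : V // c i = 0} → ℝ) (i : {i : V // c i = 0}) :
    C2ext c z i.1 = z i := by
  unfold C2ext
  rw [dif_pos i.2]

theorem C2ext_sum {V : Type} [Fintype V] (c : V → ℤ) (z : {i : V // c i = 0} → ℝ) (g : V → ℝ) :
    ∑ i, g i * C2ext c z i = ∑ i : {i : V // c i = 0}, g i.1 * z i := by
  classical
  have h1 : ∑ i ∈ Finset.univ.filter (fun i : V => c i = 0), g i * C2ext c z i =
      ∑ i : {i : V // c i = 0}, g i.1 * C2ext c z i.1 :=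
    Finset.sum_subtype _ (fun x => by simp) (fun i : V => g i * C2ext c z i)
  have h2 : ∑ i ∈ Finset.univ.filter (fun i : V => c i = 0), g i * C2ext c z i =
      ∑ i, g i * C2ext c z i := by
    refine Finset.sum_subset (Finset.filter_subset _ _) fun i _ hi => ?_
    have hi' : ¬ c i = 0 := by simpa using hi
    unfold C2ext
    rw [dif_neg hi', mul_zero]
  rw [← h2, h1]
  exact Finset.sum_congr rfl fun i _ => by rw [C2ext_val]

theorem C2ext_mem {V : Type} {Δ : Cx V} (c : V → ℤ) (z : {i : V // c i = 0} → ℝ)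
    (hz : z ∈ (C2Cx Δ c).Z) : C2ext c z ∈ Δ.Z := by
  refine Cx.mem_Z (fun i => ?_) _ hz.2 (fun i hi => ?_)
  · unfold C2ext
    split_ifs with h
    · exact hz.1 _
    · exact le_rfl
  · unfold C2ext at hi
    split_ifs at hi with h
    · exact ⟨⟨i, h⟩, hi, rfl⟩
    · exact absurd rfl hi

theorem C2zero (hf : f ∈ LP (Fin n)) (N : Mdl (FL n)) (t : N.V → Fin n → ℤ) (hT : Tracks N t)
    (c : N.V → ℤ) (hc : N.Lin (C2abs ⟨f, hf⟩) c) (z : {i : N.V // c i = 0} → ℝ)
    (hz : z ∈ (C2Cx N.Δ c).Z) : f (fun k => ∑ i : {i : N.V // c i = 0}, (t i.1 k : ℝ) * z i) = 0 := by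
  have h1 := C2ext_mem c z hz
  have h2 := hT.1 (C2abs ⟨f, hf⟩) _ h1
  rw [hc _ h1, C2ext_sum, C2abs_val] at h2
  have h3 : ∑ i : {i : N.V // c i = 0}, ((c i.1 : ℤ) : ℝ) * z i = 0 := by
    refine Finset.sum_eq_zero fun i _ => ?_
    rw [i.2]
    simp
  rw [h3] at h2
  have h4 : (fun k => ∑ i, (t i k : ℝ) * C2ext c z i) =
      fun k => ∑ i : {i : N.V // c i = 0}, (t i.1 k : ℝ) * z i := by
    funext k
    exact C2ext_sum c z (fun i => (t i k : ℝ))
  rw [h4] at h2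
  exact abs_eq_zero.1 h2.symm

theorem C2lift (hf : f ∈ LP (Fin n)) (N : Mdl (FL n)) (t : N.V → Fin n → ℤ) (hT : Tracks N t)
    (c : N.V → ℤ) (hc : N.Lin (C2abs ⟨f, hf⟩) c) (x : Fin n → ℝ) (hx : f x = 0) :
    ∃ z ∈ (C2Cx N.Δ c).Z, (fun k => ∑ i : {i : N.V // c i = 0}, (t i.1 k : ℝ) * z i) = x := by
  obtain ⟨y, hy, hxy⟩ := hT.2 x
  have hx' : x = fun k => ∑ i, (t i k : ℝ) * y i := funext hxy
  have h2 := hT.1 (C2abs ⟨f, hf⟩) _ hy
  rw [hc _ hy, C2abs_val, ← hx'] at h2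
  have h3 : |f x| = 0 := by rw [hx, abs_zero]
  have h4 : ∑ i, (c i : ℝ) * y i = 0 := h2.trans h3
  have hc0 := hc.nonneg (C2abs_nonneg _)
  have h5 := (Finset.sum_eq_zero_iff_of_nonneg (fun i _ => mul_nonneg
    (by exact_mod_cast hc0 i : (0 : ℝ) ≤ c i) (hy.1 i))).1 h4
  have h6 : ∀ i, c i ≠ 0 → y i = 0 := by
    intro i hi
    rcases mul_eq_zero.1 (h5 i (Finset.mem_univ i)) with h7 | h7
    · exact absurd (by exact_mod_cast h7) hi
    · exact h7
  have h7 : C2ext c (fun i : {i : N.V // c i = 0} => y i.1) = y := by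
    funext i
    unfold C2ext
    split_ifs with h
    · rfl
    · exact (h6 i h).symm
  refine ⟨fun i => y i.1, ⟨fun i => hy.1 _, ?_⟩, ?_⟩
  · refine N.Δ.down _ _ ?_ hy.2
    rintro _ ⟨i, hi, rfl⟩
    exact hi
  · funext k
    rw [← C2ext_sum c (fun i : {i : N.V // c i = 0} => y i.1) (fun i => (t i k : ℝ)), h7]
    exact (hxy k).symm

end C2

theorem prfC2 (h1 : S_base) (h2 : S_baseRef) (h3 : S_linall) : S_quot := by
  intro n f hf G _ _ _ ψ hP
  classical
  obtain ⟨M0, t0, hT0⟩ := h1 n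
  obtain ⟨N, hR, hl⟩ := h3 (FL n) M0 Unit (fun _ => C2abs ⟨f, hf⟩)
  obtain ⟨t, hT⟩ := h2 n M0 N t0 hT0 hR
  obtain ⟨c, hc⟩ := hl ()
  have hsur := hP.2.1
  choose a ha hψ using hsur
  let X : ({i : N.V // c i = 0} → ℝ) → Fin n → ℝ :=
    fun z k => ∑ i : {i : N.V // c i = 0}, (t i.1 k : ℝ) * z i
  have hX0 : ∀ z ∈ (C2Cx N.Δ c).Z, f (X z) = 0 := fun z hz => C2zero hf N t hT c hc z hz
  have evψ : ∀ b ∈ LP (Fin n), ∀ z ∈ (C2Cx N.Δ c).Z, a (ψ b) (X z) = b (X z) :=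
    fun b hb z hz => C2eq hP (ha _) hb (hψ _) _ (hX0 z hz)
  have hchart : IsChart (C2Cx N.Δ c) (fun g z => a g (X z)) := by
    refine ⟨?_, ?_, ?_, ?_, ?_⟩
    · intro g h z hz
      refine C2eq hP (ha _) (LP_add (ha g) (ha h)) ?_ _ (hX0 z hz)
      have e := (hP.1 _ (ha g) _ (ha h)).1
      rw [hψ, hψ] at e
      rw [hψ]
      exact e.symm
    · intro g h z hz
      refine C2eq hP (ha _) (LP_max (ha g) (ha h)) ?_ _ (hX0 z hz)
      have e := (hP.1 _ (ha g) _ (ha h)).2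
      rw [hψ, hψ] at e
      rw [hψ]
      exact e.symm
    · intro g hg
      have e1 : ∀ x, f x = 0 → a g x = 0 := by
        intro x hx
        obtain ⟨z, hz, rfl⟩ := C2lift hf N t hT c hc x hx
        exact hg z hz
      have e2 := (hP.2.2 _ (ha g)).2 (C2null h2 h3 N t hT f (a g) hf (ha g) e1)
      rw [hψ] at e2
      exact e2
    · intro g
      exact ⟨fun z => a g (X z), LP_comp (ha g) (fun k z => ∑ i : {i : N.V // c i = 0},
        (t i.1 k : ℝ) * z i) (fun k => LP_lin (fun i : {i : N.V // c i = 0} => t i.1 k)),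
        fun z _ => rfl⟩
    · intro b hb
      obtain ⟨A, hA⟩ := N.chart.sur _ (LP_comp hb (fun (i : {i : N.V // c i = 0}) y => y i.1)
        (fun i => LP_coord i.1))
      refine ⟨ψ A.1, fun z hz => ?_⟩
      show a (ψ A.1) (X z) = b z
      have e1 := C2ext_mem c z hz
      have e2 := hA _ e1
      rw [hT.1 A _ e1] at e2
      have e3 : (fun k => ∑ i, (t i k : ℝ) * C2ext c z i) = X z := by
        funext k
        exact C2ext_sum c z (fun i => (t i k : ℝ))
      rw [e3] at e2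
      rw [evψ A.1 A.2 z hz, e2]
      congr 1
      funext i
      exact C2ext_val c z i
  exact ⟨⟨{i : N.V // c i = 0}, inferInstance, C2Cx N.Δ c, fun g z => a g (X z), hchart⟩,
    fun i => t i.1, fun b hb z hz => evψ b hb z hz, fun z hz => hX0 z hz⟩

end Pool.Agent.MP552024
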