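import Pool.Agent.Work.MP_552024_lc.Stmts

/-!
Item C3 of MP_552024_lc (helper85): a zero set of dimension at most two gives a complex without triangles.
-/

set_option autoImplicit false

namespace Pool.Agent.MP552024

section C3

/-- the point with coordinates `a`, `b`, `c` at `i`, `j`, `k` -/
noncomputable def C3pt {V : Type} (i j k : V) (a b c : ℝ) : V → ℝ :=
  fun l => a * pt i l + b * pt j l + c * pt k l

theorem C3pt_mem {V : Type} {Δ : Cx V} {i j k : V} (h : Δ.face {i, j, k}) {a b c : ℝ}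
    (ha : 0 ≤ a) (hb : 0 ≤ b) (hc : 0 ≤ c) : C3pt i j k a b c ∈ Δ.Z := by
  refine Cx.mem_Z (fun l => add_nonneg (add_nonneg (mul_nonneg ha (pt_nonneg _ _))
    (mul_nonneg hb (pt_nonneg _ _))) (mul_nonneg hc (pt_nonneg _ _))) _ h (fun l hl => ?_)
  by_contra hn
  simp only [Set.mem_insert_iff, Set.mem_singleton_iff, not_or] at hn
  apply hl
  unfold C3pt
  rw [pt_ne hn.1, pt_ne hn.2.1, pt_ne hn.2.2]
  ring

theorem C3pt_X {V : Type} [Fintype V] {n : ℕ} (t : V → Fin n → ℤ) (i j k : V) (a b c : ℝ) (l : Fin n) :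
    ∑ v, (t v l : ℝ) * C3pt i j k a b c v = a * t i l + b * t j l + c * t k l := by
  classical
  have h : ∀ u : V, ∑ v, (t v l : ℝ) * pt u v = t u l := by
    intro u
    rw [Finset.sum_eq_single u]
    · rw [pt_self, mul_one]
    · intro v _ hv
      rw [pt_ne hv, mul_zero]
    · intro h; exact absurd (Finset.mem_univ _) h
  unfold C3pt
  simp only [mul_add, Finset.sum_add_distrib]
  have h2 : ∀ (u : V) (r : ℝ), ∑ v, (t v l : ℝ) * (r * pt u v) = r * t u l := by
    intro u r
    rw [← h u, Finset.mul_sum]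
    refine Finset.sum_congr rfl fun v _ => ?_
    ring
  rw [h2, h2, h2]

/-- three points of a curve in a subspace -/
theorem C3vand {E : Type} [AddCommGroup E] [Module ℝ E] (W : Submodule ℝ E) (u v w : E) (a b c : ℝ)
    (hab : a ≠ b) (hac : a ≠ c) (hbc : b ≠ c) (ha : u + a • v + (a ^ 2) • w ∈ W)
    (hb : u + b • v + (b ^ 2) • w ∈ W) (hc : u + c • v + (c ^ 2) • w ∈ W) :
    u ∈ W ∧ v ∈ W ∧ w ∈ W := by
  have h1 : v + (a + b) • w ∈ W := by
    have h2 := W.smul_mem ((a - b)⁻¹) (W.sub_mem ha hb)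
    have h3 : (a - b)⁻¹ • ((u + a • v + (a ^ 2) • w) - (u + b • v + (b ^ 2) • w)) =
        v + (a + b) • w := by
      have h4 : (u + a • v + (a ^ 2) • w) - (u + b • v + (b ^ 2) • w) =
          (a - b) • (v + (a + b) • w) := by module
      rw [h4, smul_smul, inv_mul_cancel₀ (sub_ne_zero.2 hab), one_smul]
    rwa [h3] at h2
  have h1' : v + (a + c) • w ∈ W := by
    have h2 := W.smul_mem ((a - c)⁻¹) (W.sub_mem ha hc)
    have h3 : (a - c)⁻¹ • ((u + a • v + (a ^ 2) • w) - (u + c • v + (c ^ 2) • w)) =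
        v + (a + c) • w := by
      have h4 : (u + a • v + (a ^ 2) • w) - (u + c • v + (c ^ 2) • w) =
          (a - c) • (v + (a + c) • w) := by module
      rw [h4, smul_smul, inv_mul_cancel₀ (sub_ne_zero.2 hac), one_smul]
    rwa [h3] at h2
  have hw : w ∈ W := by
    have h2 := W.smul_mem ((b - c)⁻¹) (W.sub_mem h1 h1')
    have h3 : (b - c)⁻¹ • ((v + (a + b) • w) - (v + (a + c) • w)) = w := by
      have h4 : (v + (a + b) • w) - (v + (a + c) • w) = (b - c) • w := by module
      rw [h4, smul_smul, inv_mul_cancel₀ (sub_ne_zero.2 hbc), one_smul]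
    rwa [h3] at h2
  have hv : v ∈ W := by
    have h2 := W.sub_mem h1 (W.smul_mem (a + b) hw)
    rwa [add_sub_cancel_right] at h2
  have hu : u ∈ W := by
    have h2 := W.sub_mem (W.sub_mem ha (W.smul_mem a hv)) (W.smul_mem (a ^ 2) hw)
    have h3 : u + a • v + (a ^ 2) • w - a • v - (a ^ 2) • w = u := by module
    rwa [h3] at h2
  exact ⟨hu, hv, hw⟩

end C3

theorem prfC3 : S_thin := by
  intro n f G _ _ _ ψ hP M t hQ hD i j k hij hjk hik hf
  classical
  obtain ⟨hQ1, hQ2⟩ := hQ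
  obtain ⟨F, hF, hF2, hF3⟩ := hD
  -- (1) injectivity
  have hinj : ∀ z ∈ M.Δ.Z, ∀ z' ∈ M.Δ.Z,
      (∀ l, ∑ v, (t v l : ℝ) * z v = ∑ v, (t v l : ℝ) * z' v) → z = z' := by
    intro z hz z' hz' h
    funext v
    obtain ⟨g, hg⟩ := M.chart.hat v
    obtain ⟨a, ha, rfl⟩ := hP.2.1 g
    rw [← hg z hz, ← hg z' hz', hQ1 a ha z hz, hQ1 a ha z' hz']
    congr 1
    funext l
    exact h l
  -- the vectors
  let T : M.V → Fin n → ℝ := fun v l => (t v l : ℝ)
  have hind : LinearIndependent ℝ ![T i, T j, T k] := by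
    rw [Fintype.linearIndependent_iff]
    intro g hg
    rw [Fin.sum_univ_three] at hg
    simp only [Matrix.cons_val_zero, Matrix.cons_val_one, Matrix.cons_val_two, Matrix.head_cons,
      Matrix.tail_cons, Matrix.cons_val] at hg
    set A := |g 0| + |g 1| + |g 2| + 1 with hA
    have hApos : 0 < A := by positivity
    have hbd : ∀ m : Fin 3, 0 ≤ 1 + A⁻¹ * g m := by
      intro m
      have h1 : |g m| ≤ A := by
        fin_cases m <;> simp only [hA] <;> simp <;> 
          nlinarith [abs_nonneg (g 0), abs_nonneg (g 1), abs_nonneg (g 2)]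
      have h2 : -A ≤ g m := by
        have := neg_abs_le (g m)
        linarith
      have h3 : A⁻¹ * (-A) ≤ A⁻¹ * g m := mul_le_mul_of_nonneg_left h2 (inv_pos.2 hApos).le
      have h4 : A⁻¹ * (-A) = -1 := by field_simp
      linarith
    have hz := C3pt_mem (a := 1 + A⁻¹ * g 0) (b := 1 + A⁻¹ * g 1) (c := 1 + A⁻¹ * g 2) hf
      (hbd 0) (hbd 1) (hbd 2)
    have hz' := C3pt_mem (a := 1) (b := 1) (c := 1) hf zero_le_one zero_le_one zero_le_one
    have heq := hinj _ hz _ hz' (fun l => by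
      rw [C3pt_X, C3pt_X]
      have h1 := congrFun hg l
      simp only [Pi.add_apply, Pi.smul_apply, smul_eq_mul, Pi.zero_apply, T] at h1
      linear_combination A⁻¹ * h1)
    have hAi : A⁻¹ ≠ 0 := (inv_pos.2 hApos).ne'
    have e0 := congrFun heq i
    have e1 := congrFun heq j
    have e2 := congrFun heq k
    unfold C3pt at e0 e1 e2
    rw [pt_self, pt_ne hij, pt_ne hik] at e0
    rw [pt_self, pt_ne hij.symm, pt_ne hjk] at e1
    rw [pt_self, pt_ne hik.symm, pt_ne hjk.symm] at e2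
    intro m
    have key : ∀ m : Fin 3, A⁻¹ * g m = 0 → g m = 0 := fun m h =>
      (mul_eq_zero.1 h).resolve_left hAi
    fin_cases m
    · exact key 0 (by linarith)
    · exact key 1 (by linarith)
    · exact key 2 (by linarith)
  -- (3) the curve
  have hcurve : ∀ s : ℕ, ∃ W ∈ F, T i + (s : ℝ) • T j + ((s : ℝ) ^ 2) • T k ∈ W := by
    intro s
    refine hF3 _ ?_
    have h1 := hQ2 _ (C3pt_mem (a := 1) (b := s) (c := (s : ℝ) ^ 2) hf zero_le_one
      (Nat.cast_nonneg _) (by positivity))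
    rw [← h1]
    congr 1
    funext l
    rw [C3pt_X]
    simp only [Pi.add_apply, Pi.smul_apply, smul_eq_mul, T]
    ring
  choose W hW hW2 using hcurve
  have : Finite F := hF
  obtain ⟨W0, hW0⟩ := Finite.exists_infinite_fiber (fun s : ℕ => (⟨W s, hW s⟩ : F))
  have hinf : Set.Infinite {s : ℕ | W s = W0.1} := by
    have h1 : Set.Infinite ((fun s : ℕ => (⟨W s, hW s⟩ : F)) ⁻¹' {W0}) := Set.infinite_coe_iff.1 hW0
    refine h1.mono ?_
    intro s hs
    exact congrArg Subtype.val hs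
  obtain ⟨S, hS1, hS2⟩ := hinf.exists_subset_card_eq 3
  obtain ⟨a, b, c, hab, hac, hbc, rfl⟩ := Finset.card_eq_three.1 hS2
  have ha : W a = W0.1 := hS1 (by simp)
  have hb : W b = W0.1 := hS1 (by simp)
  have hc : W c = W0.1 := hS1 (by simp)
  have hva := hW2 a
  have hvb := hW2 b
  have hvc := hW2 c
  rw [ha] at hva
  rw [hb] at hvb
  rw [hc] at hvc
  obtain ⟨h1, h2, h3⟩ := C3vand W0.1 _ _ _ _ _ _ (by exact_mod_cast hab) (by exact_mod_cast hac)
    (by exact_mod_cast hbc) hva hvb hvc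
  have hmem : ∀ m : Fin 3, (![T i, T j, T k] : Fin 3 → Fin n → ℝ) m ∈ W0.1 := by
    intro m
    fin_cases m
    · exact h1
    · exact h2
    · exact h3
  have hind2 : LinearIndependent ℝ (fun m : Fin 3 => (⟨_, hmem m⟩ : W0.1)) := by
    refine LinearIndependent.of_comp W0.1.subtype ?_
    exact hind
  have h4 := hind2.fintype_card_le_finrank
  have h5 := hF2 W0.1 W0.2
  simp only [Fintype.card_fin] at h4
  omega

end Pool.Agent.MP552024
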