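import Pool.Agent.Work.MP_552024_lc.Stmts

/-!
First-order meaning of support inclusion, MP_552024_lc.
-/

set_option autoImplicit false

namespace Pool.Agent.MP552024

theorem prfD1 (h : S_linall) : S_inc := by
  intro G _ _ _ M a t ha ht
  constructor
  · intro hinc z hz htz
    by_contra haz
    obtain ⟨N, hN, hlin⟩ := h G M Bool (fun b => if b then a else t)
    obtain ⟨ca, hca⟩ := hlin true
    obtain ⟨ct, hct⟩ := hlin false
    simp only [if_true, Bool.false_eq_true, if_false] at hca hct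
    obtain ⟨T, hT1, hT2, hT3⟩ := hN.map
    obtain ⟨z', hz', rfl⟩ := hT2 z hz
    rw [← hT3 a z' hz', hca z' hz'] at haz
    rw [← hT3 t z' hz', hct z' hz'] at htz
    have ha' := hca.nonneg ha
    have ht' := hct.nonneg ht
    have hterm : ∀ i ∈ Finset.univ, 0 ≤ (ct i : ℝ) * z' i := fun i _ =>
      mul_nonneg (by exact_mod_cast ht' i) (hz'.1 i)
    have h0 := (Finset.sum_eq_zero_iff_of_nonneg hterm).1 htz
    obtain ⟨i, -, hi⟩ := Finset.exists_ne_zero_of_sum_ne_zero haz
    have hzi : z' i ≠ 0 := fun h => hi (by rw [h, mul_zero])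
    have hcai : ca i ≠ 0 := fun h => hi (by rw [h]; simp)
    have hcti : ct i = 0 := by
      have := h0 i (Finset.mem_univ _)
      rcases mul_eq_zero.1 this with h | h
      · exact_mod_cast h
      · exact absurd h hzi
    obtain ⟨x, hx⟩ := N.chart.hat i
    have hx0 : 0 ≤ x := N.chart.nonneg_iff.2 (fun z hz => by rw [hx z hz]; exact hz.1 i)
    have hxa : x ≤ a := by
      refine N.chart.le_iff.2 (fun z hz => ?_)
      rw [hx z hz, hca z hz]
      have h1 : (ca i : ℝ) * z i ≤ ∑ j, (ca j : ℝ) * z j :=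
        Finset.single_le_sum (f := fun j => (ca j : ℝ) * z j)
          (fun j _ => mul_nonneg (by exact_mod_cast ha' j) (hz.1 j)) (Finset.mem_univ i)
      have h2 : (1 : ℝ) ≤ ca i := by
        have := ha' i
        have h3 : 1 ≤ ca i := by omega
        exact_mod_cast h3
      nlinarith [hz.1 i]
    obtain ⟨y, hy1, hy2⟩ := hinc x hx0 hxa
    have e1 := N.chart.le_iff.1 hy1 _ (Cx.pt_mem i)
    have e2 := N.chart.le_iff.1 hy2 _ (Cx.pt_mem i)
    rw [N.chart.add _ _ _ (Cx.pt_mem i), hx _ (Cx.pt_mem i), pt_self] at e1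
    rw [N.chart.add _ _ _ (Cx.pt_mem i), N.chart.add _ _ _ (Cx.pt_mem i), hx _ (Cx.pt_mem i),
      pt_self, hct.pt, hcti] at e2
    obtain ⟨k, hk⟩ := N.chart.int_pt y i
    rw [hk] at e1 e2
    norm_num at e2
    have e3 : (1 : ℤ) ≤ k + k := by exact_mod_cast e1
    have e4 : k + k ≤ 1 := by exact_mod_cast e2
    omega
  · intro hz x hx0 hxa
    obtain ⟨N, hN, hlin⟩ := h G M Bool (fun b => if b then x else t)
    obtain ⟨cx, hcx⟩ := hlin true
    obtain ⟨ct, hct⟩ := hlin false
    simp only [if_true, Bool.false_eq_true, if_false] at hcx hct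
    obtain ⟨T, hT1, hT2, hT3⟩ := hN.map
    obtain ⟨y, hy⟩ := N.exists_lin (fun i => (cx i + 1) / 2)
    have hx' := hcx.nonneg hx0
    have ht' := hct.nonneg ht
    refine ⟨y, hcx.le (hy.add hy) (fun i => ?_), (hy.add hy).le (hcx.add hct) (fun i => ?_)⟩
    · have := hx' i
      omega
    · have h1 := hx' i
      have h2 := ht' i
      by_cases h3 : ct i = 0
      · have h4 : N.ev a (pt i) = 0 := by
          rw [hT3 a _ (Cx.pt_mem i)]
          refine hz _ (hT1 _ (Cx.pt_mem i)) ?_
          rw [← hT3 t _ (Cx.pt_mem i), hct.pt, h3]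
          simp
        have h5 := N.chart.le_iff.1 hxa _ (Cx.pt_mem i)
        rw [hcx.pt, h4] at h5
        have h6 : cx i ≤ 0 := by exact_mod_cast h5
        omega
      · omega

end Pool.Agent.MP552024
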