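import Pool.Agent.Work.MP_552024_lc.Stmts

/-!
Linear forms of the definable relations, MP_552024_lc.
-/

set_option autoImplicit false

namespace Pool.Agent.MP552024

section

variable {G : Type} [AddCommGroup G] [Lattice G] {M : Mdl G}

/-- zeros of nonnegative linear elements -/
theorem Mdl.Lin.zero_iff {t : G} {c : M.V → ℤ} (hc : M.Lin t c) (ht : 0 ≤ t) {z : M.V → ℝ}
    (hz : z ∈ M.Δ.Z) : M.ev t z = 0 ↔ ∀ i, c i ≠ 0 → z i = 0 := by
  have hc' := hc.nonneg ht
  rw [hc z hz, Finset.sum_eq_zero_iff_of_nonneg (fun i _ => mul_nonneg (by exact_mod_cast hc' i)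
    (hz.1 i))]
  constructor
  · intro h i hi
    rcases mul_eq_zero.1 (h i (Finset.mem_univ _)) with h1 | h1
    · exact absurd (by exact_mod_cast h1) hi
    · exact h1
  · intro h i _
    by_cases h1 : c i = 0
    · rw [h1]; simp
    · rw [h i h1, mul_zero]

theorem Mdl.ev_zero_vec (M : Mdl G) (a : G) {z : M.V → ℝ} (hz : ∀ i, z i = 0) : M.ev a z = 0 := by
  have h1 : z = fun _ => (0 : ℝ) := funext hz
  have h2 := M.chart.hom a (Cx.zero_mem (Δ := M.Δ)) (le_refl (0 : ℝ))
  simp only [mul_zero, zero_mul] at h2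
  rw [h1]
  exact h2

/-- points supported in one vertex -/
theorem Mdl.ev_ray (M : Mdl G) (a : G) {z : M.V → ℝ} (hz : z ∈ M.Δ.Z) (i : M.V)
    (h : ∀ j, j ≠ i → z j = 0) : M.ev a z = z i * M.ev a (pt i) := by
  have h1 : z = fun j => z i * pt i j := by
    funext j
    by_cases hj : j = i
    · rw [hj, pt_self, mul_one]
    · rw [h j hj, pt_ne hj, mul_zero]
  have h2 := M.chart.hom a (Cx.pt_mem (Δ := M.Δ) i) (hz.1 i)
  rw [← h1] at h2
  exact h2

end

theorem prfD2a (h : S_inc) : S_incL := by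
  intro G _ _ _ M a t ca ct hca hct ha ht
  rw [h G M a t ha ht]
  constructor
  · intro h1 i hi
    have h2 := h1 (pt i) (Cx.pt_mem i) (by rw [hct.pt, hi]; simp)
    rw [hca.pt] at h2
    exact_mod_cast h2
  · intro h1 z hz h2
    rw [hct.zero_iff ht hz] at h2
    rw [hca.zero_iff ha hz]
    exact fun i hi => h2 i (fun h3 => hi (h1 i h3))

theorem prfD2b (h : S_inc) : S_nzL := by
  intro G _ _ _ M u c hc hu
  have key : NZ u ↔ ∀ a : G, 0 ≤ a → Inc a u :=
    ⟨fun h1 a _ x hx _ => h1 x hx, fun h1 x hx => h1 x hx x hx le_rfl⟩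
  rw [key]
  constructor
  · intro h1 i
    have h2 := hc.nonneg hu i
    rcases h2.lt_or_eq with h3 | h3
    · exact h3
    · exfalso
      obtain ⟨x, hx⟩ := M.chart.hat i
      have hx0 : 0 ≤ x := M.chart.nonneg_iff.2 (fun z hz => by rw [hx z hz]; exact hz.1 i)
      have h4 := (h G M x u hx0 hu).1 (h1 x hx0) (pt i) (Cx.pt_mem i) (by rw [hc.pt, ← h3]; simp)
      rw [hx _ (Cx.pt_mem i), pt_self] at h4
      exact one_ne_zero h4
  · intro h1 a ha
    rw [h G M a u ha hu]
    intro z hz h2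
    rw [hc.zero_iff hu hz] at h2
    exact M.ev_zero_vec a (fun i => h2 i (h1 i).ne')

theorem prfD2c (h : S_inc) : S_singleL := by
  intro G _ _ _ M t c hc ht
  have hnz := prfD2b h G M t c hc ht
  constructor
  · rintro ⟨h1, h2⟩
    rw [hnz] at h1
    push Not at h1
    obtain ⟨i, hi⟩ := h1
    have hi0 : c i = 0 := le_antisymm hi (hc.nonneg ht i)
    refine ⟨i, hi0, fun j hj => ?_⟩
    by_contra hji
    obtain ⟨x, hx⟩ := M.chart.hat i
    obtain ⟨y, hy⟩ := M.chart.hat j
    have ev1 : ∀ z ∈ M.Δ.Z, M.ev ((x - y) ⊔ 0) z = max (z i - z j) 0 := fun z hz => by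
      rw [M.chart.sup _ _ z hz, M.chart.sub _ _ hz, M.chart.zero hz, hx z hz, hy z hz]
    have ev2 : ∀ z ∈ M.Δ.Z, M.ev ((y - x) ⊔ 0) z = max (z j - z i) 0 := fun z hz => by
      rw [M.chart.sup _ _ z hz, M.chart.sub _ _ hz, M.chart.zero hz, hx z hz, hy z hz]
    have hdis : ((x - y) ⊔ 0) ⊓ ((y - x) ⊔ 0) = 0 := by
      refine M.chart.ext (fun z hz => ?_)
      rw [M.chart.inf _ _ hz, ev1 z hz, ev2 z hz, M.chart.zero hz]
      rcases le_total (z i) (z j) with h3 | h3
      · rw [max_eq_right (by linarith), min_eq_left (le_max_right _ _)]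
      · rw [max_eq_right (a := z j - z i) (by linarith), min_eq_right (le_max_right _ _)]
    rcases h2 _ _ le_sup_right le_sup_right hdis with h3 | h3
    · have h4 := (h G M _ t le_sup_right ht).1 h3 (pt i) (Cx.pt_mem i) (by rw [hc.pt, hi0]; simp)
      rw [ev1 _ (Cx.pt_mem i), pt_self, pt_ne hji] at h4
      norm_num at h4
    · have h4 := (h G M _ t le_sup_right ht).1 h3 (pt j) (Cx.pt_mem j) (by rw [hc.pt, hj]; simp)
      rw [ev2 _ (Cx.pt_mem j), pt_self, pt_ne (Ne.symm hji)] at h4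
      norm_num at h4
  · rintro ⟨i, hi, huniq⟩
    refine ⟨fun h1 => ?_, fun a b ha hb hab => ?_⟩
    · have := hnz.1 h1 i
      omega
    · have key : ∀ a : G, 0 ≤ a → M.ev a (pt i) = 0 → Inc a t := by
        intro a ha h1
        rw [h G M a t ha ht]
        intro z hz h2
        rw [hc.zero_iff ht hz] at h2
        rw [M.ev_ray a hz i (fun j hj => h2 j (fun h3 => hj (huniq j h3))), h1, mul_zero]
      have h1 := M.chart.inf a b (Cx.pt_mem (Δ := M.Δ) i)
      rw [hab, M.chart.zero (Cx.pt_mem i)] at h1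
      rcases min_choice (M.ev a (pt i)) (M.ev b (pt i)) with h2 | h2
      · exact Or.inl (key a ha (by rw [← h2]; exact h1.symm))
      · exact Or.inr (key b hb (by rw [← h2]; exact h1.symm))

end Pool.Agent.MP552024
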