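import Pool.Agent.Work.MP_552024_lc.Stmts

/-!
MP_552024_lc, item D3: the closure relation.
-/

set_option autoImplicit false

open Filter Topology

namespace Pool.Agent.MP552024

theorem prfD3a (h : S_inc) : S_clPath := by
  intro G _ _ _ M a t i w ht hz0 hw y hy hya
  have hpt : M.ev y (pt i) = 0 := by
    obtain ⟨b, hb, hbz⟩ := M.chart.mem y
    have hev : ∀ ε : ℝ, 0 < ε → b (fun l => pt i l + ε * w l) = 0 := by
      intro ε hε
      obtain ⟨h1, h2⟩ := hw ε hε
      have h3 := M.chart.inf y a h1
      rw [hya, M.chart.zero h1] at h3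
      have h4 := M.chart.nonneg_iff.1 hy _ h1
      rw [← hbz _ h1]
      rcases le_total (M.ev y fun l => pt i l + ε * w l) (M.ev a fun l => pt i l + ε * w l)
        with h5 | h5
      · rw [min_eq_left h5] at h3
        exact h3.symm
      · rw [min_eq_right h5] at h3
        exact absurd h3 h2.ne
    have hcont : Continuous fun ε : ℝ => b (fun l => pt i l + ε * w l) :=
      (LP_cont hb).comp (continuous_pi fun l => continuous_const.add
        (continuous_id.mul continuous_const))
    have ht1 : Tendsto (fun ε : ℝ => b (fun l => pt i l + ε * w l)) (𝓝[>] 0)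
        (𝓝 (b (fun l => pt i l + 0 * w l))) :=
      (hcont.tendsto 0).mono_left nhdsWithin_le_nhds
    have ht2 : Tendsto (fun ε : ℝ => b (fun l => pt i l + ε * w l)) (𝓝[>] 0) (𝓝 0) := by
      refine tendsto_const_nhds.congr' ?_
      filter_upwards [self_mem_nhdsWithin] with ε hε
      exact (hev ε hε).symm
    have h6 := tendsto_nhds_unique ht1 ht2
    have h7 : (fun l => pt i l + 0 * w l) = pt i := by
      funext l
      ring
    rw [h7] at h6
    rw [hbz _ (Cx.pt_mem i)]
    exact h6
  refine (h G M y t hy ht).2 (fun z hz htz => ?_)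
  have h1 := hz0 z hz htz
  have h2 : z = fun l => z i * pt i l := by
    funext l
    by_cases hl : l = i
    · rw [hl, pt_self, mul_one]
    · rw [pt_ne hl, mul_zero, h1 l hl]
  rw [h2, M.chart.hom y (Cx.pt_mem i) (hz.1 i), hpt, mul_zero]

theorem prfD3b (h : S_inc) (h' : S_incL) : S_clL := by
  classical
  intro G _ _ _ M a t d c i hd hc ha ht hci huniq
  constructor
  · intro hcl
    by_contra hcon
    push Not at hcon
    obtain ⟨y, hy⟩ := M.chart.hat i
    have hy0 : 0 ≤ y := M.chart.nonneg_iff.2 fun z hz => by
      rw [hy z hz]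
      exact hz.1 i
    have hya : y ⊓ a = 0 := by
      refine M.chart.inj _ fun z hz => ?_
      rw [M.chart.inf y a hz, hy z hz]
      have ha0 := M.chart.nonneg_iff.1 ha z hz
      by_cases hzi : z i = 0
      · rw [hzi]
        exact min_eq_left ha0
      · have : M.ev a z = 0 := by
          rw [hd z hz]
          refine Finset.sum_eq_zero fun l _ => ?_
          by_cases hzl : z l = 0
          · rw [hzl, mul_zero]
          · have hf : M.Δ.face {i, l} := Cx.face_of_mem hz _ (by
              intro k hk
              simp only [Set.mem_insert_iff, Set.mem_singleton_iff] at hk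
              rcases hk with rfl | rfl
              · exact hzi
              · exact hzl)
            have h1 : d l = 0 := le_antisymm (hcon l hf) (hd.nonneg ha l)
            rw [h1]
            simp
        rw [this]
        exact min_eq_right (hz.1 i)
    have hinc := hcl y hy0 hya
    have hlin : M.Lin y (fun j => if j = i then 1 else 0) := by
      intro z hz
      rw [hy z hz, Finset.sum_eq_single i]
      · simp
      · intro j _ hj
        simp [hj]
      · intro hi
        exact absurd (Finset.mem_univ i) hi
    have h2 := (h' G M y t _ c hlin hc hy0 ht).1 hinc i hci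
    simp at h2
  · rintro ⟨j, hf, hdj⟩
    refine prfD3a h G M a t i (pt j) ht (fun z hz htz l hl => ?_) (fun ε hε => ?_)
    · rw [hc z hz] at htz
      have h1 := (Finset.sum_eq_zero_iff_of_nonneg (fun k _ => mul_nonneg
        (by exact_mod_cast hc.nonneg ht k) (hz.1 k))).1 htz l (Finset.mem_univ l)
      rcases mul_eq_zero.1 h1 with h2 | h2
      · exact absurd (huniq l (by exact_mod_cast h2)) hl
      · exact h2
    · have hm : (fun l => pt i l + ε * pt j l) ∈ M.Δ.Z := by
        have := Cx.pair_mem hf zero_le_one hε.le
        simpa only [one_mul] using this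
      refine ⟨hm, ?_⟩
      have h1 := hd _ (Cx.pt_mem (Δ := M.Δ) i)
      have h2 := hd _ (Cx.pt_mem (Δ := M.Δ) j)
      rw [hd.pt] at h1 h2
      have h3 : M.ev a (fun l => pt i l + ε * pt j l) = d i + ε * d j := by
        rw [hd _ hm, h1, h2, Finset.mul_sum, ← Finset.sum_add_distrib]
        refine Finset.sum_congr rfl fun l _ => ?_
        ring
      rw [h3]
      have h4 : (0 : ℝ) ≤ d i := by exact_mod_cast hd.nonneg ha i
      have h5 : (0 : ℝ) < d j := by exact_mod_cast hdj
      positivity

end Pool.Agent.MP552024
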