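import Mathlib

/-!
Definitions for MP_552024_lc (finitely presented abelian lattice-ordered groups of dimension at most 2).
A complex is a down-closed family of faces, its realisation Z is the set of nonnegative vectors with
support a face, a chart of an l-group G is an isomorphism of G with the group of all
integral piecewise linear homogeneous functions on Z.
-/

set_option autoImplicit false

namespace Pool.Agent.MP552024

/-- lattice-group polynomials in the coordinates (for `ι = Fin n` the set `Fn` of the frozen statement) -/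
def LP (ι : Type) : Set ((ι → ℝ) → ℝ) :=
  {h | ∀ S : Set ((ι → ℝ) → ℝ),
    (∀ i : ι, (fun x : ι → ℝ => x i) ∈ S) →
    (0 : (ι → ℝ) → ℝ) ∈ S →
    (∀ a ∈ S, ∀ b ∈ S, a + b ∈ S ∧ -a ∈ S ∧ a ⊔ b ∈ S ∧ a ⊓ b ∈ S) → h ∈ S}

/-- abstract simplicial complexes, faces are sets of vertices -/
structure Cx (V : Type) where
  face : Set V → Prop
  down : ∀ s t : Set V, t ⊆ s → face s → face t
  vert : ∀ v : V, face {v}
  empt : face ∅

/-- the realisation as a union of orthants -/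
def Cx.Z {V : Type} (Δ : Cx V) : Set (V → ℝ) :=
  {x | (∀ i, 0 ≤ x i) ∧ Δ.face {i | x i ≠ 0}}

/-- `ev` identifies `G` with the restrictions of `LP V` to `Δ.Z` -/
structure IsChart {G : Type} [AddCommGroup G] [Lattice G] {V : Type} (Δ : Cx V)
    (ev : G → (V → ℝ) → ℝ) : Prop where
  add : ∀ a b : G, ∀ z ∈ Δ.Z, ev (a + b) z = ev a z + ev b z
  sup : ∀ a b : G, ∀ z ∈ Δ.Z, ev (a ⊔ b) z = max (ev a z) (ev b z)
  inj : ∀ a : G, (∀ z ∈ Δ.Z, ev a z = 0) → a = 0
  mem : ∀ g : G, ∃ a ∈ LP V, ∀ z ∈ Δ.Z, ev g z = a z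
  sur : ∀ a ∈ LP V, ∃ g : G, ∀ z ∈ Δ.Z, ev g z = a z

/-- a group with a chart on a finite complex -/
structure Mdl (G : Type) [AddCommGroup G] [Lattice G] where
  V : Type
  fin : Fintype V
  Δ : Cx V
  ev : G → (V → ℝ) → ℝ
  chart : IsChart Δ ev

attribute [instance] Mdl.fin

/-- `g` is linear on the cones of the model, with integral coefficients `c` -/
def Mdl.Lin {G : Type} [AddCommGroup G] [Lattice G] (M : Mdl G) (g : G) (c : M.V → ℤ) : Prop :=
  ∀ z ∈ M.Δ.Z, M.ev g z = ∑ i, (c i : ℝ) * z i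

/-- elementary subdivision: the edge `{i, j}` gets a new vertex `none` -/
def Cx.sub {V : Type} (Δ : Cx V) (i j : V) (hij : i ≠ j) (h : Δ.face {i, j}) : Cx (Option V) where
  face s := ¬ (some i ∈ s ∧ some j ∈ s) ∧
    Δ.face ({v | some v ∈ s} ∪ {v | none ∈ s ∧ (v = i ∨ v = j)})
  down := by
    rintro s t hts ⟨h1, h2⟩
    refine ⟨fun h3 => h1 ⟨hts h3.1, hts h3.2⟩, Δ.down _ _ ?_ h2⟩
    rintro v (hv | hv)
    · exact Or.inl (hts hv)
    · exact Or.inr ⟨hts hv.1, hv.2⟩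
  vert := by
    rintro (_ | v)
    · refine ⟨by simp, Δ.down _ _ ?_ h⟩
      rintro w (hw | hw)
      · simp at hw
      · rcases hw.2 with hw | hw <;> simp [hw]
    · refine ⟨?_, Δ.down _ _ ?_ (Δ.vert v)⟩
      · rintro ⟨h1, h2⟩
        simp only [Set.mem_singleton_iff, Option.some.injEq] at h1 h2
        exact hij (h1.trans h2.symm)
      · rintro w (hw | hw)
        · simpa using hw
        · simp at hw
  empt := by
    refine ⟨by simp, Δ.down _ _ ?_ Δ.empt⟩
    rintro w (hw | hw)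
    · simp at hw
    · simp at hw

open Classical in
/-- the linear map from the subdivided realisation to the old one -/
noncomputable def Tmap {V : Type} (i j : V) (z : Option V → ℝ) : V → ℝ :=
  fun l => z (some l) + (if l = i ∨ l = j then z none else 0)

open Classical in
/-- its inverse -/
noncomputable def Rmap {V : Type} (i j : V) (z : V → ℝ) : Option V → ℝ :=
  fun l => match l with
    | none => min (z i) (z j)
    | some l => z l - (if l = i ∨ l = j then min (z i) (z j) else 0)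

section LPbasic

variable {ι κ : Type}

theorem LP_coord (i : ι) : (fun x : ι → ℝ => x i) ∈ LP ι := fun _ h1 _ _ => h1 i

theorem LP_zero : (fun _ : ι → ℝ => (0 : ℝ)) ∈ LP ι := fun _ _ h2 _ => h2

theorem LP_add {a b : (ι → ℝ) → ℝ} (ha : a ∈ LP ι) (hb : b ∈ LP ι) : (fun x => a x + b x) ∈ LP ι :=
  fun S h1 h2 h3 => (h3 a (ha S h1 h2 h3) b (hb S h1 h2 h3)).1

theorem LP_neg {a : (ι → ℝ) → ℝ} (ha : a ∈ LP ι) : (fun x => -a x) ∈ LP ι :=
  fun S h1 h2 h3 => (h3 a (ha S h1 h2 h3) a (ha S h1 h2 h3)).2.1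

theorem LP_sub {a b : (ι → ℝ) → ℝ} (ha : a ∈ LP ι) (hb : b ∈ LP ι) : (fun x => a x - b x) ∈ LP ι := by
  simpa only [sub_eq_add_neg] using LP_add ha (LP_neg hb)

theorem LP_max {a b : (ι → ℝ) → ℝ} (ha : a ∈ LP ι) (hb : b ∈ LP ι) :
    (fun x => max (a x) (b x)) ∈ LP ι :=
  fun S h1 h2 h3 => (h3 a (ha S h1 h2 h3) b (hb S h1 h2 h3)).2.2.1

theorem LP_min {a b : (ι → ℝ) → ℝ} (ha : a ∈ LP ι) (hb : b ∈ LP ι) :
    (fun x => min (a x) (b x)) ∈ LP ι :=
  fun S h1 h2 h3 => (h3 a (ha S h1 h2 h3) b (hb S h1 h2 h3)).2.2.2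

/-- induction principle -/
theorem LP_ind {P : ((ι → ℝ) → ℝ) → Prop} {a : (ι → ℝ) → ℝ} (ha : a ∈ LP ι)
    (h1 : ∀ i, P (fun x => x i)) (h2 : P (fun _ => 0))
    (h3 : ∀ a b, P a → P b → P (fun x => a x + b x))
    (h4 : ∀ a, P a → P (fun x => -a x))
    (h5 : ∀ a b, P a → P b → P (fun x => max (a x) (b x)))
    (h6 : ∀ a b, P a → P b → P (fun x => min (a x) (b x))) : P a :=
  ha {a | P a} h1 h2 (fun a ha b hb => ⟨h3 a b ha hb, h4 a ha, h5 a b ha hb, h6 a b ha hb⟩)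

theorem LP_comp {a : (ι → ℝ) → ℝ} (ha : a ∈ LP ι) (m : ι → (κ → ℝ) → ℝ) (hm : ∀ i, m i ∈ LP κ) :
    (fun x => a (fun i => m i x)) ∈ LP κ := by
  refine LP_ind (P := fun a => (fun x => a (fun i => m i x)) ∈ LP κ) ha ?_ ?_ ?_ ?_ ?_ ?_
  · intro i; exact hm i
  · exact LP_zero
  · intro a b h1 h2; exact LP_add h1 h2
  · intro a h1; exact LP_neg h1
  · intro a b h1 h2; exact LP_max h1 h2
  · intro a b h1 h2; exact LP_min h1 h2

theorem LP_sum {α : Type} (s : Finset α) (m : α → (κ → ℝ) → ℝ) (hm : ∀ i ∈ s, m i ∈ LP κ) :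
    (fun x => ∑ i ∈ s, m i x) ∈ LP κ := by
  classical
  induction s using Finset.induction_on with
  | empty => simpa using LP_zero
  | insert a s ha ih =>
    have h1 := ih (fun i hi => hm i (Finset.mem_insert_of_mem hi))
    have h2 := hm a (Finset.mem_insert_self _ _)
    simpa only [Finset.sum_insert ha] using LP_add h2 h1

theorem LP_nsmul (k : ℕ) {a : (ι → ℝ) → ℝ} (ha : a ∈ LP ι) : (fun x => (k : ℝ) * a x) ∈ LP ι := by
  induction k with
  | zero => simpa using LP_zero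
  | succ k ih =>
    have := LP_add ih ha
    simpa only [Nat.cast_succ, add_mul, one_mul] using this

theorem LP_zsmul (k : ℤ) {a : (ι → ℝ) → ℝ} (ha : a ∈ LP ι) : (fun x => (k : ℝ) * a x) ∈ LP ι := by
  obtain ⟨n, rfl | rfl⟩ := k.eq_nat_or_neg
  · exact_mod_cast LP_nsmul n ha
  · have := LP_neg (LP_nsmul n ha)
    simpa only [Int.cast_neg, Int.cast_natCast, neg_mul] using this

/-- integral linear forms -/
theorem LP_lin [Fintype ι] (c : ι → ℤ) : (fun x : ι → ℝ => ∑ i, (c i : ℝ) * x i) ∈ LP ι :=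
  LP_sum _ _ (fun i _ => LP_zsmul (c i) (LP_coord i))

theorem LP_hom {a : (ι → ℝ) → ℝ} (ha : a ∈ LP ι) (r : ℝ) (hr : 0 ≤ r) (x : ι → ℝ) :
    a (fun i => r * x i) = r * a x := by
  refine LP_ind (P := fun a => a (fun i => r * x i) = r * a x) ha ?_ ?_ ?_ ?_ ?_ ?_
  · intro i; rfl
  · simp
  · intro a b h1 h2; simp only [h1, h2]; ring
  · intro a h1; simp only [h1]; ring
  · intro a b h1 h2; simp only [h1, h2]; exact (mul_max_of_nonneg _ _ hr).symm
  · intro a b h1 h2; simp only [h1, h2]; exact (mul_min_of_nonneg _ _ hr).symm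

/-- integral points have integral values -/
theorem LP_int {a : (ι → ℝ) → ℝ} (ha : a ∈ LP ι) (x : ι → ℝ) (hx : ∀ i, ∃ k : ℤ, x i = k) :
    ∃ k : ℤ, a x = k := by
  refine LP_ind (P := fun a => ∃ k : ℤ, a x = k) ha ?_ ?_ ?_ ?_ ?_ ?_
  · intro i; exact hx i
  · exact ⟨0, by simp⟩
  · rintro a b ⟨k, hk⟩ ⟨l, hl⟩; exact ⟨k + l, by push_cast; rw [hk, hl]⟩
  · rintro a ⟨k, hk⟩; exact ⟨-k, by push_cast; rw [hk]⟩
  · rintro a b ⟨k, hk⟩ ⟨l, hl⟩; exact ⟨max k l, by push_cast; rw [hk, hl]⟩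
  · rintro a b ⟨k, hk⟩ ⟨l, hl⟩; exact ⟨min k l, by push_cast; rw [hk, hl]⟩

theorem LP_cont {a : (ι → ℝ) → ℝ} (ha : a ∈ LP ι) : Continuous a := by
  refine LP_ind (P := fun a => Continuous a) ha ?_ ?_ ?_ ?_ ?_ ?_
  · intro i; exact continuous_apply i
  · exact continuous_const
  · intro a b h1 h2; exact h1.add h2
  · intro a h1; exact h1.neg
  · intro a b h1 h2; exact h1.max h2
  · intro a b h1 h2; exact h1.min h2

end LPbasic

/-- charts can be transported along piecewise linear isomorphisms -/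
theorem IsChart.transport {G : Type} [AddCommGroup G] [Lattice G] {V V' : Type} {Δ : Cx V} {Δ' : Cx V'}
    {ev : G → (V → ℝ) → ℝ} (hc : IsChart Δ ev) (T : (V' → ℝ) → V → ℝ) (R : (V → ℝ) → V' → ℝ)
    (hT : ∀ v, (fun z => T z v) ∈ LP V') (hR : ∀ w, (fun z => R z w) ∈ LP V)
    (hTZ : ∀ z ∈ Δ'.Z, T z ∈ Δ.Z) (hRZ : ∀ z ∈ Δ.Z, R z ∈ Δ'.Z)
    (hRT : ∀ z ∈ Δ'.Z, R (T z) = z) (hTR : ∀ z ∈ Δ.Z, T (R z) = z) :
    IsChart Δ' (fun g z => ev g (T z)) where
  add a b z hz := hc.add a b _ (hTZ z hz)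
  sup a b z hz := hc.sup a b _ (hTZ z hz)
  inj a ha := by
    refine hc.inj a (fun z hz => ?_)
    have := ha (R z) (hRZ z hz)
    simpa only [hTR z hz] using this
  mem g := by
    obtain ⟨a, ha, h⟩ := hc.mem g
    exact ⟨_, LP_comp ha (fun v z => T z v) hT, fun z hz => h _ (hTZ z hz)⟩
  sur a ha := by
    obtain ⟨g, hg⟩ := hc.sur _ (LP_comp ha (fun w z => R z w) hR)
    refine ⟨g, fun z hz => ?_⟩
    have h1 := hg (T z) (hTZ z hz)
    have h2 : (fun w => R (T z) w) = z := hRT z hz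
    rw [h1, h2]

section Subd

variable {V : Type} (i j : V)

theorem Tmap_LP (v : V) : (fun z => Tmap i j z v) ∈ LP (Option V) := by
  unfold Tmap
  split_ifs
  · exact LP_add (LP_coord _) (LP_coord _)
  · exact LP_add (LP_coord _) LP_zero

theorem Rmap_LP (w : Option V) : (fun z => Rmap i j z w) ∈ LP V := by
  rcases w with _ | w
  · exact LP_min (LP_coord _) (LP_coord _)
  · unfold Rmap
    dsimp only
    split_ifs
    · exact LP_sub (LP_coord _) (LP_min (LP_coord _) (LP_coord _))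
    · exact LP_sub (LP_coord _) LP_zero

theorem Tmap_Z (Δ : Cx V) (hij : i ≠ j) (h : Δ.face {i, j}) (z : Option V → ℝ)
    (hz : z ∈ (Δ.sub i j hij h).Z) : Tmap i j z ∈ Δ.Z := by
  obtain ⟨h1, h2, h3⟩ := hz
  refine ⟨fun l => ?_, Δ.down _ _ ?_ h3⟩
  · unfold Tmap
    split_ifs
    · exact add_nonneg (h1 _) (h1 _)
    · simpa using h1 _
  · intro l hl
    by_contra hc
    simp only [Set.mem_union, Set.mem_ofPred_eq, ne_eq, not_or, not_and, not_not] at hc
    apply hl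
    unfold Tmap
    split_ifs with h5
    · have : z none = 0 := by
        by_contra h6
        have := hc.2 h6
        tauto
      rw [hc.1, this, add_zero]
    · rw [hc.1, add_zero]

theorem Rmap_Z (Δ : Cx V) (hij : i ≠ j) (h : Δ.face {i, j}) (z : V → ℝ)
    (hz : z ∈ Δ.Z) : Rmap i j z ∈ (Δ.sub i j hij h).Z := by
  obtain ⟨h1, h2⟩ := hz
  have key : ∀ l, (l = i ∨ l = j) → min (z i) (z j) ≤ z l := by
    rintro l (rfl | rfl)
    · exact min_le_left _ _
    · exact min_le_right _ _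
  have h0 : 0 ≤ min (z i) (z j) := le_min (h1 i) (h1 j)
  refine ⟨?_, ?_, Δ.down _ _ ?_ h2⟩
  · rintro (_ | l)
    · exact h0
    · unfold Rmap
      dsimp only
      split_ifs with h5
      · exact sub_nonneg.2 (key l h5)
      · simpa using h1 l
  · rintro ⟨h5, h6⟩
    simp only [Rmap, Set.mem_ofPred_eq, true_or, or_true, if_true] at h5 h6
    rcases le_total (z i) (z j) with h7 | h7
    · rw [min_eq_left h7] at h5; exact h5 (sub_self _)
    · rw [min_eq_right h7] at h6; exact h6 (sub_self _)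
  · rintro l (hl | ⟨hl1, hl2⟩)
    · simp only [Rmap, Set.mem_ofPred_eq] at hl
      intro h7
      apply hl
      rw [h7]
      split_ifs with h5
      · have := key l h5
        rw [h7] at this
        rw [le_antisymm this h0, sub_zero]
      · simp
    · simp only [Rmap, Set.mem_ofPred_eq] at hl1
      intro h7
      apply hl1
      have := key l hl2
      rw [h7] at this
      exact le_antisymm this h0

theorem Rmap_Tmap (Δ : Cx V) (hij : i ≠ j) (h : Δ.face {i, j}) (z : Option V → ℝ)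
    (hz : z ∈ (Δ.sub i j hij h).Z) : Rmap i j (Tmap i j z) = z := by
  obtain ⟨h1, h2, h3⟩ := hz
  have hm : min (Tmap i j z i) (Tmap i j z j) = z none := by
    simp only [Tmap, true_or, or_true, if_true]
    rw [min_add_add_right]
    have : min (z (some i)) (z (some j)) = 0 := by
      by_cases h4 : z (some i) = 0
      · rw [h4]; exact min_eq_left (h1 _)
      · have h5 : z (some j) = 0 := by
          by_contra h5
          exact h2 ⟨h4, h5⟩
        rw [h5]; exact min_eq_right (h1 _)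
    rw [this, zero_add]
  funext l
  rcases l with _ | l
  · exact hm
  · simp only [Rmap]
    rw [hm]
    simp only [Tmap]
    split_ifs <;> simp

theorem Tmap_Rmap (z : V → ℝ) : Tmap i j (Rmap i j z) = z := by
  funext l
  simp only [Tmap, Rmap]
  split_ifs <;> simp

end Subd

/-- the subdivided model -/
@[reducible] noncomputable def Mdl.subd {G : Type} [AddCommGroup G] [Lattice G] (M : Mdl G) (i j : M.V)
    (hij : i ≠ j) (h : M.Δ.face {i, j}) : Mdl G where
  V := Option M.V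
  fin := inferInstance
  Δ := M.Δ.sub i j hij h
  ev := fun g z => M.ev g (Tmap i j z)
  chart := M.chart.transport (Tmap i j) (Rmap i j) (Tmap_LP i j) (Rmap_LP i j)
    (Tmap_Z i j M.Δ hij h) (Rmap_Z i j M.Δ hij h) (Rmap_Tmap i j M.Δ hij h)
    (fun z _ => Tmap_Rmap i j z)

/-- `N` is an elementary subdivision of `M` -/
def Step {G : Type} [AddCommGroup G] [Lattice G] (M N : Mdl G) : Prop :=
  ∃ (i j : M.V) (hij : i ≠ j) (h : M.Δ.face {i, j}), N = M.subd i j hij h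

/-- iterated elementary subdivisions -/
def Ref {G : Type} [AddCommGroup G] [Lattice G] (M N : Mdl G) : Prop :=
  Relation.ReflTransGen Step M N

/-- the one-dimensional complex of a graph -/
def Cx.ofGraph {V : Type} (Γ : SimpleGraph V) : Cx V where
  face s := s = ∅ ∨ ∃ u v, (u = v ∨ Γ.Adj u v) ∧ s ⊆ {u, v}
  down := by
    rintro s t hts (h | ⟨u, v, h, hs⟩)
    · left; exact Set.subset_eq_empty hts h
    · right; exact ⟨u, v, h, hts.trans hs⟩
  vert v := Or.inr ⟨v, v, Or.inl rfl, by simp⟩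
  empt := Or.inl rfl

/-- the graph of a complex -/
def Cx.gr {V : Type} (Δ : Cx V) : SimpleGraph V where
  Adj u v := u ≠ v ∧ Δ.face {u, v}
  symm := ⟨fun u v h => ⟨h.1.symm, by rw [Set.pair_comm]; exact h.2⟩⟩
  loopless := ⟨fun u h => h.1 rfl⟩

/-- no faces with three vertices -/
def Cx.Thin {V : Type} (Δ : Cx V) : Prop :=
  ∀ i j k : V, i ≠ j → j ≠ k → i ≠ k → ¬ Δ.face {i, j, k}

/-- the free abelian l-group, as a group of functions -/
def FL (n : ℕ) : AddSubgroup ((Fin n → ℝ) → ℝ) where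
  carrier := LP (Fin n)
  add_mem' := by
    intro a b ha hb S h1 h2 h3
    exact (h3 a (ha S h1 h2 h3) b (hb S h1 h2 h3)).1
  zero_mem' := by
    intro S h1 h2 h3
    exact h2
  neg_mem' := by
    intro a ha S h1 h2 h3
    exact (h3 a (ha S h1 h2 h3) a (ha S h1 h2 h3)).2.1

theorem FL_sup {n : ℕ} {a b : (Fin n → ℝ) → ℝ} (ha : a ∈ FL n) (hb : b ∈ FL n) : a ⊔ b ∈ FL n := by
  intro S h1 h2 h3
  exact (h3 a (ha S h1 h2 h3) b (hb S h1 h2 h3)).2.2.1

theorem FL_inf {n : ℕ} {a b : (Fin n → ℝ) → ℝ} (ha : a ∈ FL n) (hb : b ∈ FL n) : a ⊓ b ∈ FL n := by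
  intro S h1 h2 h3
  exact (h3 a (ha S h1 h2 h3) b (hb S h1 h2 h3)).2.2.2

instance FLlattice (n : ℕ) : Lattice (FL n) where
  sup a b := ⟨a.1 ⊔ b.1, FL_sup a.2 b.2⟩
  inf a b := ⟨a.1 ⊓ b.1, FL_inf a.2 b.2⟩
  le_sup_left a b := show a.1 ≤ a.1 ⊔ b.1 from le_sup_left
  le_sup_right a b := show b.1 ≤ a.1 ⊔ b.1 from le_sup_right
  sup_le a b c h1 h2 := show a.1 ⊔ b.1 ≤ c.1 from sup_le h1 h2
  inf_le_left a b := show a.1 ⊓ b.1 ≤ a.1 from inf_le_left
  inf_le_right a b := show a.1 ⊓ b.1 ≤ b.1 from inf_le_right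
  le_inf a b c h1 h2 := show a.1 ≤ b.1 ⊓ c.1 from le_inf h1 h2

instance FLord (n : ℕ) : IsOrderedAddMonoid (FL n) where
  add_le_add_left a b h c := by
    intro x
    have := h x
    show a.1 x + c.1 x ≤ b.1 x + c.1 x
    linarith

/-- `ψ` presents `G` as the free abelian l-group modulo the l-ideal generated by `f`
(literally the condition of the frozen statement) -/
def Pres (n : ℕ) (f : (Fin n → ℝ) → ℝ) (G : Type) [AddCommGroup G] [Lattice G]
    (ψ : ((Fin n → ℝ) → ℝ) → G) : Prop :=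
  (∀ a ∈ LP (Fin n), ∀ b ∈ LP (Fin n), ψ (a + b) = ψ a + ψ b ∧ ψ (a ⊔ b) = ψ a ⊔ ψ b) ∧
  (∀ y : G, ∃ a ∈ LP (Fin n), ψ a = y) ∧
  (∀ a ∈ LP (Fin n), ψ a = 0 ↔ ∃ k : ℕ, |a| ≤ k • |f|)

section Sentence

variable {G : Type} [AddCommGroup G] [Lattice G]

/-- the support of `a` is contained in the support of `t` -/
def Inc (a t : G) : Prop := ∀ x : G, 0 ≤ x → x ≤ a → ∃ y : G, x ≤ y + y ∧ y + y ≤ x + t

/-- `u` has no zeros -/
def NZ (u : G) : Prop := ∀ x : G, 0 ≤ x → ∃ y : G, x ≤ y + y ∧ y + y ≤ x + u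

/-- the zero set of `t` is one ray -/
def Single (t : G) : Prop :=
  ¬ NZ t ∧ ∀ a b : G, 0 ≤ a → 0 ≤ b → a ⊓ b = 0 → Inc a t ∨ Inc b t

/-- the ray where `t` vanishes is in the closure of the support of `a` -/
def Cl (a t : G) : Prop := ∀ y : G, 0 ≤ y → y ⊓ a = 0 → Inc y t

/-- the sum of all `s u` with `u` different from `v` -/
def oth {V : Type} [Fintype V] (s : V → G) (v : V) : G := (∑ u, s u) - s v

/-- the elements `s v` describe a triangulation of type `Γ` -/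
structure Sig {V : Type} [Fintype V] (Γ : SimpleGraph V) (s : V → G) : Prop where
  pos : ∀ v, 0 ≤ s v
  two : ∀ u v, u ≠ v → ¬ Γ.Adj u v → s u ⊓ s v = 0
  three : ∀ u v w, u ≠ v → v ≠ w → u ≠ w → s u ⊓ s v ⊓ s w = 0
  nz : NZ (∑ v, s v)
  single : ∀ v, Single (oth s v)
  ne : ∀ u v, Γ.Adj u v → s u ⊓ s v ≠ 0
  conn : ∀ u v, Γ.Adj u v → ∀ x y : G, x ⊓ y = 0 → x + y = s u ⊓ s v → x = 0 ∨ y = 0
  cl : ∀ u v, Γ.Adj u v → Cl (s u ⊓ s v) (oth s v)
  val : ∀ u v, Γ.Adj u v → ∀ t : G, 0 ≤ t → Single t → ¬ Inc (s u ⊓ s v) t →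
    ¬ ∃ a b c : G, (0 ≤ a ∧ 0 ≤ b ∧ 0 ≤ c) ∧ (a ⊓ b = 0 ∧ a ⊓ c = 0 ∧ b ⊓ c = 0) ∧
      Cl a t ∧ Cl b t ∧ Cl c t

end Sentence

/-- combinatorial form of `Sig`: the graph `A` is a subdivision of `Γ`, `S i` is the set of end points
of the edge of `Γ` containing `i` (a singleton for the old vertices) -/
structure GoodG {V W : Type} (Γ : SimpleGraph V) (A : SimpleGraph W) (S : W → Set V) : Prop where
  one : ∀ v, ∃! i, S i = {v}
  lab : ∀ i, (∃ v, S i = {v}) ∨ ∃ u v, Γ.Adj u v ∧ S i = {u, v}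
  edge : ∀ i j, A.Adj i j → ∃ u v, Γ.Adj u v ∧ S i ⊆ {u, v} ∧ S j ⊆ {u, v}
  deg : ∀ i u v, Γ.Adj u v → S i = {u, v} → ∀ j k l, A.Adj i j → A.Adj i k → A.Adj i l →
    j = k ∨ j = l ∨ k = l
  conn : ∀ u v, Γ.Adj u v → ∀ B : Set W, B.Nonempty → (∀ i ∈ B, S i = {u, v}) →
    (∀ i ∈ B, ∀ j, S j = {u, v} → A.Adj i j → j ∈ B) →
    (∀ i, S i = {u, v} → i ∈ B) ∧ (∀ i j, S i = {u} → S j = {v} → ¬ A.Adj i j)
  att : ∀ u v, Γ.Adj u v → ∃ i j, S i = {v} ∧ A.Adj i j ∧ S j ⊆ {u, v}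

/-- the language of the frozen statement -/
abbrev L2 : FirstOrder.Language.{0, 0} := ⟨fun n => PLift (n = 2), fun n => PLift (n = 2)⟩

/-- the structure of the frozen statement -/
@[reducible] def str (G : Type) [AddCommGroup G] [Lattice G] : L2.Structure G :=
  FirstOrder.Language.Structure.mk (fun _ x => ∑ i, x i) (fun _ x => Monotone x)

end Pool.Agent.MP552024
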