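import Pool.Agent.Work.MP_552024_lc.Stmts

/-!
A removable vertex, MP_552024_lc.
-/

set_option autoImplicit false

namespace Pool.Agent.MP552024

theorem prfG1_pair {V : Type} {a b c d : V} (hcd : a ≠ b) (h : ({a, b} : Set V) ⊆ {c, d}) :
    ({a, b} : Set V) = {c, d} := by
  have h1 : a ∈ ({c, d} : Set V) := h (by simp)
  have h2 : b ∈ ({c, d} : Set V) := h (by simp)
  rcases h1 with h1 | h1 <;> rcases h2 with h2 | h2
  · exact absurd (h1.trans h2.symm) hcd
  · have h2' : b = d := h2
    rw [h1, h2']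
  · have h1' : a = d := h1
    rw [h1', h2, Set.pair_comm]
  · exact absurd (Eq.trans h1 (Eq.symm h2)) hcd

/-- classification of the labels inside `{u, v}` -/
theorem prfG1_cls {V W : Type} {Γ : SimpleGraph V} {A : SimpleGraph W} {S : W → Set V}
    (hG : GoodG Γ A S) {u v : V} (i : W) (h : S i ⊆ {u, v}) :
    S i = {u} ∨ S i = {v} ∨ S i = {u, v} := by
  rcases hG.lab i with ⟨w, hw⟩ | ⟨a, b, hab, hw⟩
  · rw [hw] at h ⊢
    have h1 : w ∈ ({u, v} : Set V) := h rfl
    rcases h1 with h1 | h1
    · left; rw [h1]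
    · right; left
      have h2 : w = v := h1
      rw [h2]
  · right; right
    rw [hw] at h ⊢
    exact prfG1_pair hab.ne h

theorem prfG1 : S_G1 := by
  classical
  intro V W Γ A S hG
  by_cases hall : ∀ i, ∃ v, S i = {v}
  · exact Or.inl hall
  right
  push Not at hall
  obtain ⟨i0, hi0⟩ := hall
  rcases hG.lab i0 with ⟨w, hw⟩ | ⟨u, v, huv, hi0'⟩
  · exact absurd hw (hi0 w)
  have hne : u ≠ v := huv.ne
  have hsing : ∀ w, ({w} : Set V) ≠ {u, v} := by
    intro w hw
    have h1 : u ∈ ({w} : Set V) := by rw [hw]; simp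
    have h2 : v ∈ ({w} : Set V) := by rw [hw]; simp
    exact hne (Eq.trans h1 (Eq.symm h2))
  have huniq : ∀ (w : V) (i j : W), S i = {w} → S j = {w} → i = j := by
    intro w i j hi hj
    obtain ⟨k, _, hk⟩ := hG.one w
    exact (hk i hi).trans (hk j hj).symm
  -- no edge between labels {u} and {v}
  have hstar : ∀ i j, S i = {u} → S j = {v} → ¬ A.Adj i j :=
    (hG.conn u v huv {i | S i = {u, v}} ⟨i0, hi0'⟩ (fun i hi => hi) (fun i _ j hj _ => hj)).2
  obtain ⟨p, i, hSp, hpi, hSi⟩ := hG.att u v huv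
  have hSi' : S i = {u, v} := by
    rcases prfG1_cls hG i hSi with h | h | h
    · exact absurd hpi.symm (hstar i p h hSp)
    · exact absurd (huniq v p i hSp h) hpi.ne
    · exact h
  obtain ⟨p', j', hSp', hpj', hSj'⟩ := hG.att v u huv.symm
  have hSj'' : S j' = {u, v} := by
    rw [Set.pair_comm] at hSj'
    rcases prfG1_cls hG j' hSj' with h | h | h
    · exact absurd (huniq u p' j' hSp' h) hpj'.ne
    · exact absurd hpj' (hstar p' j' hSp' h)
    · exact h
  have hpp' : p' ≠ p := by
    intro h
    rw [h, hSp] at hSp'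
    exact hne (Set.singleton_injective hSp').symm
  -- a second neighbour
  have hk : ∃ k, A.Adj i k ∧ k ≠ p := by
    by_contra hc
    push Not at hc
    have h1 := (hG.conn u v huv {i} ⟨i, rfl⟩ (fun j hj => by rw [hj]; exact hSi') (by
      intro a ha j hj haj
      rw [ha] at haj
      have := hc j haj
      rw [this, hSp] at hj
      exact absurd hj (hsing v))).1
    have h2 : j' = i := h1 j' hSj''
    rw [h2] at hpj'
    exact hpp' (hc p' hpj'.symm)
  obtain ⟨k, hik, hkp⟩ := hk
  have hSk : S k ⊆ {u, v} := by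
    obtain ⟨a, b, hab, h1, h2⟩ := hG.edge i k hik
    rw [hSi'] at h1
    rw [prfG1_pair hne h1]
    exact h2
  have hnb : ∀ (x : W), S x = {u, v} → ∀ a b, A.Adj x a → A.Adj x b → a ≠ b →
      ∀ j, A.Adj x j → j = a ∨ j = b := by
    intro x hx a b ha hb hab j hj
    rcases hG.deg x u v huv hx j a b hj ha hb with h | h | h
    · exact Or.inl h
    · exact Or.inr h
    · exact absurd h hab
  have hnbi : ∀ j, A.Adj i j → j = p ∨ j = k := hnb i hSi' p k hpi.symm hik hkp.symm
  refine ⟨i, p, k, u, v, huv, hSi', hSp, hSk, hpi.symm, hik, hkp.symm, ?_, hnbi⟩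
  intro hpk
  have hSk' : S k = {u, v} := by
    rcases prfG1_cls hG k hSk with h | h | h
    · exact absurd hpk.symm (hstar k p h hSp)
    · exact absurd (huniq v k p h hSp) hkp
    · exact h
  have hnbk : ∀ j, A.Adj k j → j = i ∨ j = p := hnb k hSk' i p hik.symm hpk.symm hpi.ne'
  have hB := (hG.conn u v huv {i, k} ⟨i, by simp⟩ (by
    rintro a (ha | ha)
    · rw [ha]; exact hSi'
    · have : a = k := ha
      rw [this]; exact hSk') (by
    rintro a (ha | ha) j hj haj
    · rw [ha] at haj
      rcases hnbi j haj with h | h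
      · rw [h, hSp] at hj
        exact absurd hj (hsing v)
      · right; exact h
    · have ha' : a = k := ha
      rw [ha'] at haj
      rcases hnbk j haj with h | h
      · left; exact h
      · rw [h, hSp] at hj
        exact absurd hj (hsing v))).1
  have hp'i : p' ≠ i := by
    intro h
    rw [h, hSi'] at hSp'
    exact hsing u hSp'.symm
  have hp'k : p' ≠ k := by
    intro h
    rw [h, hSk'] at hSp'
    exact hsing u hSp'.symm
  rcases hB j' hSj'' with h | h
  · rw [h] at hpj'
    rcases hnbi p' hpj'.symm with h1 | h1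
    · exact hpp' h1
    · exact hp'k h1
  · have h' : j' = k := h
    rw [h'] at hpj'
    rcases hnbk p' hpj'.symm with h1 | h1
    · exact hp'i h1
    · exact hpp' h1

end Pool.Agent.MP552024
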