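import Pool.Agent.Work.MP_552024_lc.G1

/-!
GoodG is preserved when a vertex is removed, MP_552024_lc.
-/

set_option autoImplicit false

namespace Pool.Agent.MP552024

theorem prfG2 : S_G2 := by
  classical
  intro V W Γ A S i p k u v hG hR
  have hne : u ≠ v := hR.adj.ne
  have hsing : ∀ (w a b : V), a ≠ b → ({w} : Set V) ≠ {a, b} := by
    intro w a b hab hw
    have h1 : a ∈ ({w} : Set V) := by rw [hw]; simp
    have h2 : b ∈ ({w} : Set V) := by rw [hw]; simp
    exact hab (Eq.trans h1 (Eq.symm h2))
  have hpi : p ≠ i := hR.ip.ne'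
  have hki : k ≠ i := hR.ik.ne'
  have hiS : ∀ w, S i ≠ {w} := fun w h => hsing w u v hne (h.symm.trans hR.Si)
  have hsub : ∀ a b : V, Γ.Adj a b → S i = {a, b} → ({u, v} : Set V) = {a, b} := fun a b _ h =>
    hR.Si.symm.trans h
  refine ⟨?_, ?_, ?_, ?_, ?_, ?_⟩
  · -- one
    intro w
    obtain ⟨j, hj, hu⟩ := hG.one w
    have hj' : S j = {w} := hj
    have hji : j ≠ i := by
      intro h
      rw [h] at hj'
      exact hiS w hj'
    exact ⟨⟨j, hji⟩, hj', fun y hy => Subtype.ext (hu y.1 hy)⟩
  · intro w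
    exact hG.lab w.1
  · rintro a b ⟨_, h | ⟨h1, h2⟩ | ⟨h1, h2⟩⟩
    · exact hG.edge _ _ h
    · refine ⟨u, v, hR.adj, ?_, ?_⟩
      · rw [h1, hR.Sp]; simp
      · rw [h2]; exact hR.Sk
    · refine ⟨u, v, hR.adj, ?_, ?_⟩
      · rw [h1]; exact hR.Sk
      · rw [h2, hR.Sp]; simp
  · -- deg
    intro w a b hab hw x y z hx hy hz
    have hw' : S w.1 = {a, b} := hw
    have hwp : w.1 ≠ p := by
      intro h
      rw [h, hR.Sp] at hw'
      exact hsing v a b hab.ne hw'
    -- replacement map
    have hrep : ∀ x : {w : W // w ≠ i}, (delG A i p k).Adj w x →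
        (A.Adj w.1 x.1 ∨ (w.1 = k ∧ x.1 = p)) := by
      rintro x ⟨_, h | ⟨h1, h2⟩ | ⟨h1, h2⟩⟩
      · exact Or.inl h
      · exact absurd h1 hwp
      · exact Or.inr ⟨h1, h2⟩
    set r : {w : W // w ≠ i} → W := fun x => if w.1 = k ∧ x.1 = p then i else x.1 with hr
    have hr1 : ∀ x, (delG A i p k).Adj w x → A.Adj w.1 (r x) := by
      intro x hx
      simp only [hr]
      split_ifs with hc
      · rw [hc.1]; exact hR.ik.symm
      · rcases hrep x hx with h | h
        · exact h
        · exact absurd h hc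
    have hr2 : ∀ x y, r x = r y → x = y := by
      intro x y hxy
      simp only [hr] at hxy
      split_ifs at hxy with h1 h2 h3
      · exact Subtype.ext (h1.2.trans h2.2.symm)
      · exact absurd hxy.symm y.2
      · exact absurd hxy x.2
      · exact Subtype.ext hxy
    rcases hG.deg w.1 a b hab hw' _ _ _ (hr1 x hx) (hr1 y hy) (hr1 z hz) with h | h | h
    · exact Or.inl (hr2 _ _ h)
    · exact Or.inr (Or.inl (hr2 _ _ h))
    · exact Or.inr (Or.inr (hr2 _ _ h))
  · -- conn
    intro a b hab B' hB'ne hB'lab hB'cl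
    set B : Set W := {w | (∃ h : w ≠ i, (⟨w, h⟩ : {w : W // w ≠ i}) ∈ B') ∨
      (w = i ∧ ∃ h : k ≠ i, (⟨k, h⟩ : {w : W // w ≠ i}) ∈ B')} with hB
    have hkB : ∀ h : k ≠ i, (⟨k, h⟩ : {w : W // w ≠ i}) ∈ B' → ({a, b} : Set V) = {u, v} := by
      intro h hk
      have h1 : S k = {a, b} := hB'lab _ hk
      have h2 := hR.Sk
      rw [h1] at h2
      exact prfG1_pair hab.ne h2
    have hBne : B.Nonempty := by
      obtain ⟨w, hw⟩ := hB'ne
      exact ⟨w.1, Or.inl ⟨w.2, hw⟩⟩
    have hBlab : ∀ w ∈ B, S w = {a, b} := by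
      rintro w (⟨h, hw⟩ | ⟨h, h', hw⟩)
      · exact hB'lab _ hw
      · rw [h, hR.Si, hkB h' hw]
    have hBcl : ∀ w ∈ B, ∀ j, S j = {a, b} → A.Adj w j → j ∈ B := by
      rintro w (⟨h, hw⟩ | ⟨h, h', hw⟩) j hj hwj
      · by_cases hji : j = i
        · rw [hji] at hwj
          rcases hR.nb w hwj.symm with h1 | h1
          · have h2 : S w = {a, b} := hB'lab _ hw
            rw [h1, hR.Sp] at h2
            exact absurd h2 (hsing v a b hab.ne)
          · right
            refine ⟨hji, hki, ?_⟩
            have h3 : (⟨k, hki⟩ : {w : W // w ≠ i}) = ⟨w, h⟩ := Subtype.ext h1.symm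
            rw [h3]
            exact hw
        · left
          refine ⟨hji, hB'cl _ hw ⟨j, hji⟩ hj ⟨?_, Or.inl hwj⟩⟩
          intro h3
          exact hwj.ne (congrArg Subtype.val h3)
      · rw [h] at hwj
        rcases hR.nb j hwj with h1 | h1
        · rw [h1, hR.Sp] at hj
          exact absurd hj (hsing v a b hab.ne)
        · left
          have h2 : j ≠ i := by rw [h1]; exact hki
          refine ⟨h2, ?_⟩
          have h3 : (⟨j, h2⟩ : {w : W // w ≠ i}) = ⟨k, h'⟩ := Subtype.ext h1
          rw [h3]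
          exact hw
    obtain ⟨hc1, hc2⟩ := hG.conn a b hab B hBne hBlab hBcl
    refine ⟨?_, ?_⟩
    · intro w hw
      rcases hc1 w.1 hw with ⟨_, h⟩ | ⟨h, _⟩
      · exact h
      · exact absurd h w.2
    · -- an edge between {a} and {b} in the new graph
      have hnew : ∀ x y : W, S x = {a} → S y = {b} → ¬ ((x = p ∧ y = k) ∨ (x = k ∧ y = p)) := by
        intro x y hx hy hxy
        have huv : ({a, b} : Set V) = {u, v} ∧ S p ≠ {u, v} ∧ S k ≠ {u, v} := by
          rcases hxy with ⟨h1, h2⟩ | ⟨h1, h2⟩
          · rw [h1] at hx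
            rw [h2] at hy
            have h3 : a = v := Set.singleton_injective (hx.symm.trans hR.Sp)
            have h4 := hR.Sk
            rw [hy] at h4
            have h5 : b ∈ ({u, v} : Set V) := h4 rfl
            have h6 : b = u := by
              rcases h5 with h5 | h5
              · exact h5
              · have h5' : b = v := h5
                exact absurd (h3.trans h5'.symm) hab.ne
            refine ⟨by rw [h3, h6, Set.pair_comm], ?_, ?_⟩
            · rw [hx]; exact hsing a u v hne
            · rw [hy]; exact hsing b u v hne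
          · rw [h1] at hx
            rw [h2] at hy
            have h3 : b = v := Set.singleton_injective (hy.symm.trans hR.Sp)
            have h4 := hR.Sk
            rw [hx] at h4
            have h5 : a ∈ ({u, v} : Set V) := h4 rfl
            have h6 : a = u := by
              rcases h5 with h5 | h5
              · exact h5
              · have h5' : a = v := h5
                exact absurd (h5'.trans h3.symm) hab.ne
            refine ⟨by rw [h3, h6], ?_, ?_⟩
            · rw [hy]; exact hsing b u v hne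
            · rw [hx]; exact hsing a u v hne
        obtain ⟨h1, h2, h3⟩ := huv
        have h4 := (hG.conn u v hR.adj {i} ⟨i, rfl⟩ (fun j hj => by rw [hj]; exact hR.Si) (by
          intro c hc j hj hcj
          rw [hc] at hcj
          rcases hR.nb j hcj with h | h
          · rw [h] at hj; exact absurd hj h2
          · rw [h] at hj; exact absurd hj h3)).1
        obtain ⟨w, hw⟩ := hB'ne
        have h5 : S w.1 = {a, b} := hB'lab w hw
        rw [h1] at h5
        exact w.2 (h4 w.1 h5)
      rintro x y hx hy ⟨_, h | h⟩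
      · exact hc2 x.1 y.1 hx hy h
      · exact hnew x.1 y.1 hx hy h
  · -- att
    intro a b hab
    obtain ⟨x, y, h1, h2, h3⟩ := hG.att a b hab
    have hxi : x ≠ i := by
      intro h
      rw [h] at h1
      exact hiS b h1
    by_cases hyi : y = i
    · rw [hyi] at h2 h3
      rw [hR.Si] at h3
      have h4 := prfG1_pair hne h3
      rcases hR.nb x h2.symm with h5 | h5
      · refine ⟨⟨x, hxi⟩, ⟨k, hki⟩, h1, ⟨?_, Or.inr (Or.inl ⟨h5, rfl⟩)⟩, ?_⟩
        · intro h
          have h6 : x = k := congrArg Subtype.val h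
          exact hR.pk (h5.symm.trans h6)
        · show S k ⊆ {a, b}
          rw [← h4]
          exact hR.Sk
      · refine ⟨⟨x, hxi⟩, ⟨p, hpi⟩, h1, ⟨?_, Or.inr (Or.inr ⟨h5, rfl⟩)⟩, ?_⟩
        · intro h
          have h6 : x = p := congrArg Subtype.val h
          exact hR.pk (h6.symm.trans h5)
        · show S p ⊆ {a, b}
          rw [← h4, hR.Sp]
          simp
    · refine ⟨⟨x, hxi⟩, ⟨y, hyi⟩, h1, ⟨?_, Or.inl h2⟩, h3⟩
      intro h
      exact h2.ne (congrArg Subtype.val h)

end Pool.Agent.MP552024
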