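import Pool.Agent.Work.MP_552024_lc.Stmts

/-!
First-order transfer of Sig, MP_552024_lc.
-/

set_option autoImplicit false

namespace Pool.Agent.MP552024

open FirstOrder FirstOrder.Language

/-- bundled ordered abelian lattice groups -/
structure OG where
  K : Type
  [g : AddCommGroup K]
  [l : Lattice K]
  [o : IsOrderedAddMonoid K]

attribute [instance] OG.g OG.l OG.o

@[reducible] noncomputable instance OG.str (K : OG) : L2.Structure K.K := MP552024.str K.K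

/-- uniformly definable predicates -/
def Dfn {α : Type} (P : ∀ K : OG, (α → K.K) → Prop) : Prop :=
  ∃ φ : L2.Formula α, ∀ (K : OG) (v : α → K.K), φ.Realize v ↔ P K v

/-- uniformly definable operations -/
def DT {α : Type} (τ : ∀ K : OG, (α → K.K) → K.K) : Prop :=
  Dfn (fun K (v : α ⊕ Unit → K.K) => v (Sum.inr ()) = τ K (fun a => v (Sum.inl a)))

section Closure

variable {α β : Type}

theorem Dfn.congr {P Q : ∀ K : OG, (α → K.K) → Prop} (h : Dfn P) (hPQ : ∀ K v, P K v ↔ Q K v) :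
    Dfn Q := by
  obtain ⟨φ, hφ⟩ := h
  exact ⟨φ, fun K v => (hφ K v).trans (hPQ K v)⟩

theorem Dfn.comap {P : ∀ K : OG, (α → K.K) → Prop} (h : Dfn P) (f : α → β) :
    Dfn (fun K (v : β → K.K) => P K (fun a => v (f a))) := by
  obtain ⟨φ, hφ⟩ := h
  refine ⟨φ.relabel f, fun K v => ?_⟩
  rw [Formula.realize_relabel]
  exact hφ K _

theorem Dfn.le_var (a b : α) : Dfn (fun K (v : α → K.K) => v a ≤ v b) := by
  refine ⟨Relations.formula (L := L2) (n := 2) (PLift.up rfl) ![Term.var a, Term.var b], fun K v => ?_⟩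
  rw [Formula.realize_rel]
  show Monotone (fun i => (![Term.var a, Term.var b] i : L2.Term α).realize v) ↔ _
  constructor
  · intro h
    have := h (show (0 : Fin 2) ≤ 1 by decide)
    simpa using this
  · intro h i j hij
    fin_cases i <;> fin_cases j
    · exact le_rfl
    · simpa using h
    · exact absurd hij (by decide)
    · exact le_rfl

theorem Dfn.add_var (a b c : α) : Dfn (fun K (v : α → K.K) => v c = v a + v b) := by
  refine ⟨(Term.var c : L2.Term α).equal (Term.func (l := 2) (PLift.up rfl) ![Term.var a, Term.var b]),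
    fun K v => ?_⟩
  rw [Formula.realize_equal]
  show v c = (∑ i : Fin 2, (![Term.var a, Term.var b] i : L2.Term α).realize v) ↔ _
  rw [Fin.sum_univ_two]
  rfl

theorem Dfn.not {P : ∀ K : OG, (α → K.K) → Prop} (h : Dfn P) : Dfn (fun K v => ¬ P K v) := by
  obtain ⟨φ, hφ⟩ := h
  exact ⟨φ.not, fun K v => by rw [Formula.realize_not, hφ]⟩

theorem Dfn.and {P Q : ∀ K : OG, (α → K.K) → Prop} (h : Dfn P) (h' : Dfn Q) :
    Dfn (fun K v => P K v ∧ Q K v) := by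
  obtain ⟨φ, hφ⟩ := h
  obtain ⟨ψ, hψ⟩ := h'
  exact ⟨φ ⊓ ψ, fun K v => by rw [Formula.realize_inf, hφ, hψ]⟩

theorem Dfn.or {P Q : ∀ K : OG, (α → K.K) → Prop} (h : Dfn P) (h' : Dfn Q) :
    Dfn (fun K v => P K v ∨ Q K v) := by
  obtain ⟨φ, hφ⟩ := h
  obtain ⟨ψ, hψ⟩ := h'
  exact ⟨φ ⊔ ψ, fun K v => by rw [Formula.realize_sup, hφ, hψ]⟩

theorem Dfn.imp {P Q : ∀ K : OG, (α → K.K) → Prop} (h : Dfn P) (h' : Dfn Q) :
    Dfn (fun K v => P K v → Q K v) := by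
  obtain ⟨φ, hφ⟩ := h
  obtain ⟨ψ, hψ⟩ := h'
  exact ⟨φ.imp ψ, fun K v => by rw [Formula.realize_imp, hφ, hψ]⟩

theorem Dfn.top : Dfn (fun K (_ : α → K.K) => True) :=
  ⟨⊤, fun K v => by simp⟩

/-- finite conjunctions -/
theorem Dfn.fall {γ : Type} [Finite γ] {P : γ → ∀ K : OG, (α → K.K) → Prop} (h : ∀ c, Dfn (P c)) :
    Dfn (fun K v => ∀ c, P c K v) := by
  choose φ hφ using h
  exact ⟨Formula.iInf φ, fun K v => by rw [Formula.realize_iInf]; exact forall_congr' fun c => hφ c K v⟩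

/-- external hypotheses -/
theorem Dfn.ext {p : Prop} {P : ∀ K : OG, (α → K.K) → Prop} (h : Dfn P) :
    Dfn (fun K v => p → P K v) := by
  by_cases hp : p
  · exact h.congr (fun K v => ⟨fun h _ => h, fun h => h hp⟩)
  · exact Dfn.top.congr (fun K v => ⟨fun _ h => absurd h hp, fun _ => trivial⟩)

theorem Dfn.all {Q : ∀ K : OG, (α → K.K) → K.K → Prop}
    (h : Dfn (fun K (v : α ⊕ Unit → K.K) => Q K (fun a => v (Sum.inl a)) (v (Sum.inr ())))) :
    Dfn (fun K v => ∀ x, Q K v x) := by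
  obtain ⟨φ, hφ⟩ := h
  refine ⟨φ.iAlls Unit, fun K v => ?_⟩
  rw [Formula.realize_iAlls]
  constructor
  · intro h x
    have := (hφ K _).1 (h (fun _ => x))
    exact this
  · intro h i
    exact (hφ K _).2 (h (i ()))

theorem Dfn.ex {Q : ∀ K : OG, (α → K.K) → K.K → Prop}
    (h : Dfn (fun K (v : α ⊕ Unit → K.K) => Q K (fun a => v (Sum.inl a)) (v (Sum.inr ())))) :
    Dfn (fun K v => ∃ x, Q K v x) := by
  obtain ⟨φ, hφ⟩ := h
  refine ⟨φ.iExs Unit, fun K v => ?_⟩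
  rw [Formula.realize_iExs]
  constructor
  · rintro ⟨i, hi⟩
    exact ⟨i (), (hφ K _).1 hi⟩
  · rintro ⟨x, hx⟩
    exact ⟨fun _ => x, (hφ K _).2 hx⟩

theorem Dfn.bind {τ : ∀ K : OG, (α → K.K) → K.K} (hτ : DT τ) {Q : ∀ K : OG, (α → K.K) → K.K → Prop}
    (h : Dfn (fun K (v : α ⊕ Unit → K.K) => Q K (fun a => v (Sum.inl a)) (v (Sum.inr ())))) :
    Dfn (fun K v => Q K v (τ K v)) := by
  have : Dfn (fun K v => ∃ x, x = τ K v ∧ Q K v x) := Dfn.ex (Dfn.and hτ h)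
  exact this.congr (fun K v => by simp)

theorem DT.comap {τ : ∀ K : OG, (α → K.K) → K.K} (h : DT τ) (f : α → β) :
    DT (fun K (v : β → K.K) => τ K (fun a => v (f a))) :=
  Dfn.comap h (Sum.map f id)

theorem DT.lift {τ : ∀ K : OG, (α → K.K) → K.K} (h : DT τ) :
    DT (fun K (v : α ⊕ Unit → K.K) => τ K (fun a => v (Sum.inl a))) := h.comap Sum.inl

theorem Dfn.le_var' (a b : α) : Dfn (fun K (v : α → K.K) => v a = v b) :=
  ((Dfn.le_var a b).and (Dfn.le_var b a)).congr (fun K v => ⟨fun h => le_antisymm h.1 h.2,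
    fun h => ⟨h.le, h.ge⟩⟩)

theorem DT.var (a : α) : DT (fun K (v : α → K.K) => v a) := Dfn.le_var' _ _

theorem Dfn.le {σ τ : ∀ K : OG, (α → K.K) → K.K} (hσ : DT σ) (hτ : DT τ) :
    Dfn (fun K v => σ K v ≤ τ K v) := by
  refine Dfn.bind hτ (Q := fun K v y => σ K v ≤ y) ?_
  refine Dfn.bind hσ.lift (Q := fun K (v : α ⊕ Unit → K.K) x => x ≤ v (Sum.inr ())) ?_
  exact Dfn.le_var _ _

theorem Dfn.eq {σ τ : ∀ K : OG, (α → K.K) → K.K} (hσ : DT σ) (hτ : DT τ) :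
    Dfn (fun K v => σ K v = τ K v) :=
  ((Dfn.le hσ hτ).and (Dfn.le hτ hσ)).congr (fun K v => ⟨fun h => le_antisymm h.1 h.2,
    fun h => ⟨h.le, h.ge⟩⟩)

theorem DT.zero : DT (fun K (_ : α → K.K) => 0) :=
  (Dfn.add_var (α := α ⊕ Unit) (Sum.inr ()) (Sum.inr ()) (Sum.inr ())).congr (fun K v => by
    simp)

theorem DT.add {σ τ : ∀ K : OG, (α → K.K) → K.K} (hσ : DT σ) (hτ : DT τ) :
    DT (fun K v => σ K v + τ K v) := by
  refine Dfn.bind hτ.lift (Q := fun K (v : α ⊕ Unit → K.K) y =>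
    v (Sum.inr ()) = σ K (fun a => v (Sum.inl a)) + y) ?_
  refine Dfn.bind hσ.lift.lift (Q := fun K (v : (α ⊕ Unit) ⊕ Unit → K.K) x =>
    v (Sum.inl (Sum.inr ())) = x + v (Sum.inr ())) ?_
  exact Dfn.add_var _ _ _

theorem DT.sub {σ τ : ∀ K : OG, (α → K.K) → K.K} (hσ : DT σ) (hτ : DT τ) :
    DT (fun K v => σ K v - τ K v) := by
  have : Dfn (fun K (v : α ⊕ Unit → K.K) => σ K (fun a => v (Sum.inl a)) =
      v (Sum.inr ()) + τ K (fun a => v (Sum.inl a))) :=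
    Dfn.eq hσ.lift (DT.add (DT.var _) hτ.lift)
  exact this.congr (fun K v => by rw [eq_sub_iff_add_eq]; exact eq_comm)

theorem DT.inf {σ τ : ∀ K : OG, (α → K.K) → K.K} (hσ : DT σ) (hτ : DT τ) :
    DT (fun K v => σ K v ⊓ τ K v) := by
  have : Dfn (fun K (v : α ⊕ Unit → K.K) => (v (Sum.inr ()) ≤ σ K (fun a => v (Sum.inl a)) ∧
      v (Sum.inr ()) ≤ τ K (fun a => v (Sum.inl a))) ∧ ∀ d, (d ≤ σ K (fun a => v (Sum.inl a)) →
      d ≤ τ K (fun a => v (Sum.inl a)) → d ≤ v (Sum.inr ()))) := by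
    refine Dfn.and (Dfn.and (Dfn.le (DT.var _) hσ.lift) (Dfn.le (DT.var _) hτ.lift)) ?_
    refine Dfn.all ?_
    exact Dfn.imp (Dfn.le (DT.var _) hσ.lift.lift) (Dfn.imp (Dfn.le (DT.var _) hτ.lift.lift)
      (Dfn.le (DT.var _) (DT.var _)))
  refine this.congr (fun K v => ?_)
  constructor
  · rintro ⟨⟨h1, h2⟩, h3⟩
    exact le_antisymm (le_inf h1 h2) (h3 _ inf_le_left inf_le_right)
  · intro h
    rw [h]
    exact ⟨⟨inf_le_left, inf_le_right⟩, fun d h1 h2 => le_inf h1 h2⟩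

theorem DT.sum {γ : Type} (s : Finset γ) {σ : γ → ∀ K : OG, (α → K.K) → K.K} (h : ∀ c, DT (σ c)) :
    DT (fun K v => ∑ c ∈ s, σ c K v) := by
  classical
  induction s using Finset.induction_on with
  | empty => simpa using DT.zero
  | insert a s ha ih =>
    simpa only [Finset.sum_insert ha] using DT.add (h a) ih

theorem Dfn.inc {σ τ : ∀ K : OG, (α → K.K) → K.K} (hσ : DT σ) (hτ : DT τ) :
    Dfn (fun K v => Inc (σ K v) (τ K v)) := by
  unfold Inc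
  refine Dfn.all (Dfn.imp (Dfn.le DT.zero (DT.var _)) (Dfn.imp (Dfn.le (DT.var _) hσ.lift) (Dfn.ex ?_)))
  exact Dfn.and (Dfn.le (DT.var _) (DT.add (DT.var _) (DT.var _)))
    (Dfn.le (DT.add (DT.var _) (DT.var _)) (DT.add (DT.var _) hτ.lift.lift))

theorem Dfn.nz {τ : ∀ K : OG, (α → K.K) → K.K} (hτ : DT τ) : Dfn (fun K v => NZ (τ K v)) := by
  unfold NZ
  refine Dfn.all (Dfn.imp (Dfn.le DT.zero (DT.var _)) (Dfn.ex ?_))
  exact Dfn.and (Dfn.le (DT.var _) (DT.add (DT.var _) (DT.var _)))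
    (Dfn.le (DT.add (DT.var _) (DT.var _)) (DT.add (DT.var _) hτ.lift.lift))

theorem Dfn.cl {σ τ : ∀ K : OG, (α → K.K) → K.K} (hσ : DT σ) (hτ : DT τ) :
    Dfn (fun K v => Cl (σ K v) (τ K v)) := by
  unfold Cl
  exact Dfn.all (Dfn.imp (Dfn.le DT.zero (DT.var _))
    (Dfn.imp (Dfn.eq (DT.inf (DT.var _) hσ.lift) DT.zero) (Dfn.inc (DT.var _) hτ.lift)))

theorem Dfn.single {τ : ∀ K : OG, (α → K.K) → K.K} (hτ : DT τ) :
    Dfn (fun K v => Single (τ K v)) := by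
  unfold Single
  refine Dfn.and (Dfn.nz hτ).not (Dfn.all (Dfn.all ?_))
  exact Dfn.imp (Dfn.le DT.zero (DT.var _)) (Dfn.imp (Dfn.le DT.zero (DT.var _))
    (Dfn.imp (Dfn.eq (DT.inf (DT.var _) (DT.var _)) DT.zero)
      (Dfn.or (Dfn.inc (DT.var _) hτ.lift.lift) (Dfn.inc (DT.var _) hτ.lift.lift))))

theorem Dfn.sig {V : Type} [Fintype V] (Γ : SimpleGraph V) :
    Dfn (fun K (s : V → K.K) => Sig Γ s) := by
  have hoth : ∀ v, DT (fun K (s : V → K.K) => oth s v) := fun v => by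
    unfold oth
    exact DT.sub (DT.sum _ (fun u => DT.var u)) (DT.var v)
  have h1 : Dfn (fun K (s : V → K.K) => ∀ v, 0 ≤ s v) :=
    Dfn.fall (fun v => Dfn.le DT.zero (DT.var v))
  have h2 : Dfn (fun K (s : V → K.K) => ∀ u v, u ≠ v → ¬ Γ.Adj u v → s u ⊓ s v = 0) :=
    Dfn.fall (fun u => Dfn.fall (fun v => Dfn.ext (Dfn.ext
      (Dfn.eq (DT.inf (DT.var u) (DT.var v)) DT.zero))))
  have h3 : Dfn (fun K (s : V → K.K) => ∀ u v w, u ≠ v → v ≠ w → u ≠ w → s u ⊓ s v ⊓ s w = 0) :=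
    Dfn.fall (fun u => Dfn.fall (fun v => Dfn.fall (fun w => Dfn.ext (Dfn.ext (Dfn.ext
      (Dfn.eq (DT.inf (DT.inf (DT.var u) (DT.var v)) (DT.var w)) DT.zero))))))
  have h4 : Dfn (fun K (s : V → K.K) => NZ (∑ v, s v)) := Dfn.nz (DT.sum _ (fun u => DT.var u))
  have h5 : Dfn (fun K (s : V → K.K) => ∀ v, Single (oth s v)) :=
    Dfn.fall (fun v => Dfn.single (hoth v))
  have h6 : Dfn (fun K (s : V → K.K) => ∀ u v, Γ.Adj u v → s u ⊓ s v ≠ 0) :=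
    Dfn.fall (fun u => Dfn.fall (fun v => Dfn.ext
      (Dfn.not (Dfn.eq (DT.inf (DT.var u) (DT.var v)) DT.zero))))
  have h7 : Dfn (fun K (s : V → K.K) => ∀ u v, Γ.Adj u v → ∀ x y : K.K, x ⊓ y = 0 →
      x + y = s u ⊓ s v → x = 0 ∨ y = 0) :=
    Dfn.fall (fun u => Dfn.fall (fun v => Dfn.ext (Dfn.all (Dfn.all
      (Dfn.imp (Dfn.eq (DT.inf (DT.var _) (DT.var _)) DT.zero)
        (Dfn.imp (Dfn.eq (DT.add (DT.var _) (DT.var _)) (DT.inf (DT.var _) (DT.var _)))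
          (Dfn.or (Dfn.eq (DT.var _) DT.zero) (Dfn.eq (DT.var _) DT.zero))))))))
  have h8 : Dfn (fun K (s : V → K.K) => ∀ u v, Γ.Adj u v → Cl (s u ⊓ s v) (oth s v)) :=
    Dfn.fall (fun u => Dfn.fall (fun v => Dfn.ext
      (Dfn.cl (DT.inf (DT.var u) (DT.var v)) (hoth v))))
  have h9 : Dfn (fun K (s : V → K.K) => ∀ u v, Γ.Adj u v → ∀ t : K.K, 0 ≤ t → Single t →
      ¬ Inc (s u ⊓ s v) t → ¬ ∃ a b c : K.K, (0 ≤ a ∧ 0 ≤ b ∧ 0 ≤ c) ∧
        (a ⊓ b = 0 ∧ a ⊓ c = 0 ∧ b ⊓ c = 0) ∧ Cl a t ∧ Cl b t ∧ Cl c t) := by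
    refine Dfn.fall (fun u => Dfn.fall (fun v => Dfn.ext (Dfn.all
      (Dfn.imp (Dfn.le DT.zero (DT.var _)) (Dfn.imp (Dfn.single (DT.var _))
        (Dfn.imp (Dfn.not (Dfn.inc (DT.inf (DT.var _) (DT.var _)) (DT.var _)))
          (Dfn.not (Dfn.ex (Dfn.ex (Dfn.ex ?_))))))))))
    exact Dfn.and (Dfn.and (Dfn.le DT.zero (DT.var _)) (Dfn.and (Dfn.le DT.zero (DT.var _))
        (Dfn.le DT.zero (DT.var _))))
      (Dfn.and (Dfn.and (Dfn.eq (DT.inf (DT.var _) (DT.var _)) DT.zero)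
        (Dfn.and (Dfn.eq (DT.inf (DT.var _) (DT.var _)) DT.zero)
          (Dfn.eq (DT.inf (DT.var _) (DT.var _)) DT.zero)))
      (Dfn.and (Dfn.cl (DT.var _) (DT.var _)) (Dfn.and (Dfn.cl (DT.var _) (DT.var _))
        (Dfn.cl (DT.var _) (DT.var _)))))
  refine (h1.and (h2.and (h3.and (h4.and (h5.and (h6.and (h7.and (h8.and h9)))))))).congr
    (fun K s => ?_)
  exact ⟨fun ⟨a1, a2, a3, a4, a5, a6, a7, a8, a9⟩ => ⟨a1, a2, a3, a4, a5, a6, a7, a8, a9⟩,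
    fun h => ⟨h.pos, h.two, h.three, h.nz, h.single, h.ne, h.conn, h.cl, h.val⟩⟩

theorem Dfn.exs {V : Type} [Finite V] {P : ∀ K : OG, (V → K.K) → Prop} (h : Dfn P) :
    Dfn (fun K (_ : Empty → K.K) => ∃ s : V → K.K, P K s) := by
  obtain ⟨φ, hφ⟩ := h
  refine ⟨(φ.relabel (Sum.inr : V → Empty ⊕ V)).iExs V, fun K v => ?_⟩
  rw [Formula.realize_iExs]
  refine exists_congr (fun i => ?_)
  rw [Formula.realize_relabel]
  exact hφ K _

end Closure

theorem prfH1 : S_fo := by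
  intro G H _ _ _ _ _ _ V _ Γ hT hs
  obtain ⟨φ, hφ⟩ := Dfn.exs (Dfn.sig Γ)
  have hG := hφ ⟨G⟩ default
  have hH := hφ ⟨H⟩ default
  have h1 : φ ∈ @completeTheory L2 G (str G) := by
    refine (@mem_completeTheory L2 G (str G) φ).2 ?_
    exact hG.2 hs
  rw [hT] at h1
  exact hH.1 ((@mem_completeTheory L2 H (str H) φ).1 h1)

end Pool.Agent.MP552024
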