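import Pool.Agent.Work.MP_552024_lc.Stmts

/-!
MP_552024_lc, item E1 (helper61): the simple clauses of Sig for hat functions.
-/

set_option autoImplicit false

namespace Pool.Agent.MP552024

theorem e1_sum_lin {G : Type} [AddCommGroup G] [Lattice G] (M : Mdl G) (h : M.V → G)
    (hH : Hats M h) : M.Lin (∑ v, h v) (fun _ => 1) := by
  intro z hz
  rw [M.chart.sum _ _ hz]
  refine Finset.sum_congr rfl fun i _ => ?_
  rw [hH i z hz]
  push_cast
  ring

open Classical in
theorem e1_hat_lin {G : Type} [AddCommGroup G] [Lattice G] (M : Mdl G) (h : M.V → G)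
    (hH : Hats M h) (v : M.V) : M.Lin (h v) (fun i => if i = v then 1 else 0) := by
  intro z hz
  rw [hH v z hz, Finset.sum_eq_single v]
  · simp
  · intro i _ hi
    simp [hi]
  · intro hv
    exact absurd (Finset.mem_univ _) hv

theorem prfE1 (h1 : S_nzL) (h2 : S_singleL) : S_E1 := by
  classical
  intro G _ _ _ M h hH hthin
  have hpos : ∀ v, 0 ≤ h v := fun v => M.chart.nonneg_iff.mpr fun z hz => by
    rw [hH v z hz]
    exact hz.1 v
  have hsum := e1_sum_lin M h hH
  refine ⟨hpos, ?_, ?_, ?_, ?_, ?_⟩
  · intro u v huv hadj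
    refine M.chart.ext fun z hz => ?_
    rw [M.chart.inf _ _ hz, hH u z hz, hH v z hz, M.chart.zero hz]
    by_contra hcon
    apply hadj
    refine ⟨huv, Cx.face_of_mem hz _ ?_⟩
    have hu := hz.1 u
    have hv := hz.1 v
    intro i hi h0
    simp only [Set.mem_insert_iff, Set.mem_singleton_iff] at hi
    rcases hi with rfl | rfl
    · rw [h0] at hcon
      exact hcon (min_eq_left hv)
    · rw [h0] at hcon
      exact hcon (min_eq_right hu)
  · intro u v w huv hvw huw
    refine M.chart.ext fun z hz => ?_
    rw [M.chart.inf _ _ hz, M.chart.inf _ _ hz, hH u z hz, hH v z hz, hH w z hz,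
      M.chart.zero hz]
    have hu := hz.1 u
    have hv := hz.1 v
    have hw := hz.1 w
    by_contra hcon
    refine hthin u v w huv hvw huw (Cx.face_of_mem hz _ ?_)
    intro i hi h0
    simp only [Set.mem_insert_iff, Set.mem_singleton_iff] at hi
    rcases hi with rfl | rfl | rfl
    · rw [h0] at hcon
      exact hcon (by rw [min_eq_left hv, min_eq_left hw])
    · rw [h0] at hcon
      exact hcon (by rw [min_eq_right hu, min_eq_left hw])
    · rw [h0] at hcon
      exact hcon (min_eq_right (le_min hu hv))
  · intro u v huv h0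
    have hz := Cx.pair_mem huv.2 (zero_le_one' ℝ) (zero_le_one' ℝ)
    have h3 := M.chart.inf (h u) (h v) hz
    rw [h0, M.chart.zero hz, hH u _ hz, hH v _ hz] at h3
    simp only [pt_self, pt_ne huv.1, pt_ne huv.1.symm] at h3
    norm_num at h3
  · exact (h1 G M _ _ hsum (Finset.sum_nonneg fun v _ => hpos v)).mpr fun _ => one_pos
  · intro v
    have hlin : M.Lin (oth h v) (fun i => 1 - if i = v then 1 else 0) :=
      hsum.sub (e1_hat_lin M h hH v)
    have h0 : 0 ≤ oth h v := hlin.nonneg' fun i => by split_ifs <;> norm_num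
    refine (h2 G M _ _ hlin h0).mpr ⟨v, by simp, fun j hj => ?_⟩
    by_contra hne
    rw [if_neg hne] at hj
    norm_num at hj

end Pool.Agent.MP552024
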