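import Pool.Agent.Work.MP_552024_lc.B7
import Pool.Agent.Work.MP_552024_lc.B9
import Pool.Agent.Work.MP_552024_lc.C1
import Pool.Agent.Work.MP_552024_lc.C2
import Pool.Agent.Work.MP_552024_lc.D1
import Pool.Agent.Work.MP_552024_lc.D2
import Pool.Agent.Work.MP_552024_lc.G1
import Pool.Agent.Work.MP_552024_lc.G2
import Pool.Agent.Work.MP_552024_lc.Two.SH1
import Pool.Agent.Work.MP_552024_lc.Two.SH2
import Pool.Agent.Work.MP_552024_lc.Two.SH3
import Pool.Agent.Work.MP_552024_lc.Two.SH4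
import Pool.Agent.Work.MP_552024_lc.Two.SH5
import Pool.Agent.Work.MP_552024_lc.Two.SH6
import Pool.Agent.Work.MP_552024_lc.Two.SH7
import Pool.Agent.Work.MP_552024_lc.Two.SH8
import Pool.Agent.Work.MP_552024_lc.Two.MV
import Pool.Agent.Work.MP_552024_lc.Two.DC0
import Pool.Agent.Work.MP_552024_lc.Two.DC2
import Pool.Agent.Work.MP_552024_lc.Two.DC3
import Pool.Agent.Work.MP_552024_lc.Two.DC4
import Pool.Agent.Work.MP_552024_lc.Two.GB
import Pool.Agent.Work.MP_552024_lc.Two.GSa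
import Pool.Agent.Work.MP_552024_lc.Two.GSb
import Pool.Agent.Work.MP_552024_lc.Two.GSc
import Pool.Agent.Work.MP_552024_lc.Two.GSd
import Pool.Agent.Work.MP_552024_lc.Two.GR
import Pool.Agent.Work.MP_552024_lc.Two.CH1
import Pool.Agent.Work.MP_552024_lc.Two.RG
import Pool.Agent.Work.MP_552024_lc.Two.CO12
import Pool.Agent.Work.MP_552024_lc.Two.CO3
import Pool.Agent.Work.MP_552024_lc.Two.CHLe
import Pool.Agent.Work.MP_552024_lc.Two.FA
import Pool.Agent.Work.MP_552024_lc.Two.FB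
import Pool.Agent.Work.MP_552024_lc.Two.FC
import Pool.Agent.Work.MP_552024_lc.Two.FO2
import Pool.Agent.Work.MP_552024_lc.Two.T1
import Pool.Agent.Work.MP_552024_lc.Two.T2
import Pool.Agent.Work.MP_552024_lc.Two.T3
import Pool.Agent.Work.MP_552024_lc.Two.T45
import Pool.Agent.Work.MP_552024_lc.Two.T6
import Pool.Agent.Work.MP_552024_lc.Two.T7
import Pool.Agent.Work.MP_552024_lc.Two.DIM
import Pool.Agent.Work.MP_552024_lc.Two.X12
import Pool.Agent.Work.MP_552024_lc.Two.X3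
import Pool.Agent.Work.MP_552024_lc.Two.X4
import Pool.Agent.Work.MP_552024_lc.Two.X56
import Pool.Agent.Work.MP_552024_lc.Two.X7
import Pool.Agent.Work.MP_552024_lc.Two.X8
import Pool.Agent.Work.MP_552024_lc.Two.X9
import Pool.Agent.Work.MP_552024_lc.Two.E0
import Pool.Agent.Work.MP_552024_lc.Two.CT2
import Pool.Agent.Work.MP_552024_lc.Two.CT3
import Pool.Agent.Work.MP_552024_lc.Two.CT4
import Pool.Agent.Work.MP_552024_lc.Two.CT5
import Pool.Agent.Work.MP_552024_lc.Two.CT6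
import Pool.Agent.Work.MP_552024_lc.Two.Main2

/-!
MP_552024_lc: elementarily equivalent finitely presented abelian lattice-ordered groups are isomorphic
when one of them has dimension at most three.
-/

set_option autoImplicit false

namespace Pool.Agent.Work.MP_552024_lc.DimensionThree

open Pool.Agent.MP552024

/-- A finitely presented abelian lattice-ordered group `G` of dimension at most three (the zero set of the
relator `f` lies in finitely many subspaces of dimension at most three; any number of generators) is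
determined up to isomorphism, among all finitely presented ones, by its first-order theory. -/
theorem result :
    ∀ (G H : Type) [AddCommGroup G] [Lattice G] [IsOrderedAddMonoid G]
      [AddCommGroup H] [Lattice H] [IsOrderedAddMonoid H],
      (∃ n : ℕ, ∃ Fn : Set ((Fin n → ℝ) → ℝ),
        Fn = {h | ∀ S : Set ((Fin n → ℝ) → ℝ),
          (∀ i : Fin n, (fun x : Fin n → ℝ => x i) ∈ S) →
          (0 : (Fin n → ℝ) → ℝ) ∈ S →
          (∀ a ∈ S, ∀ b ∈ S, a + b ∈ S ∧ -a ∈ S ∧ a ⊔ b ∈ S ∧ a ⊓ b ∈ S) → h ∈ S} ∧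
        ∃ f ∈ Fn,
          (∃ F : Set (Submodule ℝ (Fin n → ℝ)), F.Finite ∧
            (∀ W ∈ F, Module.finrank ℝ W ≤ 3) ∧ ∀ x, f x = 0 → ∃ W ∈ F, x ∈ W) ∧
          ∃ ψ : ((Fin n → ℝ) → ℝ) → G,
          (∀ a ∈ Fn, ∀ b ∈ Fn, ψ (a + b) = ψ a + ψ b ∧ ψ (a ⊔ b) = ψ a ⊔ ψ b) ∧
          (∀ y : G, ∃ a ∈ Fn, ψ a = y) ∧
          (∀ a ∈ Fn, ψ a = 0 ↔ ∃ k : ℕ, |a| ≤ k • |f|)) →
      (∃ n : ℕ, ∃ Fn : Set ((Fin n → ℝ) → ℝ),
        Fn = {h | ∀ S : Set ((Fin n → ℝ) → ℝ),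
          (∀ i : Fin n, (fun x : Fin n → ℝ => x i) ∈ S) →
          (0 : (Fin n → ℝ) → ℝ) ∈ S →
          (∀ a ∈ S, ∀ b ∈ S, a + b ∈ S ∧ -a ∈ S ∧ a ⊔ b ∈ S ∧ a ⊓ b ∈ S) → h ∈ S} ∧
        ∃ f ∈ Fn, ∃ ψ : ((Fin n → ℝ) → ℝ) → H,
          (∀ a ∈ Fn, ∀ b ∈ Fn, ψ (a + b) = ψ a + ψ b ∧ ψ (a ⊔ b) = ψ a ⊔ ψ b) ∧
          (∀ y : H, ∃ a ∈ Fn, ψ a = y) ∧
          (∀ a ∈ Fn, ψ a = 0 ↔ ∃ k : ℕ, |a| ≤ k • |f|)) →
      @FirstOrder.Language.completeTheory
          (⟨fun n => PLift (n = 2), fun n => PLift (n = 2)⟩ : FirstOrder.Language.{0, 0}) G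
          (FirstOrder.Language.Structure.mk (fun _ x => ∑ i, x i) (fun _ x => Monotone x)) =
        @FirstOrder.Language.completeTheory
          (⟨fun n => PLift (n = 2), fun n => PLift (n = 2)⟩ : FirstOrder.Language.{0, 0}) H
          (FirstOrder.Language.Structure.mk (fun _ x => ∑ i, x i) (fun _ x => Monotone x)) →
      ∃ e : G ≃+ H, ∀ a b : G, e a ≤ e b ↔ a ≤ b := by
  intro G H _ _ _ _ _ _ ⟨n, Fn, hFn, f, hf, hd, ψ, h1, h2, h3⟩ ⟨m, Fm, hFm, f', hf', ψ', k1, k2, k3⟩ hT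
  subst hFn hFm
  have hlin : S_linall := prfB9 prfB7
  have hinc : S_inc := prfD1 hlin
  have hincL : S_incL := prfD2a hinc
  have hnzL : S_nzL := prfD2b hinc
  have hsing : S_singleL := prfD2c hinc
  have hlim : S_lim := prfLim
  have hz : S_nzZ := prfNzZ hinc
  have hseg : S_seg := prfSeg hinc
  have hP : S_clP := prfClP hinc
  have hF : S_clF := prfClF hinc hlim
  have htwo : S_twoL := prfTwoL hnzL hsing
  have hcon : S_connL := prfConnL hinc hincL hnzL hz hseg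
  have hct : S_ctE := prfCtE hcon htwo
  have hGR : S_GR := prfGR prfGB prfGSa prfGSb prfGSc prfGSd
  have x1 : S_X1 := prfX1 hnzL
  have x2 : S_X2 := prfX2 hnzL hsing
  have x3 : S_X3 := prfX3 x1 x2 hcon hinc hincL hz hseg
  have x5 : S_X5 := prfX5 x1 hP hcon htwo hinc hincL
  have x7 : S_X7 := prfX7 x1 x2 x3 hF hct hinc hincL hlin hlim hGR
  have x9 : S_X9 := prfX9 x1 x5 x7 hF hct hinc hlin hlim hGR
  have s4 : S_SH4 := prfSH4 prfSH3
  have s8 : S_SH8 := prfSH8 prfSH1 (prfSH5 s4) (prfSH6 prfSH1 prfSH2) prfSH7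
  have dc : S_DC4 := prfDC4 prfStar3 prfUnstar3 prfFlip prfConeEx prfDC1 prfDC2 prfDC3
  exact main2 hlin (prfC2 prfC1 prfC1b hlin) prfDim prfFO2
    (prfT1 hnzL hsing) (prfT2 hcon hincL hlin hGR) (prfT3 hF hGR hlin)
    (prfT4 hF hincL hct hlin hGR) (prfT5 hF hincL hct hlin hGR) (prfT6 hP hct hnzL hinc hlin hGR) (prfT7 hF hcon htwo hinc hincL hlin hGR)
    x1 x2 x3 (prfX4 x1 x2 x3 hP hcon htwo hinc) x5
    (prfX6 x1 hinc) x7
    (prfX8 x1 hF hct hinc hz hseg hlin hlim hGR) x9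
    (prfChiRef prfChi1) (prfChiLe prfSH1 prfRG prfChiO12 (prfChiO3 prfRG prfChiO12) prfChi2) prfRG s8
    prfNFex prfCT1 (prfCT2 prfDiscMap dc prfRG) prfCT3 prfCT4 prfG1 prfG2 prfCT5 prfCT6
    G H n m f hf ψ ⟨h1, h2, h3⟩ hd f' hf' ψ' ⟨k1, k2, k3⟩ hT

end Pool.Agent.Work.MP_552024_lc.DimensionThree
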