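import Pool.Agent.Work.MP_552024_lc.Stmts

/-!
MP_552024_lc, item E3 (helper61): an open edge is connected.
-/

set_option autoImplicit false

namespace Pool.Agent.MP552024

/-- the points of the edge -/
noncomputable def e3p {V : Type} (u v : V) (s : ℝ) : V → ℝ := fun l => (1 - s) * pt u l + s * pt v l

theorem e3p_u {V : Type} {u v : V} (h : u ≠ v) (s : ℝ) : e3p u v s u = 1 - s := by
  unfold e3p
  rw [pt_self, pt_ne h]
  ring

theorem e3p_v {V : Type} {u v : V} (h : u ≠ v) (s : ℝ) : e3p u v s v = s := by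
  unfold e3p
  rw [pt_self, pt_ne h.symm]
  ring

theorem e3p_w {V : Type} {u v w : V} (h1 : w ≠ u) (h2 : w ≠ v) (s : ℝ) : e3p u v s w = 0 := by
  unfold e3p
  rw [pt_ne h1, pt_ne h2]
  ring

theorem e3_aux {G : Type} [AddCommGroup G] [Lattice G] [IsOrderedAddMonoid G] (M : Mdl G)
    (hthin : M.Δ.Thin) (u v : M.V) (huv : u ≠ v) (x : G)
    (h0 : ∀ z ∈ M.Δ.Z, 0 ≤ M.ev x z) (h1 : ∀ z ∈ M.Δ.Z, M.ev x z ≤ min (z u) (z v))
    (hf : M.Δ.face {u, v}) (h2 : ∀ s : ℝ, 0 < s → s < 1 → M.ev x (e3p u v s) = 0) : x = 0 := by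
  refine M.chart.inj x fun z hz => ?_
  rcases (hz.1 u).eq_or_lt with hu | hu
  · refine le_antisymm ?_ (h0 z hz)
    have := h1 z hz
    rw [← hu] at this
    exact this.trans (min_le_left _ _)
  rcases (hz.1 v).eq_or_lt with hv | hv
  · refine le_antisymm ?_ (h0 z hz)
    have := h1 z hz
    rw [← hv] at this
    exact this.trans (min_le_right _ _)
  have hr : 0 < z u + z v := by linarith
  have hzp : z = fun l => (z u + z v) * e3p u v (z v / (z u + z v)) l := by
    funext l
    by_cases hlu : l = u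
    · subst hlu
      rw [e3p_u huv]
      field_simp
      ring
    by_cases hlv : l = v
    · subst hlv
      rw [e3p_v huv]
      field_simp
    rw [e3p_w hlu hlv, mul_zero]
    by_contra hl
    refine hthin u v l huv (Ne.symm hlv) (Ne.symm hlu) (Cx.face_of_mem hz _ ?_)
    intro i hi
    simp only [Set.mem_insert_iff, Set.mem_singleton_iff] at hi
    rcases hi with rfl | rfl | rfl
    · exact hu.ne'
    · exact hv.ne'
    · exact hl
  have hs0 : 0 < z v / (z u + z v) := div_pos hv hr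
  have hs1 : z v / (z u + z v) < 1 := by
    rw [div_lt_one hr]
    linarith
  have hmem : e3p u v (z v / (z u + z v)) ∈ M.Δ.Z :=
    Cx.pair_mem hf (by linarith) hs0.le
  rw [hzp, M.chart.hom x hmem hr.le, h2 _ hs0 hs1, mul_zero]

theorem prfE3 : S_E3 := by
  intro G _ _ _ M h hH hthin u v huv x y hxy hadd
  obtain ⟨hne, hf⟩ := huv
  have hx0 : 0 ≤ x := by rw [← hxy]; exact inf_le_left
  have hy0 : 0 ≤ y := by rw [← hxy]; exact inf_le_right
  have hx : ∀ z ∈ M.Δ.Z, 0 ≤ M.ev x z := M.chart.nonneg_iff.mp hx0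
  have hy : ∀ z ∈ M.Δ.Z, 0 ≤ M.ev y z := M.chart.nonneg_iff.mp hy0
  have hmin : ∀ z ∈ M.Δ.Z, min (M.ev x z) (M.ev y z) = 0 := by
    intro z hz
    rw [← M.chart.inf x y hz, hxy, M.chart.zero hz]
  have hsum : ∀ z ∈ M.Δ.Z, M.ev x z + M.ev y z = min (z u) (z v) := by
    intro z hz
    rw [← M.chart.add x y z hz, hadd, M.chart.inf _ _ hz, hH u z hz, hH v z hz]
  have hp : ∀ s : ℝ, 0 < s → s < 1 → e3p u v s ∈ M.Δ.Z := fun s h0 h1 =>
    Cx.pair_mem hf (by linarith) h0.le
  have hpc : Continuous (fun s : ℝ => e3p u v s) := by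
    refine continuous_pi fun l => ?_
    unfold e3p
    fun_prop
  obtain ⟨a, ha, hae⟩ := M.chart.mem x
  obtain ⟨b, hb, hbe⟩ := M.chart.mem y
  have hac : Continuous (fun s : ℝ => a (e3p u v s)) := (LP_cont ha).comp hpc
  have hbc : Continuous (fun s : ℝ => b (e3p u v s)) := (LP_cont hb).comp hpc
  have hpre : IsPreconnected (Set.Ioo (0 : ℝ) 1) := isPreconnected_Ioo
  by_cases hU : (Set.Ioo (0 : ℝ) 1 ∩ {s | 0 < a (e3p u v s)}).Nonempty
  · by_cases hW : (Set.Ioo (0 : ℝ) 1 ∩ {s | 0 < b (e3p u v s)}).Nonempty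
    · exfalso
      obtain ⟨s, hs, hsa, hsb⟩ := hpre _ _ (isOpen_lt continuous_const hac)
        (isOpen_lt continuous_const hbc) (by
          intro s hs
          have hz := hp s hs.1 hs.2
          have h1 := hsum _ hz
          rw [e3p_u hne, e3p_v hne] at h1
          have h2 : 0 < min (1 - s) s := lt_min (by linarith [hs.2]) hs.1
          by_contra hcon
          simp only [Set.mem_union, Set.mem_ofPred_eq, not_or, not_lt] at hcon
          rw [← hae _ hz, ← hbe _ hz] at hcon
          linarith [hcon.1, hcon.2]) hU hW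
      have hz := hp s hs.1 hs.2
      have h1 := hmin _ hz
      simp only [Set.mem_ofPred_eq] at hsa hsb
      rw [← hae _ hz] at hsa
      rw [← hbe _ hz] at hsb
      have := lt_min hsa hsb
      linarith
    · right
      refine e3_aux M hthin u v hne y hy (fun z hz => by linarith [hsum z hz, hx z hz]) hf ?_
      intro s h0 h1
      have hz := hp s h0 h1
      refine le_antisymm ?_ (hy _ hz)
      by_contra hcon
      push Not at hcon
      rw [hbe _ hz] at hcon
      exact hW ⟨s, ⟨h0, h1⟩, hcon⟩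
  · left
    refine e3_aux M hthin u v hne x hx (fun z hz => by linarith [hsum z hz, hy z hz]) hf ?_
    intro s h0 h1
    have hz := hp s h0 h1
    refine le_antisymm ?_ (hx _ hz)
    by_contra hcon
    push Not at hcon
    rw [hae _ hz] at hcon
    exact hU ⟨s, ⟨h0, h1⟩, hcon⟩

end Pool.Agent.MP552024
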