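import Pool.Agent.Work.MP_552024_lc.Stmts

/-!
Clause cl for hat functions, MP_552024_lc.
-/

set_option autoImplicit false

namespace Pool.Agent.MP552024

theorem prfE4 (h : S_clPath) : S_E4 := by
  classical
  intro G _ _ _ M hh hH u v huv
  have hoth : ∀ z ∈ M.Δ.Z, M.ev (oth hh v) z = ∑ w ∈ Finset.univ.erase v, z w := by
    intro z hz
    unfold oth
    rw [M.chart.sub _ _ hz, M.chart.sum _ _ hz, hH v z hz]
    rw [Finset.sum_congr rfl (fun w _ => hH w z hz)]
    rw [← Finset.add_sum_erase _ _ (Finset.mem_univ v)]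
    ring
  refine h G M (hh u ⊓ hh v) (oth hh v) v (pt u) ?_ ?_ ?_
  · refine M.chart.nonneg_iff.2 (fun z hz => ?_)
    rw [hoth z hz]
    exact Finset.sum_nonneg (fun w _ => hz.1 w)
  · intro z hz h0 j hj
    rw [hoth z hz] at h0
    exact (Finset.sum_eq_zero_iff_of_nonneg (fun w _ => hz.1 w)).1 h0 j
      (Finset.mem_erase.2 ⟨hj, Finset.mem_univ j⟩)
  · intro ε hε
    have hf : M.Δ.face {v, u} := by rw [Set.pair_comm]; exact huv.2
    have hz : (fun l => pt v l + ε * pt u l) ∈ M.Δ.Z := by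
      have := Cx.pair_mem hf zero_le_one hε.le
      simpa only [one_mul] using this
    refine ⟨hz, ?_⟩
    rw [M.chart.inf _ _ hz, hH u _ hz, hH v _ hz]
    have h1 : pt v u = 0 := pt_ne huv.1
    have h2 : pt u v = 0 := pt_ne huv.1.symm
    rw [h1, h2, pt_self, pt_self]
    refine lt_min ?_ ?_
    · linarith
    · norm_num

end Pool.Agent.MP552024
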