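import Pool.Agent.Work.MP_552024_lc.Stmts

/-!
MP_552024_lc, item E5 (helper61): no interior point of an edge has three branches.
-/

set_option autoImplicit false

namespace Pool.Agent.MP552024

theorem e5_pos {G : Type} [AddCommGroup G] [Lattice G] {N : Mdl G} {a : G} {d : N.V → ℤ}
    (hd : N.Lin a d) (h0 : ∀ i, 0 ≤ d i) {z : N.V → ℝ} (hz : z ∈ N.Δ.Z) {l : N.V}
    (hl : 0 < z l) (hdl : 0 < d l) : 0 < N.ev a z := by
  rw [hd z hz]
  refine Finset.sum_pos' (fun i _ => mul_nonneg (by exact_mod_cast h0 i) (hz.1 i))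
    ⟨l, Finset.mem_univ _, mul_pos (by exact_mod_cast hdl) hl⟩

theorem e5_key {G : Type} [AddCommGroup G] [Lattice G] [IsOrderedAddMonoid G] {N : Mdl G}
    {a b : G} {da db : N.V → ℤ} (ha : 0 ≤ a) (hb : 0 ≤ b) (hda : N.Lin a da) (hdb : N.Lin b db)
    (hab : a ⊓ b = 0) {i0 ja jb : N.V} (hja : 0 < da ja) (hjb : 0 < db jb)
    (hfb : N.Δ.face {i0, jb}) : ja ≠ i0 ∧ ja ≠ jb := by
  have key : ∀ z ∈ N.Δ.Z, 0 < z ja → 0 < z jb → False := by
    intro z hz h1 h2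
    have h3 := N.chart.inf a b hz
    rw [hab, N.chart.zero hz] at h3
    have h4 := lt_min (e5_pos hda (fun i => hda.nonneg ha i) hz h1 hja)
      (e5_pos hdb (fun i => hdb.nonneg hb i) hz h2 hjb)
    linarith
  constructor
  · rintro rfl
    refine key _ (Cx.pair_mem hfb (zero_le_one' ℝ) (zero_le_one' ℝ)) ?_ ?_
    · have := pt_nonneg jb ja
      simp only [pt_self]
      linarith
    · have := pt_nonneg ja jb
      simp only [pt_self]
      linarith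
  · rintro rfl
    refine key _ (Cx.pt_mem ja) ?_ ?_
    · rw [pt_self]
      exact one_pos
    · rw [pt_self]
      exact one_pos

theorem prfE5 (h6 : S_E6) (hl : S_linall) (hi : S_incL) (hs : S_singleL) (hc : S_clL) : S_E5 := by
  intro G _ _ _ M h hH hthin u v huv t ht hst hninc
  rintro ⟨a, b, c, ⟨ha, hb, hc0⟩, ⟨hab, hac, hbc⟩, hcla, hclb, hclc⟩
  have hpos : ∀ v, 0 ≤ h v := fun v => M.chart.nonneg_iff.mpr fun z hz => by
    rw [hH v z hz]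
    exact hz.1 v
  obtain ⟨N, hMN, hlin⟩ := hl G M (Fin 5) ![h u ⊓ h v, t, a, b, c]
  obtain ⟨c0, hc0'⟩ : ∃ c0, N.Lin (h u ⊓ h v) c0 := hlin 0
  obtain ⟨ct, hct⟩ : ∃ ct, N.Lin t ct := hlin 1
  obtain ⟨da, hda⟩ : ∃ da, N.Lin a da := hlin 2
  obtain ⟨db, hdb⟩ : ∃ db, N.Lin b db := hlin 3
  obtain ⟨dc, hdc⟩ : ∃ dc, N.Lin c dc := hlin 4
  obtain ⟨i0, hi0, huni⟩ := (hs G N t ct hct ht).mp hst
  have hinf0 : 0 ≤ h u ⊓ h v := le_inf (hpos u) (hpos v)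
  have hne0 : c0 i0 ≠ 0 := by
    intro h0
    apply hninc
    rw [hi G N _ t c0 ct hc0' hct hinf0 ht]
    intro i hi'
    rw [huni i hi']
    exact h0
  have hpt : (c0 i0 : ℝ) = min (N.ev (h u) (pt i0)) (N.ev (h v) (pt i0)) := by
    rw [← hc0'.pt i0]
    exact N.chart.inf _ _ (Cx.pt_mem i0)
  have hc0pos : (0 : ℝ) < c0 i0 := by
    have h1 := hc0'.nonneg hinf0 i0
    exact_mod_cast lt_of_le_of_ne h1 (Ne.symm hne0)
  rw [hpt, lt_min_iff] at hc0pos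
  obtain ⟨ja, hfa, hja⟩ := (hc G N a t da ct i0 hda hct ha ht hi0 huni).mp hcla
  obtain ⟨jb, hfb, hjb⟩ := (hc G N b t db ct i0 hdb hct hb ht hi0 huni).mp hclb
  obtain ⟨jc, hfc, hjc⟩ := (hc G N c t dc ct i0 hdc hct hc0 ht hi0 huni).mp hclc
  have hba : b ⊓ a = 0 := by rw [inf_comm]; exact hab
  have hca : c ⊓ a = 0 := by rw [inf_comm]; exact hac
  obtain ⟨k1, k2⟩ := e5_key ha hb hda hdb hab hja hjb hfb
  obtain ⟨k3, -⟩ := e5_key hb ha hdb hda hba hjb hja hfa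
  obtain ⟨k5, k6⟩ := e5_key hc0 ha hdc hda hca hjc hja hfa
  obtain ⟨-, k7⟩ := e5_key hb hc0 hdb hdc hbc hjb hjc hfc
  rcases (h6 G M h hH hthin N hMN).2 i0 ⟨u, v, huv.1, hc0pos.1.ne', hc0pos.2.ne'⟩ ja jb jc k1 k3 k5
    hfa hfb hfc with e | e | e
  · exact k2 e
  · exact k6 e.symm
  · exact k7 e

end Pool.Agent.MP552024
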