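import Pool.Agent.Work.MP_552024_lc.Stmts

/-!
Item E6 of MP_552024_lc (helper85): refinements of thin models are thin, points inside edges have at
most two neighbours.
-/

set_option autoImplicit false

namespace Pool.Agent.MP552024

section E6

theorem E6_T_some {V : Type} (p q i : V) : Tmap p q (pt (some i)) = pt i := by
  funext l
  unfold Tmap
  have h1 : pt (some i) (none : Option V) = 0 := pt_ne (by simp)
  rw [h1]
  have h2 : pt (some i) (some l) = pt i l := by
    by_cases h : l = i
    · subst h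
      rw [pt_self, pt_self]
    · rw [pt_ne h, pt_ne (by simpa using h)]
  rw [h2]
  split_ifs <;> ring

theorem E6_face_some {V : Type} {Δ : Cx V} {p q : V} {hpq : p ≠ q} {h : Δ.face {p, q}} {s : Set V}
    {S : Set (Option V)} (hS : (Δ.sub p q hpq h).face S) (hs : ∀ v ∈ s, some v ∈ S) : Δ.face s :=
  Δ.down _ _ (fun v hv => Or.inl (hs v hv)) hS.2

theorem E6_face_none {V : Type} {Δ : Cx V} {p q : V} {hpq : p ≠ q} {h : Δ.face {p, q}} {s : Set V}
    {S : Set (Option V)} (hS : (Δ.sub p q hpq h).face S) (hn : none ∈ S)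
    (hs : ∀ v ∈ s, some v ∈ S ∨ v = p ∨ v = q) : Δ.face s := by
  refine Δ.down _ _ (fun v hv => ?_) hS.2
  rcases hs v hv with h1 | h1
  · exact Or.inl h1
  · exact Or.inr ⟨hn, h1⟩

/-- a neighbour of the new vertex is an end point of the old edge -/
theorem E6_nb_none {V : Type} {Δ : Cx V} {p q : V} {hpq : p ≠ q} {h : Δ.face {p, q}}
    (hT : Δ.Thin) {k : V} {S : Set (Option V)} (hS : (Δ.sub p q hpq h).face S) (hn : none ∈ S)
    (hk : some k ∈ S) : k = p ∨ k = q := by
  by_contra hc
  rw [not_or] at hc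
  refine hT k p q hc.1 hpq hc.2 (E6_face_none hS hn ?_)
  rintro v (rfl | rfl | rfl)
  · exact Or.inl hk
  · exact Or.inr (Or.inl rfl)
  · exact Or.inr (Or.inr rfl)

theorem E6_thin {V : Type} {Δ : Cx V} {p q : V} (hpq : p ≠ q) (h : Δ.face {p, q})
    (hT : Δ.Thin) : (Δ.sub p q hpq h).Thin := by
  have key : ∀ (a b : V) (S : Set (Option V)), a ≠ b → none ∈ S → some a ∈ S → some b ∈ S →
      ¬ (Δ.sub p q hpq h).face S := by
    intro a b S hab hn ha hb hS
    have h1 := E6_nb_none hT hS hn ha
    have h2 := E6_nb_none hT hS hn hb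
    apply hS.1
    rcases h1 with rfl | rfl
    · rcases h2 with rfl | rfl
      · exact absurd rfl hab
      · exact ⟨ha, hb⟩
    · rcases h2 with rfl | rfl
      · exact ⟨hb, ha⟩
      · exact absurd rfl hab
  intro x y z hxy hyz hxz hS
  rcases x with _ | x
  · rcases y with _ | y
    · exact hxy rfl
    · rcases z with _ | z
      · exact hxz rfl
      · exact key y z _ (fun e => hyz (by rw [e])) (by simp) (by simp) (by simp) hS
  · rcases y with _ | y
    · rcases z with _ | z
      · exact hyz rfl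
      · exact key x z _ (fun e => hxz (by rw [e])) (by simp) (by simp) (by simp) hS
    · rcases z with _ | z
      · exact key x y _ (fun e => hxy (by rw [e])) (by simp) (by simp) (by simp) hS
      · refine hT x y z (fun e => hxy (by rw [e])) (fun e => hyz (by rw [e]))
          (fun e => hxz (by rw [e])) (E6_face_some hS ?_)
        rintro v (rfl | rfl | rfl) <;> simp

/-- at most two neighbours -/
def E6two {V : Type} (Δ : Cx V) (i : V) : Prop :=
  ∀ j k l, j ≠ i → k ≠ i → l ≠ i → Δ.face {i, j} → Δ.face {i, k} → Δ.face {i, l} →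
    j = k ∨ j = l ∨ k = l

theorem E6_two_end {V : Type} {Δ : Cx V} {p q : V} (hpq : p ≠ q) (h : Δ.face {p, q})
    (hT : Δ.Thin) (i r : V) (hir : (i = p ∧ r = q) ∨ (i = q ∧ r = p)) (h2 : E6two Δ i) :
    E6two (Δ.sub p q hpq h) (some i) := by
  have hri : r ≠ i := by
    rcases hir with ⟨rfl, rfl⟩ | ⟨rfl, rfl⟩
    · exact hpq.symm
    · exact hpq
  have hfr : Δ.face {i, r} := by
    rcases hir with ⟨rfl, rfl⟩ | ⟨rfl, rfl⟩
    · exact h
    · rw [Set.pair_comm]; exact h
  -- the neighbour in the old complex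
  let m : Option V → V := fun o => o.elim r id
  have hm : ∀ o : Option V, o ≠ some i → (Δ.sub p q hpq h).face {some i, o} →
      m o ≠ i ∧ Δ.face {i, m o} ∧ ∀ j : V, o = some j → j ≠ r := by
    intro o ho hf
    rcases o with _ | j
    · exact ⟨hri, hfr, fun j hj => by simp at hj⟩
    · refine ⟨fun e => ho (congrArg some e), E6_face_some hf ?_, ?_⟩
      · rintro v (rfl | hv)
        · simp
        · have : v = j := hv
          subst this
          simp
      · rintro j' hj' rfl
        have e := Option.some.inj hj'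
        subst e
        apply hf.1
        rcases hir with ⟨rfl, rfl⟩ | ⟨rfl, rfl⟩
        · exact ⟨by simp, by simp⟩
        · exact ⟨by simp, by simp⟩
  have hinj : ∀ o o' : Option V, o ≠ some i → (Δ.sub p q hpq h).face {some i, o} →
      o' ≠ some i → (Δ.sub p q hpq h).face {some i, o'} → m o = m o' → o = o' := by
    intro o o' ho hf ho' hf' he
    have h3 := (hm o ho hf).2.2
    have h4 := (hm o' ho' hf').2.2
    rcases o with _ | j
    · rcases o' with _ | j'
      · rfl
      · exact absurd he.symm (h4 j' rfl)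
    · rcases o' with _ | j'
      · exact absurd he (h3 j rfl)
      · exact congrArg some he
  intro j k l hj hk hl fj fk fl
  rcases h2 (m j) (m k) (m l) (hm j hj fj).1 (hm k hk fk).1 (hm l hl fl).1 (hm j hj fj).2.1
    (hm k hk fk).2.1 (hm l hl fl).2.1 with e | e | e
  · exact Or.inl (hinj _ _ hj fj hk fk e)
  · exact Or.inr (Or.inl (hinj _ _ hj fj hl fl e))
  · exact Or.inr (Or.inr (hinj _ _ hk fk hl fl e))

theorem E6_two_other {V : Type} {Δ : Cx V} {p q : V} (hpq : p ≠ q) (h : Δ.face {p, q})
    (hT : Δ.Thin) (i : V) (hip : i ≠ p) (hiq : i ≠ q) (h2 : E6two Δ i) :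
    E6two (Δ.sub p q hpq h) (some i) := by
  have hm : ∀ o : Option V, o ≠ some i → (Δ.sub p q hpq h).face {some i, o} →
      ∃ j, o = some j ∧ j ≠ i ∧ Δ.face {i, j} := by
    intro o ho hf
    rcases o with _ | j
    · exfalso
      rcases E6_nb_none hT hf (by simp) (show some i ∈ _ by simp) with e | e
      · exact hip e
      · exact hiq e
    · refine ⟨j, rfl, fun e => ho (congrArg some e), E6_face_some hf ?_⟩
      rintro v (rfl | hv)
      · simp
      · have : v = j := hv
        subst this
        simp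
  intro j k l hj hk hl fj fk fl
  obtain ⟨j, rfl, hj1, hj2⟩ := hm j hj fj
  obtain ⟨k, rfl, hk1, hk2⟩ := hm k hk fk
  obtain ⟨l, rfl, hl1, hl2⟩ := hm l hl fl
  rcases h2 j k l hj1 hk1 hl1 hj2 hk2 hl2 with e | e | e
  · exact Or.inl (congrArg some e)
  · exact Or.inr (Or.inl (congrArg some e))
  · exact Or.inr (Or.inr (congrArg some e))

theorem E6_two_none {V : Type} {Δ : Cx V} {p q : V} (hpq : p ≠ q) (h : Δ.face {p, q})
    (hT : Δ.Thin) : E6two (Δ.sub p q hpq h) none := by
  have hm : ∀ o : Option V, o ≠ none → (Δ.sub p q hpq h).face {none, o} →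
      o = some p ∨ o = some q := by
    intro o ho hf
    rcases o with _ | j
    · exact absurd rfl ho
    · rcases E6_nb_none hT hf (by simp) (show some j ∈ _ by simp) with e | e
      · exact Or.inl (congrArg some e)
      · exact Or.inr (congrArg some e)
  intro j k l hj hk hl fj fk fl
  rcases hm j hj fj with rfl | rfl <;> rcases hm k hk fk with rfl | rfl <;>
    rcases hm l hl fl with rfl | rfl <;> simp

end E6

theorem prfE6 : S_E6 := by
  intro G _ _ _ M h hH hT N hR
  unfold Ref at hR
  have key : N.Δ.Thin ∧ ∀ i : N.V, (∃ u v, u ≠ v ∧ N.ev (h u) (pt i) ≠ 0 ∧ N.ev (h v) (pt i) ≠ 0) →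
      E6two N.Δ i := by
    induction hR with
    | refl =>
      refine ⟨hT, fun i hi => ?_⟩
      obtain ⟨u, v, huv, hu, hv⟩ := hi
      exfalso
      rw [hH u _ (Cx.pt_mem i)] at hu
      rw [hH v _ (Cx.pt_mem i)] at hv
      have e1 : u = i := by
        by_contra hc
        exact hu (pt_ne hc)
      have e2 : v = i := by
        by_contra hc
        exact hv (pt_ne hc)
      exact huv (e1.trans e2.symm)
    | @tail N' K _ hs ih =>
      obtain ⟨p, q, hpq, hf, rfl⟩ := hs
      obtain ⟨ih1, ih2⟩ := ih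
      refine ⟨E6_thin hpq hf ih1, fun i hi => ?_⟩
      rcases i with _ | i
      · exact E6_two_none hpq hf ih1
      · obtain ⟨u, v, huv, hu, hv⟩ := hi
        have hu' : N'.ev (h u) (Tmap p q (pt (some i))) ≠ 0 := hu
        have hv' : N'.ev (h v) (Tmap p q (pt (some i))) ≠ 0 := hv
        rw [E6_T_some] at hu' hv'
        have h3 := ih2 i ⟨u, v, huv, hu', hv'⟩
        by_cases hip : i = p
        · exact E6_two_end hpq hf ih1 i q (Or.inl ⟨hip, rfl⟩) h3
        · by_cases hiq : i = q
          · exact E6_two_end hpq hf ih1 i p (Or.inr ⟨hiq, rfl⟩) h3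
          · exact E6_two_other hpq hf ih1 i hip hiq h3
  exact key

end Pool.Agent.MP552024
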