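import Pool.Agent.Work.MP_552024_lc.Stmts

/-!
MP_552024_lc: S_F1, labels of faces.
-/

set_option autoImplicit false

namespace Pool.Agent.MP552024

theorem prfF1 (h : S_nzL) : S_F1 := by
  classical
  intro H _ _ _ V _ Γ M s c hS σ hσ hne
  have hc0 : ∀ v i, 0 ≤ c v i := fun v i => (hS.lin v).nonneg (hS.sig.pos v) i
  have hlab : ∀ i, ∃ v, 0 < c v i := by
    intro i
    have hsum := Mdl.Lin.sum Finset.univ hS.lin
    have hpos : (0 : H) ≤ ∑ v, s v := Finset.sum_nonneg (fun v _ => hS.sig.pos v)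
    have h1 := (h H M _ _ hsum hpos).1 hS.sig.nz i
    by_contra hcon
    push Not at hcon
    have h2 : ∑ a, c a i ≤ 0 := Finset.sum_nonpos (fun v _ => hcon v)
    linarith
  set z : M.V → ℝ := fun i => if i ∈ σ then 1 else 0 with hzdef
  have hz : z ∈ M.Δ.Z := by
    refine Cx.mem_Z (fun i => ?_) σ hσ (fun i hi => ?_)
    · simp only [hzdef]
      split_ifs <;> norm_num
    · by_contra hc
      exact hi (by simp [hzdef, hc])
  have hev : ∀ v, v ∈ (⋃ i ∈ σ, lab c i) → 0 < M.ev (s v) z := by
    intro v hv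
    simp only [Set.mem_iUnion] at hv
    obtain ⟨i, hi, hvi⟩ := hv
    rw [hS.lin v z hz]
    refine Finset.sum_pos' (fun j _ => mul_nonneg (by exact_mod_cast hc0 v j) (hz.1 j))
      ⟨i, Finset.mem_univ i, ?_⟩
    have h1 : z i = 1 := by simp [hzdef, hi]
    rw [h1, mul_one]
    exact_mod_cast hvi
  obtain ⟨i0, hi0⟩ := hne
  obtain ⟨v0, hv0⟩ := hlab i0
  have hv0U : v0 ∈ ⋃ i ∈ σ, lab c i := Set.mem_biUnion hi0 hv0
  by_cases hU : ∃ u ∈ ⋃ i ∈ σ, lab c i, u ≠ v0
  · obtain ⟨u, hu, huv⟩ := hU
    right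
    refine ⟨u, v0, ?_, ?_⟩
    · by_contra hadj
      have h1 := hS.sig.two u v0 huv hadj
      have h2 := M.chart.inf (s u) (s v0) hz
      rw [h1, M.chart.zero hz] at h2
      have h3 := lt_min (hev u hu) (hev v0 hv0U)
      linarith
    · ext w
      simp only [Set.mem_insert_iff, Set.mem_singleton_iff]
      constructor
      · intro hw
        by_contra hcon
        push Not at hcon
        have h1 := hS.sig.three w u v0 hcon.1 huv hcon.2
        have h2 := M.chart.inf (s w ⊓ s u) (s v0) hz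
        rw [h1, M.chart.zero hz, M.chart.inf (s w) (s u) hz] at h2
        have h3 := lt_min (lt_min (hev w hw) (hev u hu)) (hev v0 hv0U)
        linarith
      · rintro (rfl | rfl)
        · exact hu
        · exact hv0U
  · left
    push Not at hU
    refine ⟨v0, ?_⟩
    ext w
    simp only [Set.mem_singleton_iff]
    constructor
    · intro hw
      exact hU w hw
    · rintro rfl
      exact hv0U

end Pool.Agent.MP552024
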