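import Pool.Agent.Work.MP_552024_lc.Stmts

/-!
Exactly one vertex with label {v}, MP_552024_lc.
-/

set_option autoImplicit false

namespace Pool.Agent.MP552024

theorem prfF2 (h : S_singleL) (h' : S_nzL) : S_F2 := by
  classical
  intro H _ _ _ V _ Γ M s c hs v
  have hnn : ∀ u i, 0 ≤ c u i := fun u i => (hs.lin u).nonneg (hs.sig.pos u) i
  have hlin : M.Lin (oth s v) (fun i => (∑ u, c u i) - c v i) :=
    (Mdl.Lin.sum Finset.univ hs.lin).sub (hs.lin v)
  have heq : ∀ i, (∑ u, c u i) - c v i = ∑ u ∈ Finset.univ.erase v, c u i := by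
    intro i
    rw [← Finset.add_sum_erase _ _ (Finset.mem_univ v)]
    ring
  have hnn' : ∀ i, 0 ≤ (∑ u, c u i) - c v i := by
    intro i
    rw [heq i]
    exact Finset.sum_nonneg (fun u _ => hnn u i)
  have hoth : 0 ≤ oth s v := hlin.nonneg' hnn'
  obtain ⟨i, hi, huniq⟩ := (h H M _ _ hlin hoth).1 (hs.sig.single v)
  have hnz : ∀ i, 0 < ∑ u, c u i := by
    have hl : M.Lin (∑ u, s u) (fun i => ∑ u, c u i) := Mdl.Lin.sum Finset.univ hs.lin
    refine (h' H M _ _ hl ?_).1 hs.sig.nz
    exact hl.nonneg' (fun i => Finset.sum_nonneg (fun u _ => hnn u i))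
  have key : ∀ j, lab c j = {v} ↔ (∑ u, c u j) - c v j = 0 := by
    intro j
    rw [heq j, Finset.sum_eq_zero_iff_of_nonneg (fun u _ => hnn u j)]
    constructor
    · intro hj u hu
      have h1 : u ∉ lab c j := by
        rw [hj]
        exact (Finset.mem_erase.1 hu).1
      have h2 : ¬ 0 < c u j := h1
      exact le_antisymm (not_lt.1 h2) (hnn u j)
    · intro hj
      have hv : 0 < c v j := by
        have h1 := hnz j
        rw [← Finset.add_sum_erase _ _ (Finset.mem_univ v), Finset.sum_eq_zero hj, add_zero] at h1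
        exact h1
      ext u
      constructor
      · intro hu
        by_contra hne
        have h1 := hj u (Finset.mem_erase.2 ⟨hne, Finset.mem_univ u⟩)
        have h2 : 0 < c u j := hu
        omega
      · intro hu
        have h1 : u = v := hu
        rw [h1]
        exact hv
  refine ⟨i, (key i).2 hi, fun j hj => huniq j ((key j).1 hj)⟩

end Pool.Agent.MP552024
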