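import Pool.Agent.Work.MP_552024_lc.F4

/-!
MP_552024_lc (captain helper82): item F3, the model is thin.
-/

set_option autoImplicit false

namespace Pool.Agent.MP552024

theorem F3_ab (p q : ℝ) (hp : 0 ≤ p) (_hq : 0 ≤ q) :
    min (max (p - (q + q)) 0) (max (q - (p + p)) 0) = 0 := by
  rcases le_total (p - (q + q)) 0 with h | h
  · rw [max_eq_right h]; exact min_eq_left (le_max_right _ _)
  · rw [max_eq_right (show q - (p + p) ≤ 0 by linarith)]
    exact min_eq_right (le_max_right _ _)

theorem F3_ac (p q : ℝ) :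
    min (max (p - (q + q)) 0) (min (max (p + p - q) 0) (max (q + q - p) 0)) = 0 := by
  rcases le_total (p - (q + q)) 0 with h | h
  · rw [max_eq_right h]
    exact min_eq_left (le_min (le_max_right _ _) (le_max_right _ _))
  · rw [max_eq_right (show q + q - p ≤ 0 by linarith), min_eq_right (le_max_right (p + p - q) 0)]
    exact min_eq_right (le_max_right _ _)

theorem F3_bc (p q : ℝ) :
    min (max (q - (p + p)) 0) (min (max (p + p - q) 0) (max (q + q - p) 0)) = 0 := by
  rcases le_total (q - (p + p)) 0 with h | h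
  · rw [max_eq_right h]
    exact min_eq_left (le_min (le_max_right _ _) (le_max_right _ _))
  · rw [max_eq_right (show p + p - q ≤ 0 by linarith), min_eq_left (le_max_right (q + q - p) 0)]
    exact min_eq_right (le_max_right _ _)

theorem F3_case {H : Type} [AddCommGroup H] [Lattice H] [IsOrderedAddMonoid H]
    (hi : S_inc) (hs : S_singleL) (hc : S_clPath)
    (V : Type) [Fintype V] (Γ : SimpleGraph V) (M : Mdl H) (s : V → H) (c : V → M.V → ℤ)
    (h : SigL Γ M s c) (i j k : M.V) (hij : i ≠ j) (hjk : j ≠ k) (hik : i ≠ k)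
    (hf : M.Δ.face {i, j, k}) (u v : V) (huv : Γ.Adj u v) (hlab : lab c i = {u, v}) : False := by
  have hu : 0 < c u i := by
    have : u ∈ lab c i := by rw [hlab]; simp
    exact this
  have hv : 0 < c v i := by
    have : v ∈ lab c i := by rw [hlab]; simp
    exact this
  obtain ⟨t, ht0, hts, htinc, htz⟩ := F4_ray hi hs V Γ M s c h i u v hu hv
  obtain ⟨xj, hxj⟩ := M.chart.hat j
  obtain ⟨xk, hxk⟩ := M.chart.hat k
  have ea : ∀ z ∈ M.Δ.Z, M.ev ((xj - (xk + xk)) ⊔ 0) z = max (z j - (z k + z k)) 0 := by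
    intro z hz
    rw [M.chart.sup _ _ z hz, M.chart.sub _ _ hz, M.chart.add _ _ z hz, M.chart.zero hz,
      hxj z hz, hxk z hz]
  have eb : ∀ z ∈ M.Δ.Z, M.ev ((xk - (xj + xj)) ⊔ 0) z = max (z k - (z j + z j)) 0 := by
    intro z hz
    rw [M.chart.sup _ _ z hz, M.chart.sub _ _ hz, M.chart.add _ _ z hz, M.chart.zero hz,
      hxj z hz, hxk z hz]
  have ec : ∀ z ∈ M.Δ.Z, M.ev (((xj + xj - xk) ⊔ 0) ⊓ ((xk + xk - xj) ⊔ 0)) z =
      min (max (z j + z j - z k) 0) (max (z k + z k - z j) 0) := by
    intro z hz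
    rw [M.chart.inf _ _ hz, M.chart.sup _ _ z hz, M.chart.sup _ _ z hz, M.chart.sub _ _ hz,
      M.chart.sub _ _ hz, M.chart.add _ _ z hz, M.chart.add _ _ z hz, M.chart.zero hz,
      hxj z hz, hxk z hz]
  have hfij : M.Δ.face {i, j} := M.Δ.down _ _ (by
    intro w hw
    simp only [Set.mem_insert_iff, Set.mem_singleton_iff] at hw ⊢
    tauto) hf
  have hfik : M.Δ.face {i, k} := M.Δ.down _ _ (by
    intro w hw
    simp only [Set.mem_insert_iff, Set.mem_singleton_iff] at hw ⊢
    tauto) hf
  refine h.sig.val u v huv t ht0 hts htinc ⟨(xj - (xk + xk)) ⊔ 0, (xk - (xj + xj)) ⊔ 0,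
    ((xj + xj - xk) ⊔ 0) ⊓ ((xk + xk - xj) ⊔ 0),
    ⟨le_sup_right, le_sup_right, le_inf le_sup_right le_sup_right⟩, ⟨?_, ?_, ?_⟩, ?_, ?_, ?_⟩
  · refine M.chart.ext (fun z hz => ?_)
    rw [M.chart.zero hz, M.chart.inf _ _ hz, ea z hz, eb z hz]
    exact F3_ab _ _ (hz.1 j) (hz.1 k)
  · refine M.chart.ext (fun z hz => ?_)
    rw [M.chart.zero hz, M.chart.inf _ _ hz, ea z hz, ec z hz]
    exact F3_ac _ _
  · refine M.chart.ext (fun z hz => ?_)
    rw [M.chart.zero hz, M.chart.inf _ _ hz, eb z hz, ec z hz]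
    exact F3_bc _ _
  · refine hc H M _ t i (pt j) ht0 htz (fun ε hε => ?_)
    have hmem := Cx.pair_mem hfij (zero_le_one (α := ℝ)) hε.le
    simp only [one_mul] at hmem
    refine ⟨hmem, ?_⟩
    rw [ea _ hmem, pt_self, pt_ne hij.symm, pt_ne hik.symm, pt_ne hjk.symm]
    simp only [mul_zero, add_zero, mul_one, zero_add, sub_zero]
    exact lt_max_of_lt_left hε
  · refine hc H M _ t i (pt k) ht0 htz (fun ε hε => ?_)
    have hmem := Cx.pair_mem hfik (zero_le_one (α := ℝ)) hε.le
    simp only [one_mul] at hmem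
    refine ⟨hmem, ?_⟩
    rw [eb _ hmem, pt_self, pt_ne hij.symm, pt_ne hik.symm, pt_ne hjk]
    simp only [mul_zero, add_zero, mul_one, zero_add, sub_zero]
    exact lt_max_of_lt_left hε
  · refine hc H M _ t i (fun l => pt j l + pt k l) ht0 htz (fun ε hε => ?_)
    have hmem : (fun l => pt i l + ε * (pt j l + pt k l)) ∈ M.Δ.Z := by
      refine Cx.mem_Z (fun l => add_nonneg (pt_nonneg _ _)
        (mul_nonneg hε.le (add_nonneg (pt_nonneg _ _) (pt_nonneg _ _)))) _ hf (fun l hl => ?_)
      by_contra hcc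
      simp only [Set.mem_insert_iff, Set.mem_singleton_iff, not_or] at hcc
      apply hl
      rw [pt_ne hcc.1, pt_ne hcc.2.1, pt_ne hcc.2.2]
      ring
    refine ⟨hmem, ?_⟩
    rw [ec _ hmem, pt_self, pt_self, pt_ne hij.symm, pt_ne hik.symm, pt_ne hjk, pt_ne hjk.symm]
    simp only [add_zero, mul_one, zero_add]
    exact lt_min (lt_max_of_lt_left (by linarith)) (lt_max_of_lt_left (by linarith))

theorem prfF3 (h1 : S_F1) (h2 : S_F2) (hi : S_inc) (hs : S_singleL) (hc : S_clPath) : S_F3 := by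
  intro H _ _ _ V _ Γ M s c h i j k hij hjk hik hf
  have hne : ∀ l, (lab c l).Nonempty := by
    intro l
    have := h1 H V Γ M s c h {l} (M.Δ.vert l) (Set.singleton_nonempty l)
    rw [Set.biUnion_singleton] at this
    rcases this with ⟨v, hv⟩ | ⟨u, v, _, hv⟩
    · rw [hv]; exact Set.singleton_nonempty v
    · rw [hv]; exact ⟨u, by simp⟩
  have huniq : ∀ v a b, lab c a = {v} → lab c b = {v} → a = b := by
    intro v a b ha hb
    exact (h2 H V Γ M s c h v).unique ha hb
  have hsub : ∀ l ∈ ({i, j, k} : Set M.V), lab c l ⊆ ⋃ i' ∈ ({i, j, k} : Set M.V), lab c i' :=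
    fun l hl => Set.subset_biUnion_of_mem (u := fun i' => lab c i') hl
  have hsi := hsub i (by simp)
  have hsj := hsub j (by simp)
  have hsk := hsub k (by simp)
  rcases h1 H V Γ M s c h {i, j, k} hf ⟨i, by simp⟩ with ⟨v, hv⟩ | ⟨u, v, huv, hv⟩
  · rw [hv] at hsi hsj
    have ei := (Set.subset_singleton_iff_eq.1 hsi).resolve_left (hne i).ne_empty
    have ej := (Set.subset_singleton_iff_eq.1 hsj).resolve_left (hne j).ne_empty
    exact hij (huniq v i j ei ej)
  · rw [hv] at hsi hsj hsk
    have ei := (Set.subset_pair_iff_eq.1 hsi).resolve_left (hne i).ne_empty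
    have ej := (Set.subset_pair_iff_eq.1 hsj).resolve_left (hne j).ne_empty
    have ek := (Set.subset_pair_iff_eq.1 hsk).resolve_left (hne k).ne_empty
    have ci : lab c i ≠ {u, v} := fun e =>
      F3_case hi hs hc V Γ M s c h i j k hij hjk hik hf u v huv e
    have cj : lab c j ≠ {u, v} := fun e =>
      F3_case hi hs hc V Γ M s c h j i k hij.symm hik hjk (M.Δ.down _ _ (by
        intro w hw
        simp only [Set.mem_insert_iff, Set.mem_singleton_iff] at hw ⊢
        tauto) hf) u v huv e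
    have ck : lab c k ≠ {u, v} := fun e =>
      F3_case hi hs hc V Γ M s c h k i j hik.symm hij hjk.symm (M.Δ.down _ _ (by
        intro w hw
        simp only [Set.mem_insert_iff, Set.mem_singleton_iff] at hw ⊢
        tauto) hf) u v huv e
    rcases ei with ei | ei | ei
    · rcases ej with ej | ej | ej
      · exact hij (huniq u i j ei ej)
      · rcases ek with ek | ek | ek
        · exact hik (huniq u i k ei ek)
        · exact hjk (huniq v j k ej ek)
        · exact ck ek
      · exact cj ej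
    · rcases ej with ej | ej | ej
      · rcases ek with ek | ek | ek
        · exact hjk (huniq u j k ej ek)
        · exact hik (huniq v i k ei ek)
        · exact ck ek
      · exact hij (huniq v i j ei ej)
      · exact cj ej
    · exact ci ei

end Pool.Agent.MP552024
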