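import Pool.Agent.Work.MP_552024_lc.Stmts

/-!
MP_552024_lc (captain helper82): item F4, inner vertices have at most two neighbours.
-/

set_option autoImplicit false

namespace Pool.Agent.MP552024

/-- the element that vanishes exactly on the ray of `i` -/
theorem F4_ray {H : Type} [AddCommGroup H] [Lattice H] [IsOrderedAddMonoid H]
    (hi : S_inc) (hs : S_singleL)
    (V : Type) [Fintype V] (Γ : SimpleGraph V) (M : Mdl H) (s : V → H) (c : V → M.V → ℤ)
    (h : SigL Γ M s c) (i : M.V) (u v : V) (hu : 0 < c u i) (hv : 0 < c v i) :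
    ∃ t : H, 0 ≤ t ∧ Single t ∧ ¬ Inc (s u ⊓ s v) t ∧
      ∀ z ∈ M.Δ.Z, M.ev t z = 0 → ∀ j, j ≠ i → z j = 0 := by
  classical
  obtain ⟨t, ht⟩ := M.exists_lin (fun l => if l = i then 0 else 1)
  have ht0 : 0 ≤ t := ht.nonneg' (fun l => by split_ifs <;> norm_num)
  refine ⟨t, ht0, ?_, ?_, ?_⟩
  · refine (hs H M t _ ht ht0).2 ⟨i, by simp, fun j hj => ?_⟩
    by_contra hne
    simp [hne] at hj
  · intro hinc
    have h1 := (hi H M (s u ⊓ s v) t (le_inf (h.sig.pos u) (h.sig.pos v)) ht0).1 hinc (pt i)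
      (Cx.pt_mem i) (by rw [ht.pt]; simp)
    rw [M.chart.inf _ _ (Cx.pt_mem i), (h.lin u).pt, (h.lin v).pt] at h1
    have hu' : (0 : ℝ) < c u i := by exact_mod_cast hu
    have hv' : (0 : ℝ) < c v i := by exact_mod_cast hv
    have := lt_min hu' hv'
    linarith
  · intro z hz hz0 j hj
    rw [ht z hz] at hz0
    have h2 := (Finset.sum_eq_zero_iff_of_nonneg (fun l _ => by
      refine mul_nonneg ?_ (hz.1 l)
      show (0 : ℝ) ≤ (((if l = i then 0 else 1 : ℤ)) : ℝ)
      split_ifs <;> norm_num)).1 hz0 j (Finset.mem_univ j)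
    simpa [hj] using h2

theorem prfF4 (hi : S_inc) (hs : S_singleL) (hc : S_clPath) : S_F4 := by
  intro H _ _ _ V _ Γ M s c h hthin i u v huv hlab j k l hij hik hil
  by_contra hcon
  simp only [not_or] at hcon
  obtain ⟨hjk, hjl, hkl⟩ := hcon
  have hu : 0 < c u i := by
    have : u ∈ lab c i := by rw [hlab]; simp
    exact this
  have hv : 0 < c v i := by
    have : v ∈ lab c i := by rw [hlab]; simp
    exact this
  obtain ⟨t, ht0, hts, htinc, htz⟩ := F4_ray hi hs V Γ M s c h i u v hu hv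
  choose x hx using M.chart.hat
  have hx0 : ∀ a, 0 ≤ x a := fun a => M.chart.nonneg_iff.2 (fun z hz => by
    rw [hx a z hz]; exact hz.1 a)
  have hdis : ∀ a b, a ≠ i → b ≠ i → a ≠ b → (x i ⊓ x a) ⊓ (x i ⊓ x b) = 0 := by
    intro a b ha hb hab
    refine M.chart.ext (fun z hz => ?_)
    rw [M.chart.zero hz, M.chart.inf _ _ hz, M.chart.inf _ _ hz, M.chart.inf _ _ hz, hx i z hz,
      hx a z hz, hx b z hz]
    by_contra hne
    have hi0 := hz.1 i
    have ha0 := hz.1 a
    have hb0 := hz.1 b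
    have h1 : z i ≠ 0 := fun h0 => hne (by
      rw [h0, min_eq_left ha0, min_eq_left hb0, min_self])
    have h2 : z a ≠ 0 := fun h0 => hne (by
      rw [h0, min_eq_right hi0]
      exact min_eq_left (le_min hi0 hb0))
    have h3 : z b ≠ 0 := fun h0 => hne (by
      rw [h0, min_eq_right hi0]
      exact min_eq_right (le_min hi0 ha0))
    refine hthin i a b ha.symm hab hb.symm (Cx.face_of_mem hz _ ?_)
    intro w hw
    rcases hw with rfl | rfl | hw
    · exact h1
    · exact h2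
    · rw [Set.mem_singleton_iff] at hw
      rw [hw]; exact h3
  have hcl : ∀ a, M.Δ.gr.Adj i a → Cl (x i ⊓ x a) t := by
    intro a ha
    refine hc H M _ t i (pt a) ht0 htz (fun ε hε => ?_)
    have hmem := Cx.pair_mem ha.2 (zero_le_one (α := ℝ)) hε.le
    simp only [one_mul] at hmem
    refine ⟨hmem, ?_⟩
    rw [M.chart.inf _ _ hmem, hx i _ hmem, hx a _ hmem, pt_self, pt_self, pt_ne ha.1,
      pt_ne ha.1.symm]
    simp only [mul_zero, add_zero, mul_one, zero_add]
    exact lt_min one_pos hε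
  refine h.sig.val u v huv t ht0 hts htinc ⟨x i ⊓ x j, x i ⊓ x k, x i ⊓ x l,
    ⟨le_inf (hx0 _) (hx0 _), le_inf (hx0 _) (hx0 _), le_inf (hx0 _) (hx0 _)⟩,
    ⟨hdis j k hij.1.symm hik.1.symm hjk, hdis j l hij.1.symm hil.1.symm hjl,
      hdis k l hik.1.symm hil.1.symm hkl⟩, hcl j hij, hcl k hik, hcl l hil⟩

end Pool.Agent.MP552024
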