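import Pool.Agent.Work.MP_552024_lc.Stmts

/-!
MP_552024_lc, item F5 (helper17): the inner part of an edge is connected.
-/

set_option autoImplicit false

namespace Pool.Agent.MP552024

/-- linear elements at a point of an edge -/
theorem f5_pair {G : Type} [AddCommGroup G] [Lattice G] {M : Mdl G} {g : G} {c : M.V → ℤ}
    (hg : M.Lin g c) {i j : M.V} (hf : M.Δ.face {i, j}) :
    M.ev g (fun l => 1 * pt i l + 1 * pt j l) = (c i : ℝ) + c j := by
  classical
  rw [hg _ (Cx.pair_mem hf zero_le_one zero_le_one)]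
  simp only [one_mul, mul_add, Finset.sum_add_distrib]
  rw [Finset.sum_eq_single i, Finset.sum_eq_single j, pt_self, pt_self, mul_one, mul_one]
  · intro l _ hl; rw [pt_ne hl, mul_zero]
  · intro h; exact absurd (Finset.mem_univ _) h
  · intro l _ hl; rw [pt_ne hl, mul_zero]
  · intro h; exact absurd (Finset.mem_univ _) h

theorem prfF5 (h1 : S_F1) : S_F5 := by
  classical
  intro H _ _ _ V _ Γ M s c hS hthin u v huv B hBne hBlab hBcl
  have hne : u ≠ v := huv.ne
  have hpos : ∀ w, ∀ l, 0 ≤ c w l := fun w l => (hS.lin w).nonneg (hS.sig.pos w) l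
  -- the bound
  obtain ⟨K, hKu, hKv⟩ : ∃ K : ℤ, (∀ l, c u l ≤ K) ∧ (∀ l, c v l ≤ K) := by
    refine ⟨∑ l, (c u l + c v l), fun l => ?_, fun l => ?_⟩
    · have h2 : c u l + c v l ≤ ∑ l, (c u l + c v l) :=
        Finset.single_le_sum (f := fun l => c u l + c v l)
          (fun l _ => add_nonneg (hpos u l) (hpos v l)) (Finset.mem_univ l)
      have := hpos v l
      omega
    · have h2 : c u l + c v l ≤ ∑ l, (c u l + c v l) :=
        Finset.single_le_sum (f := fun l => c u l + c v l)
          (fun l _ => add_nonneg (hpos u l) (hpos v l)) (Finset.mem_univ l)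
      have := hpos u l
      omega
  obtain ⟨XB, hXB⟩ := M.exists_lin (fun i => if i ∈ B then K else 0)
  have hWev : ∀ z ∈ M.Δ.Z, M.ev (s u ⊓ s v) z = min (M.ev (s u) z) (M.ev (s v) z) :=
    fun z hz => M.chart.inf _ _ hz
  have hev : ∀ w, ∀ z ∈ M.Δ.Z, 0 ≤ M.ev (s w) z := fun w => M.chart.nonneg_iff.1 (hS.sig.pos w)
  -- labels over a face
  have hlab2 : ∀ σ : Set M.V, M.Δ.face σ → ∀ i ∈ σ, lab c i = {u, v} → ∀ l ∈ σ,
      lab c l ⊆ {u, v} := by
    intro σ hσ i hi hil l hl
    have hsub : ∀ k ∈ σ, lab c k ⊆ ⋃ i ∈ σ, lab c i := fun k hk =>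
      Set.subset_biUnion_of_mem (u := fun i => lab c i) hk
    have hu : u ∈ ⋃ i ∈ σ, lab c i := hsub i hi (by rw [hil]; exact Or.inl rfl)
    have hv : v ∈ ⋃ i ∈ σ, lab c i := hsub i hi (by rw [hil]; exact Or.inr rfl)
    have hsl := hsub l hl
    rcases h1 H V Γ M s c hS σ hσ ⟨i, hi⟩ with ⟨w, hw⟩ | ⟨w, w', _, hw⟩
    · rw [hw, Set.mem_singleton_iff] at hu hv
      exact absurd (hu.trans hv.symm) hne
    · rw [hw] at hu hv hsl
      simp only [Set.mem_insert_iff, Set.mem_singleton_iff] at hu hv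
      refine hsl.trans ?_
      rcases hu with rfl | rfl
      · rcases hv with rfl | rfl
        · exact absurd rfl hne
        · exact subset_rfl
      · rcases hv with rfl | rfl
        · rw [Set.pair_comm]
        · exact absurd rfl hne
  -- the main dichotomy
  have key : ∀ z ∈ M.Δ.Z, M.ev XB z = 0 ∨ M.ev (s u ⊓ s v) z ≤ M.ev XB z := by
    intro z hz
    by_cases hA : ∀ l, z l ≠ 0 → l ∉ B
    · left
      rw [hXB z hz]
      refine Finset.sum_eq_zero fun l _ => ?_
      dsimp only
      by_cases hl : z l = 0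
      · rw [hl, mul_zero]
      · rw [if_neg (hA l hl)]
        simp
    right
    push Not at hA
    obtain ⟨i, hzi, hiB⟩ := hA
    have hface : M.Δ.face {l | z l ≠ 0} := hz.2
    have hsub : ∀ l, z l ≠ 0 → lab c l ⊆ {u, v} := fun l hl =>
      hlab2 _ hface i hzi (hBlab i hiB) l hl
    rw [hWev z hz]
    by_cases hB1 : ∀ l, z l ≠ 0 → l ∈ B
    · refine (min_le_left _ _).trans ?_
      rw [hS.lin u z hz, hXB z hz]
      refine Finset.sum_le_sum fun l _ => ?_
      dsimp only
      by_cases hl : z l = 0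
      · rw [hl, mul_zero, mul_zero]
      · rw [if_pos (hB1 l hl)]
        exact mul_le_mul_of_nonneg_right (by exact_mod_cast hKu l) (hz.1 l)
    push Not at hB1
    obtain ⟨j, hzj, hjB⟩ := hB1
    have hij : i ≠ j := fun h => hjB (h ▸ hiB)
    have hfij : M.Δ.face {i, j} := by
      refine Cx.face_of_mem hz _ fun l hl => ?_
      rcases hl with rfl | hl
      · exact hzi
      · rw [Set.mem_singleton_iff] at hl
        subst hl
        exact hzj
    have hjlab : lab c j ≠ {u, v} := fun h => hjB (hBcl i hiB j h ⟨hij, hfij⟩)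
    have hother : ∀ l, l ≠ i → l ≠ j → z l = 0 := by
      intro l hli hlj
      by_contra hl
      refine hthin i j l hij (Ne.symm hlj) (Ne.symm hli) (Cx.face_of_mem hz _ ?_)
      intro k hk
      simp only [Set.mem_insert_iff, Set.mem_singleton_iff] at hk
      rcases hk with rfl | rfl | rfl
      · exact hzi
      · exact hzj
      · exact hl
    -- one of the two coefficients vanishes at j
    have hzero : c u j = 0 ∨ c v j = 0 := by
      by_contra hcon
      push Not at hcon
      refine hjlab (subset_antisymm (hsub j hzj) ?_)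
      rintro w (rfl | hw)
      · exact lt_of_le_of_ne (hpos _ _) (Ne.symm hcon.1)
      · rw [Set.mem_singleton_iff] at hw
        subst hw
        exact lt_of_le_of_ne (hpos _ _) (Ne.symm hcon.2)
    have hfin : ∀ w, (∀ l, c w l ≤ K) → c w j = 0 → M.ev (s w) z ≤ M.ev XB z := by
      intro w hKw hw
      rw [hS.lin w z hz, hXB z hz]
      refine Finset.sum_le_sum fun l _ => ?_
      dsimp only
      by_cases hli : l = i
      · rw [if_pos (by rw [hli]; exact hiB)]
        exact mul_le_mul_of_nonneg_right (by exact_mod_cast hKw l) (hz.1 l)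
      by_cases hlj : l = j
      · rw [if_neg (by rw [hlj]; exact hjB), hlj, hw]
      · rw [hother l hli hlj, mul_zero, mul_zero]
    rcases hzero with h | h
    · exact (min_le_left _ _).trans (hfin u hKu h)
    · exact (min_le_right _ _).trans (hfin v hKv h)
  have hW0 : ∀ z ∈ M.Δ.Z, 0 ≤ M.ev (s u ⊓ s v) z := by
    intro z hz
    rw [hWev z hz]
    exact le_min (hev u z hz) (hev v z hz)
  have hxev : ∀ z ∈ M.Δ.Z, M.ev (s u ⊓ s v ⊓ XB) z = M.ev (s u ⊓ s v) z ∨
      M.ev (s u ⊓ s v ⊓ XB) z = 0 := by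
    intro z hz
    rw [M.chart.inf (s u ⊓ s v) XB hz]
    rcases key z hz with h | h
    · right; rw [h]; exact min_eq_right (hW0 z hz)
    · left; exact min_eq_left h
  have hxy : (s u ⊓ s v ⊓ XB) ⊓ (s u ⊓ s v - s u ⊓ s v ⊓ XB) = 0 := by
    refine M.chart.inj _ fun z hz => ?_
    rw [M.chart.inf _ _ hz, M.chart.sub _ _ hz]
    rcases hxev z hz with h | h
    · rw [h, sub_self]; exact min_eq_right (hW0 z hz)
    · rw [h, sub_zero]; exact min_eq_left (hW0 z hz)
  have hadd : (s u ⊓ s v ⊓ XB) + (s u ⊓ s v - s u ⊓ s v ⊓ XB) = s u ⊓ s v := by abel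
  have hlabpos : ∀ i, lab c i = {u, v} → 0 < c u i ∧ 0 < c v i := by
    intro i hi
    constructor
    · have : u ∈ lab c i := by rw [hi]; exact Or.inl rfl
      exact this
    · have : v ∈ lab c i := by rw [hi]; exact Or.inr rfl
      exact this
  have hWpt : ∀ i, lab c i = {u, v} → 0 < M.ev (s u ⊓ s v) (pt i) := by
    intro i hi
    rw [hWev _ (Cx.pt_mem i), (hS.lin u).pt, (hS.lin v).pt]
    obtain ⟨h2, h3⟩ := hlabpos i hi
    exact lt_min (by exact_mod_cast h2) (by exact_mod_cast h3)
  have hxne : s u ⊓ s v ⊓ XB ≠ 0 := by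
    obtain ⟨i, hi⟩ := hBne
    intro h
    have h2 : M.ev (s u ⊓ s v ⊓ XB) (pt i) = 0 := by rw [h]; exact M.chart.zero (Cx.pt_mem i)
    rw [M.chart.inf _ _ (Cx.pt_mem i), hXB.pt, if_pos hi] at h2
    have h3 := hWpt i (hBlab i hi)
    have h4 : (0 : ℝ) < (K : ℝ) := by
      have := (hlabpos i (hBlab i hi)).1
      exact_mod_cast this.trans_le (hKu i)
    exact absurd h2 (lt_min h3 h4).ne'
  have hle : ∀ z ∈ M.Δ.Z, M.ev (s u ⊓ s v) z ≤ M.ev XB z := by
    rcases hS.sig.conn u v huv _ _ hxy hadd with h | h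
    · exact absurd h hxne
    · intro z hz
      have h2 : s u ⊓ s v = s u ⊓ s v ⊓ XB := sub_eq_zero.1 h
      rw [h2, M.chart.inf _ _ hz]
      exact min_le_right _ _
  refine ⟨fun i hi => ?_, fun i j hi hj hadj => ?_⟩
  · by_contra hiB
    have h2 := hle (pt i) (Cx.pt_mem i)
    rw [hXB.pt, if_neg hiB] at h2
    have h3 := hWpt i hi
    simp only [Int.cast_zero] at h2
    exact absurd h3 (not_lt.2 h2)
  · obtain ⟨hij, hfij⟩ := hadj
    have hi' : i ∉ B := by
      intro h
      have h2 := hBlab i h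
      rw [hi] at h2
      have : v ∈ ({u} : Set V) := by rw [h2]; exact Or.inr rfl
      exact hne (Set.mem_singleton_iff.1 this).symm
    have hj' : j ∉ B := by
      intro h
      have h2 := hBlab j h
      rw [hj] at h2
      have : u ∈ ({v} : Set V) := by rw [h2]; exact Or.inl rfl
      exact hne (Set.mem_singleton_iff.1 this)
    have hmem : (fun l => 1 * pt i l + 1 * pt j l) ∈ M.Δ.Z := Cx.pair_mem hfij zero_le_one zero_le_one
    have h2 := hle _ hmem
    rw [hWev _ hmem, f5_pair (hS.lin u) hfij, f5_pair (hS.lin v) hfij, f5_pair hXB hfij,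
      if_neg hi', if_neg hj'] at h2
    have hui : 0 < c u i := by
      have : u ∈ lab c i := by rw [hi]; rfl
      exact this
    have hvj : 0 < c v j := by
      have : v ∈ lab c j := by rw [hj]; rfl
      exact this
    have h3 : (0 : ℝ) < (c u i : ℝ) + c u j := by
      have := hpos u j
      exact_mod_cast (by omega : 0 < c u i + c u j)
    have h4 : (0 : ℝ) < (c v i : ℝ) + c v j := by
      have := hpos v i
      exact_mod_cast (by omega : 0 < c v i + c v j)
    have h5 := lt_min h3 h4
    simp only [Int.cast_zero, add_zero] at h2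
    exact absurd h5 (not_lt.2 h2)

end Pool.Agent.MP552024
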