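import Pool.Agent.Work.MP_552024_lc.Stmts

/-!
MP_552024_lc: S_F6, every edge starts at its end point.
-/

set_option autoImplicit false

namespace Pool.Agent.MP552024

theorem prfF6 (h1 : S_F1) (h2 : S_F2) (hi : S_incL) : S_F6 := by
  classical
  intro H _ _ _ V _ Γ M s c hS _ u v huv
  have hc0 : ∀ v i, 0 ≤ c v i := fun v i => (hS.lin v).nonneg (hS.sig.pos v) i
  have hne : u ≠ v := huv.ne
  obtain ⟨i, hlab, -⟩ := h2 H V Γ M s c hS v
  by_contra hcon
  push Not at hcon
  have hzero : ∀ a, a ≠ v → c a i = 0 := by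
    intro a ha
    have h3 : a ∉ lab c i := by rw [hlab]; exact ha
    have h4 : ¬ 0 < c a i := h3
    have := hc0 a i
    omega
  have hv : v ∈ lab c i := by rw [hlab]; rfl
  obtain ⟨y, hy⟩ := M.chart.hat i
  have hy0 : 0 ≤ y := M.chart.nonneg_iff.2 (fun z hz => by rw [hy z hz]; exact hz.1 i)
  have hylin : M.Lin y (fun j => if j = i then 1 else 0) := by
    intro z hz
    rw [hy z hz]
    simp
  have hdis : y ⊓ (s u ⊓ s v) = 0 := by
    refine M.chart.ext (fun z hz => ?_)
    rw [M.chart.inf _ _ hz, M.chart.inf _ _ hz, M.chart.zero hz, hy z hz]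
    have hu0 := M.chart.nonneg_iff.1 (hS.sig.pos u) z hz
    have hv0 := M.chart.nonneg_iff.1 (hS.sig.pos v) z hz
    by_cases hzi : z i = 0
    · rw [hzi]
      exact min_eq_left (le_min hu0 hv0)
    · have hsu : M.ev (s u) z = 0 := by
        rw [hS.lin u z hz]
        refine Finset.sum_eq_zero (fun j _ => ?_)
        by_contra hj
        have hzj : z j ≠ 0 := fun h => hj (by rw [h, mul_zero])
        have hcj : c u j ≠ 0 := fun h => hj (by rw [h]; simp)
        have hcj' : 0 < c u j := lt_of_le_of_ne (hc0 u j) (Ne.symm hcj)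
        have hij : i ≠ j := by
          rintro rfl
          exact hcj (hzero u hne)
        have hface : M.Δ.face {i, j} := by
          refine Cx.face_of_mem hz _ ?_
          rintro l (rfl | hl)
          · exact hzi
          · rw [Set.mem_singleton_iff] at hl
            rw [hl]
            exact hzj
        refine hcon i j hlab ⟨hij, hface⟩ ?_
        have hvU : v ∈ ⋃ l ∈ ({i, j} : Set M.V), lab c l := Set.mem_biUnion (Or.inl rfl) hv
        have huU : u ∈ ⋃ l ∈ ({i, j} : Set M.V), lab c l :=
          Set.mem_biUnion (Or.inr rfl : j ∈ ({i, j} : Set M.V)) hcj'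
        have hsub : lab c j ⊆ ⋃ l ∈ ({i, j} : Set M.V), lab c l := fun w hw =>
          Set.mem_biUnion (Or.inr rfl : j ∈ ({i, j} : Set M.V)) hw
        rcases h1 H V Γ M s c hS {i, j} hface ⟨i, Or.inl rfl⟩ with ⟨w, hw⟩ | ⟨w, w', -, hw⟩
        · rw [hw] at hvU huU
          rw [Set.mem_singleton_iff] at hvU huU
          exact absurd (huU.trans hvU.symm) hne
        · rw [hw] at hvU huU hsub
          refine hsub.trans ?_
          simp only [Set.mem_insert_iff, Set.mem_singleton_iff] at hvU huU
          rintro x hx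
          simp only [Set.mem_insert_iff, Set.mem_singleton_iff] at hx ⊢
          rcases hvU with rfl | rfl <;> rcases huU with rfl | rfl <;> tauto
      rw [hsu, min_eq_left hv0]
      exact min_eq_right (hz.1 i)
  have hinc := hS.sig.cl u v huv y hy0 hdis
  have hoth : M.Lin (oth s v) (fun l => (∑ a, c a l) - c v l) :=
    (Mdl.Lin.sum Finset.univ hS.lin).sub (hS.lin v)
  have hoth0 : 0 ≤ oth s v := by
    refine hoth.nonneg' (fun l => ?_)
    have := Finset.single_le_sum (f := fun a => c a l) (fun a _ => hc0 a l) (Finset.mem_univ v)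
    linarith
  have h5 := (hi H M y (oth s v) _ _ hylin hoth hy0 hoth0).1 hinc i (by
    rw [Finset.sum_eq_single v (fun a _ ha => hzero a ha)
      (fun h => absurd (Finset.mem_univ v) h)]
    exact sub_self _)
  simp at h5

end Pool.Agent.MP552024
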