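import Pool.Agent.Work.MP_552024_lc.Stmts

/-!
MP_552024_lc: S_G3, the chart when a vertex of degree two is removed.
-/

set_option autoImplicit false

namespace Pool.Agent.MP552024

theorem G3_mem {V : Type} [Nonempty V] {Γ : SimpleGraph V} {z : V → ℝ} :
    z ∈ (Cx.ofGraph Γ).Z ↔ (∀ i, 0 ≤ z i) ∧
      ∃ u v, (u = v ∨ Γ.Adj u v) ∧ ∀ w, z w ≠ 0 → w = u ∨ w = v := by
  constructor
  · rintro ⟨h1, h2 | ⟨u, v, huv, h2⟩⟩
    · refine ⟨h1, Classical.arbitrary V, Classical.arbitrary V, Or.inl rfl, fun w hw => ?_⟩
      have : w ∈ ({i | z i ≠ 0} : Set V) := hw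
      rw [h2] at this
      exact absurd this (Set.notMem_empty w)
    · exact ⟨h1, u, v, huv, fun w hw => h2 hw⟩
  · rintro ⟨h1, u, v, huv, h2⟩
    exact ⟨h1, Or.inr ⟨u, v, huv, fun w hw => h2 w hw⟩⟩

theorem prfG3 : S_G3 := by
  classical
  intro H _ _ _ W A i p k hip hik hpk hnpk hnb ev hc
  have hp : p ≠ i := hip.ne.symm
  have hk : k ≠ i := hik.ne.symm
  set P : {w : W // w ≠ i} := ⟨p, hp⟩ with hP
  set K : {w : W // w ≠ i} := ⟨k, hk⟩ with hK
  have : Nonempty W := ⟨i⟩
  have : Nonempty {w : W // w ≠ i} := ⟨P⟩
  have hPK : P ≠ K := fun h => hpk (congrArg Subtype.val h)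
  set T : ({w : W // w ≠ i} → ℝ) → W → ℝ := fun z w =>
    if h : w = i then min (z P) (z K)
    else z ⟨w, h⟩ - (if w = p ∨ w = k then min (z P) (z K) else 0) with hT
  set R : (W → ℝ) → {w : W // w ≠ i} → ℝ := fun z w =>
    z w.1 + (if w.1 = p ∨ w.1 = k then z i else 0) with hR
  have hTi : ∀ z, T z i = min (z P) (z K) := fun z => by simp [hT]
  have hTw : ∀ z (w : W) (h : w ≠ i), T z w =
      z ⟨w, h⟩ - (if w = p ∨ w = k then min (z P) (z K) else 0) := fun z w h => by simp [hT, h]
  have hadjPK : (delG A i p k).Adj P K := ⟨hPK, Or.inr (Or.inl ⟨rfl, rfl⟩)⟩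
  refine ⟨_, hc.transport T R ?_ ?_ ?_ ?_ ?_ ?_⟩
  · intro w
    by_cases h : w = i
    · subst h
      simp only [hTi]
      exact LP_min (LP_coord _) (LP_coord _)
    · simp only [hTw _ w h]
      split_ifs
      · exact LP_sub (LP_coord _) (LP_min (LP_coord _) (LP_coord _))
      · exact LP_sub (LP_coord _) LP_zero
  · intro w
    simp only [hR]
    split_ifs
    · exact LP_add (LP_coord _) (LP_coord _)
    · exact LP_add (LP_coord _) LP_zero
  · -- T maps Z' to Z
    intro z hz
    rw [G3_mem] at hz ⊢
    obtain ⟨h0, u, v, huv, hsupp⟩ := hz
    have hm0 : 0 ≤ min (z P) (z K) := le_min (h0 P) (h0 K)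
    refine ⟨fun w => ?_, ?_⟩
    · by_cases h : w = i
      · rw [h, hTi]; exact hm0
      · rw [hTw z w h]
        split_ifs with h5
        · rcases h5 with rfl | rfl
          · exact sub_nonneg.2 (min_le_left _ _)
          · exact sub_nonneg.2 (min_le_right _ _)
        · rw [sub_zero]; exact h0 _
    · by_cases hm : min (z P) (z K) = 0
      · have hTz : ∀ w, T z w ≠ 0 → ∃ h : w ≠ i, z ⟨w, h⟩ ≠ 0 := by
          intro w hw
          by_cases h : w = i
          · rw [h, hTi] at hw; exact absurd hm hw
          · rw [hTw z w h, hm] at hw
            simp only [ite_self, sub_zero] at hw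
            exact ⟨h, hw⟩
        have hPKz : z P = 0 ∨ z K = 0 := by
          rcases min_choice (z P) (z K) with h | h
          · left; rw [← h]; exact hm
          · right; rw [← h]; exact hm
        rcases huv with huv | ⟨hne, hadj | ⟨hu, hv⟩ | ⟨hu, hv⟩⟩
        · refine ⟨u.1, u.1, Or.inl rfl, fun w hw => ?_⟩
          obtain ⟨h, hw'⟩ := hTz w hw
          rcases hsupp _ hw' with h6 | h6
          · left; rw [← h6]
          · left; rw [huv, ← h6]
        · refine ⟨u.1, v.1, Or.inr hadj, fun w hw => ?_⟩
          obtain ⟨h, hw'⟩ := hTz w hw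
          rcases hsupp _ hw' with h6 | h6
          · left; rw [← h6]
          · right; rw [← h6]
        · have hu' : u = P := Subtype.ext hu
          have hv' : v = K := Subtype.ext hv
          subst hu' hv'
          rcases hPKz with h7 | h7
          · refine ⟨k, k, Or.inl rfl, fun w hw => ?_⟩
            obtain ⟨h, hw'⟩ := hTz w hw
            rcases hsupp _ hw' with h6 | h6
            · rw [h6] at hw'; exact absurd h7 hw'
            · left; exact congrArg Subtype.val h6
          · refine ⟨p, p, Or.inl rfl, fun w hw => ?_⟩
            obtain ⟨h, hw'⟩ := hTz w hw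
            rcases hsupp _ hw' with h6 | h6
            · left; exact congrArg Subtype.val h6
            · rw [h6] at hw'; exact absurd h7 hw'
        · have hu' : u = K := Subtype.ext hu
          have hv' : v = P := Subtype.ext hv
          subst hu' hv'
          rcases hPKz with h7 | h7
          · refine ⟨k, k, Or.inl rfl, fun w hw => ?_⟩
            obtain ⟨h, hw'⟩ := hTz w hw
            rcases hsupp _ hw' with h6 | h6
            · left; exact congrArg Subtype.val h6
            · rw [h6] at hw'; exact absurd h7 hw'
          · refine ⟨p, p, Or.inl rfl, fun w hw => ?_⟩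
            obtain ⟨h, hw'⟩ := hTz w hw
            rcases hsupp _ hw' with h6 | h6
            · rw [h6] at hw'; exact absurd h7 hw'
            · left; exact congrArg Subtype.val h6
      · have hmpos : 0 < min (z P) (z K) := lt_of_le_of_ne hm0 (Ne.symm hm)
        have hzP : z P ≠ 0 := (lt_of_lt_of_le hmpos (min_le_left _ _)).ne'
        have hzK : z K ≠ 0 := (lt_of_lt_of_le hmpos (min_le_right _ _)).ne'
        have hsupp' : ∀ w, z w ≠ 0 → w = P ∨ w = K := by
          intro w hw
          have e1 := hsupp P hzP
          have e2 := hsupp K hzK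
          have e3 := hsupp w hw
          rcases e1 with e1 | e1 <;> rcases e2 with e2 | e2
          · exact absurd (e1.trans e2.symm) hPK
          · rcases e3 with e3 | e3
            · left; rw [e3, e1]
            · right; rw [e3, e2]
          · rcases e3 with e3 | e3
            · right; rw [e3, e2]
            · left; rw [e3, e1]
          · exact absurd (e1.trans e2.symm) hPK
        rcases le_total (z P) (z K) with hle | hle
        · refine ⟨i, k, Or.inr hik, fun w hw => ?_⟩
          by_cases h : w = i
          · left; exact h
          right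
          rw [hTw z w h, min_eq_left hle] at hw
          by_cases hwp : w = p
          · exfalso
            apply hw
            subst hwp
            simp [hP]
          by_contra hwk
          rw [if_neg (by tauto), sub_zero] at hw
          rcases hsupp' _ hw with h6 | h6
          · exact hwp (congrArg Subtype.val h6)
          · exact hwk (congrArg Subtype.val h6)
        · refine ⟨i, p, Or.inr hip, fun w hw => ?_⟩
          by_cases h : w = i
          · left; exact h
          right
          rw [hTw z w h, min_eq_right hle] at hw
          by_cases hwk : w = k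
          · exfalso
            apply hw
            subst hwk
            simp [hK]
          by_contra hwp
          rw [if_neg (by tauto), sub_zero] at hw
          rcases hsupp' _ hw with h6 | h6
          · exact hwp (congrArg Subtype.val h6)
          · exact hwk (congrArg Subtype.val h6)
  · -- R maps Z to Z'
    intro z hz
    rw [G3_mem] at hz ⊢
    obtain ⟨h0, u, v, huv, hsupp⟩ := hz
    refine ⟨fun w => ?_, ?_⟩
    · simp only [hR]
      split_ifs
      · exact add_nonneg (h0 _) (h0 _)
      · rw [add_zero]; exact h0 _
    · by_cases hzi : z i = 0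
      · have hRz : ∀ w : {w : W // w ≠ i}, R z w ≠ 0 → z w.1 ≠ 0 := by
          intro w hw h
          apply hw
          simp [hR, h, hzi]
        by_cases hu : u = i
        · by_cases hv : v = i
          · refine ⟨P, P, Or.inl rfl, fun w hw => ?_⟩
            rcases hsupp _ (hRz w hw) with h | h
            · exact absurd (h.trans hu) w.2
            · exact absurd (h.trans hv) w.2
          · refine ⟨⟨v, hv⟩, ⟨v, hv⟩, Or.inl rfl, fun w hw => ?_⟩
            rcases hsupp _ (hRz w hw) with h | h
            · exact absurd (h.trans hu) w.2
            · left; exact Subtype.ext h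
        · by_cases hv : v = i
          · refine ⟨⟨u, hu⟩, ⟨u, hu⟩, Or.inl rfl, fun w hw => ?_⟩
            rcases hsupp _ (hRz w hw) with h | h
            · left; exact Subtype.ext h
            · exact absurd (h.trans hv) w.2
          · refine ⟨⟨u, hu⟩, ⟨v, hv⟩, ?_, fun w hw => ?_⟩
            · rcases huv with rfl | h
              · left; rfl
              · right
                exact ⟨fun h' => h.ne (congrArg Subtype.val h'), Or.inl h⟩
            · rcases hsupp _ (hRz w hw) with h | h
              · left; exact Subtype.ext h
              · right; exact Subtype.ext h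
      · refine ⟨P, K, Or.inr hadjPK, fun w hw => ?_⟩
        by_contra hcon
        push Not at hcon
        have hwp : w.1 ≠ p := fun h => hcon.1 (Subtype.ext h)
        have hwk : w.1 ≠ k := fun h => hcon.2 (Subtype.ext h)
        have hzw : z w.1 ≠ 0 := by
          intro h
          apply hw
          simp [hR, h, hwp, hwk]
        have hadj : A.Adj i w.1 := by
          rcases hsupp i hzi with h1 | h1 <;> rcases hsupp _ hzw with h2 | h2
          · exact absurd (h2.trans h1.symm) w.2
          · rcases huv with h3 | h3
            · exact absurd (h2.trans (h3.symm.trans h1.symm)) w.2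
            · rw [← h1, ← h2] at h3; exact h3
          · rcases huv with h3 | h3
            · exact absurd (h2.trans (h3.trans h1.symm)) w.2
            · rw [← h1, ← h2] at h3; exact h3.symm
          · exact absurd (h2.trans h1.symm) w.2
        rcases hnb _ hadj with h | h
        · exact hwp h
        · exact hwk h
  · -- R (T z) = z
    intro z _
    funext w
    simp only [hR]
    rw [hTi, hTw z w.1 w.2]
    split_ifs <;> ring
  · -- T (R z) = z
    intro z hz
    rw [G3_mem] at hz
    obtain ⟨h0, u, v, huv, hsupp⟩ := hz
    have hmin : min (z p) (z k) = 0 := by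
      by_contra hne
      have hpos : 0 < min (z p) (z k) := lt_of_le_of_ne (le_min (h0 p) (h0 k)) (Ne.symm hne)
      have hzp : z p ≠ 0 := (lt_of_lt_of_le hpos (min_le_left _ _)).ne'
      have hzk : z k ≠ 0 := (lt_of_lt_of_le hpos (min_le_right _ _)).ne'
      rcases hsupp p hzp with h1 | h1 <;> rcases hsupp k hzk with h2 | h2
      · exact hpk (h1.trans h2.symm)
      · rcases huv with h3 | h3
        · exact hpk (h1.trans (h3.trans h2.symm))
        · exact hnpk (by rw [h1, h2]; exact h3)
      · rcases huv with h3 | h3
        · exact hpk (h1.trans (h3.symm.trans h2.symm))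
        · exact hnpk (by rw [h1, h2]; exact h3.symm)
      · exact hpk (h1.trans h2.symm)
    have hRP : R z P = z p + z i := by simp [hR, hP]
    have hRK : R z K = z k + z i := by simp [hR, hK]
    have hmin' : min (R z P) (R z K) = z i := by
      rw [hRP, hRK, min_add_add_right, hmin, zero_add]
    funext w
    by_cases h : w = i
    · rw [h, hTi, hmin']
    · rw [hTw _ w h, hmin']
      simp only [hR]
      split_ifs <;> ring

end Pool.Agent.MP552024
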