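import Pool.Agent.Work.MP_552024_lc.Stmts

/-!
Relabelling when all labels are singletons, MP_552024_lc.
-/

set_option autoImplicit false

namespace Pool.Agent.MP552024

theorem prfG4 : S_G4 := by
  classical
  intro H _ _ _ V W Γ A S hG hS ev hev
  choose e he heu using hG.one
  have he' : ∀ v, S (e v) = {v} := he
  have heu' : ∀ v i, S i = {v} → i = e v := fun v i hi => heu v i hi
  choose f hf using hS
  have hfe : ∀ v, f (e v) = v := by
    intro v
    have h1 := hf (e v)
    rw [he' v] at h1
    exact (Set.singleton_injective h1).symm
  have hef : ∀ i, e (f i) = i := fun i => (heu' (f i) i (hf i)).symm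
  have hpair : ∀ u v u' v' : V, Γ.Adj u v → u' ≠ v' → u' ∈ ({u, v} : Set V) → v' ∈ ({u, v} : Set V) →
      Γ.Adj u' v' := by
    rintro u v u' v' h hne (rfl | rfl) (rfl | rfl)
    · exact absurd rfl hne
    · exact h
    · exact h.symm
    · exact absurd rfl hne
  have hadj : ∀ a b, A.Adj (e a) (e b) ↔ Γ.Adj a b := by
    intro a b
    constructor
    · intro h
      have hab : a ≠ b := fun hab => h.ne (congrArg e hab)
      obtain ⟨u, v, huv, h1, h2⟩ := hG.edge _ _ h
      rw [he'] at h1 h2
      exact hpair u v a b huv hab (h1 rfl) (h2 rfl)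
    · intro h
      obtain ⟨i, j, h1, h2, h3⟩ := hG.att a b h
      have hi : i = e b := heu' b i h1
      have hj : f j ∈ ({a, b} : Set V) := by
        apply h3
        rw [hf j]
        rfl
      rcases hj with hj | hj
      · have h4 : j = e a := by rw [← hj, hef]
        rw [← h4, ← hi]
        exact h2.symm
      · have h4 : j = e b := by
          have h5 : f j = b := hj
          rw [← h5, hef]
        rw [hi, h4] at h2
        exact absurd rfl h2.ne
  refine ⟨_, hev.transport (Δ' := Cx.ofGraph Γ) (fun z w => z (f w)) (fun z v => z (e v))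
    (fun w => LP_coord (f w)) (fun v => LP_coord (e v)) ?_ ?_ ?_ ?_⟩
  · rintro z ⟨h1, h2⟩
    refine ⟨fun w => h1 (f w), ?_⟩
    rcases h2 with h2 | ⟨u, v, huv, h2⟩
    · left
      rw [Set.eq_empty_iff_forall_notMem] at h2 ⊢
      intro w hw
      exact h2 (f w) hw
    · right
      refine ⟨e u, e v, ?_, ?_⟩
      · rcases huv with huv | huv
        · left; rw [huv]
        · right; exact (hadj u v).2 huv
      · intro w hw
        have h3 : f w ∈ ({u, v} : Set V) := h2 hw
        rcases h3 with h3 | h3
        · left; rw [← h3, hef]
        · right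
          have h4 : f w = v := h3
          show w = e v
          rw [← h4, hef]
  · rintro z ⟨h1, h2⟩
    refine ⟨fun w => h1 (e w), ?_⟩
    rcases h2 with h2 | ⟨u, v, huv, h2⟩
    · left
      rw [Set.eq_empty_iff_forall_notMem] at h2 ⊢
      intro w hw
      exact h2 (e w) hw
    · right
      refine ⟨f u, f v, ?_, ?_⟩
      · rcases huv with huv | huv
        · left; rw [huv]
        · right
          rw [← hadj, hef, hef]
          exact huv
      · intro w hw
        have h3 : e w ∈ ({u, v} : Set W) := h2 hw
        rcases h3 with h3 | h3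
        · left; rw [← h3, hfe]
        · right
          have h4 : e w = v := h3
          show w = f v
          rw [← h4, hfe]
  · intro z _
    funext v
    show z (f (e v)) = z v
    rw [hfe]
  · intro z _
    funext v
    show z (e (f v)) = z v
    rw [hef]

end Pool.Agent.MP552024
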