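import Pool.Agent.Work.MP_552024_lc.Stmts

/-!
Assembly for MP_552024_lc.
-/

set_option autoImplicit false

namespace Pool.Agent.MP552024

theorem thin_ofGraph {V : Type} (Δ : Cx V) (h : Δ.Thin) (s : Set V) :
    Δ.face s ↔ (Cx.ofGraph Δ.gr).face s := by
  constructor
  · intro hs
    rcases s.eq_empty_or_nonempty with h1 | ⟨u, hu⟩
    · exact Or.inl h1
    · right
      by_cases h2 : ∃ v ∈ s, v ≠ u
      · obtain ⟨v, hv, hvu⟩ := h2
        refine ⟨u, v, Or.inr ⟨hvu.symm, Δ.down _ _ ?_ hs⟩, ?_⟩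
        · rintro w (rfl | rfl)
          · exact hu
          · exact hv
        · intro w hw
          by_contra hc
          simp only [Set.mem_insert_iff, Set.mem_singleton_iff, not_or] at hc
          refine h u v w hvu.symm (fun h' => hc.2 h'.symm) (fun h' => hc.1 h'.symm)
            (Δ.down _ _ ?_ hs)
          rintro x (rfl | rfl | rfl)
          · exact hu
          · exact hv
          · exact hw
      · refine ⟨u, u, Or.inl rfl, fun w hw => ?_⟩
        by_contra hc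
        exact h2 ⟨w, hw, by simpa using hc⟩
  · rintro (rfl | ⟨u, v, h1, h2⟩)
    · exact Δ.empt
    · refine Δ.down _ _ h2 ?_
      rcases h1 with rfl | h1
      · simpa using Δ.vert u
      · exact h1.2

theorem Cx.ext' {V : Type} (Δ Δ' : Cx V) (h : ∀ s, Δ.face s ↔ Δ'.face s) : Δ = Δ' := by
  cases Δ; cases Δ'
  congr
  funext s
  exact propext (h s)

theorem thin_eq {V : Type} (Δ : Cx V) (h : Δ.Thin) : Cx.ofGraph Δ.gr = Δ :=
  Cx.ext' _ _ (fun s => (thin_ofGraph Δ h s).symm)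

/-- assembly of E -/
theorem asm_E (h1 : S_E1) (h3 : S_E3) (h4 : S_E4) (h5 : S_E5) (G : Type) [AddCommGroup G] [Lattice G]
    [IsOrderedAddMonoid G] (M : Mdl G) (hM : M.Δ.Thin) : ∃ s : M.V → G, Sig M.Δ.gr s := by
  choose h hh using fun v => M.chart.hat v
  obtain ⟨a1, a2, a3, a4, a5, a6⟩ := h1 G M h hh hM
  exact ⟨h, a1, a2, a3, a5, a6, a4, h3 G M h hh hM, h4 G M h hh, h5 G M h hh hM⟩

/-- assembly of F -/
theorem asm_F (h1 : S_F1) (h2 : S_F2) (h3 : S_F3) (h4 : S_F4) (h5 : S_F5) (h6 : S_F6)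
    (H : Type) [AddCommGroup H] [Lattice H] [IsOrderedAddMonoid H]
    (V : Type) [Fintype V] (Γ : SimpleGraph V) (M : Mdl H) (s : V → H) (c : V → M.V → ℤ)
    (hs : SigL Γ M s c) : M.Δ.Thin ∧ GoodG Γ M.Δ.gr (lab c) := by
  have ht := h3 H V Γ M s c hs
  have hlab : ∀ i, (∃ v, lab c i = {v}) ∨ ∃ u v, Γ.Adj u v ∧ lab c i = {u, v} := by
    intro i
    have := h1 H V Γ M s c hs {i} (M.Δ.vert i) ⟨i, rfl⟩
    simpa using this
  have hne : ∀ i, (lab c i).Nonempty := by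
    intro i
    rcases hlab i with ⟨v, h⟩ | ⟨u, v, _, h⟩
    · rw [h]; exact ⟨v, rfl⟩
    · rw [h]; exact ⟨u, Or.inl rfl⟩
  refine ⟨ht, h2 H V Γ M s c hs, hlab, ?_, h4 H V Γ M s c hs ht, h5 H V Γ M s c hs ht,
    h6 H V Γ M s c hs ht⟩
  intro i j hij
  rcases h1 H V Γ M s c hs {i, j} hij.2 ⟨i, Or.inl rfl⟩ with ⟨v, hv⟩ | ⟨u, v, huv, hv⟩
  · exfalso
    have hi : lab c i = {v} := by
      refine Set.Subset.antisymm ?_ ?_
      · rw [← hv]; exact Set.subset_biUnion_of_mem (u := lab c) (Or.inl rfl)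
      · intro w hw
        obtain ⟨x, hx⟩ := hne i
        have : x ∈ ({v} : Set V) := by
          rw [← hv]; exact Set.subset_biUnion_of_mem (u := lab c) (Or.inl rfl) hx
        rw [Set.mem_singleton_iff] at this hw
        rw [hw, ← this]; exact hx
    have hj : lab c j = {v} := by
      refine Set.Subset.antisymm ?_ ?_
      · rw [← hv]; exact Set.subset_biUnion_of_mem (u := lab c) (Or.inr rfl)
      · intro w hw
        obtain ⟨x, hx⟩ := hne j
        have : x ∈ ({v} : Set V) := by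
          rw [← hv]; exact Set.subset_biUnion_of_mem (u := lab c) (Or.inr rfl) hx
        rw [Set.mem_singleton_iff] at this hw
        rw [hw, ← this]; exact hx
    exact hij.1 ((h2 H V Γ M s c hs v).unique hi hj)
  · refine ⟨u, v, huv, ?_, ?_⟩
    · rw [← hv]; exact Set.subset_biUnion_of_mem (u := lab c) (Or.inl rfl)
    · rw [← hv]; exact Set.subset_biUnion_of_mem (u := lab c) (Or.inr rfl)

/-- assembly of G: descent to the coarse graph -/
theorem asm_G (h1 : S_G1) (h2 : S_G2) (h3 : S_G3) (h4 : S_G4)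
    (H : Type) [AddCommGroup H] [Lattice H] [IsOrderedAddMonoid H]
    (V : Type) (Γ : SimpleGraph V) : ∀ (n : ℕ) (W : Type) [Finite W] (A : SimpleGraph W)
    (S : W → Set V), Nat.card W = n → GoodG Γ A S →
    ∀ ev : H → (W → ℝ) → ℝ, IsChart (Cx.ofGraph A) ev →
    ∃ ev' : H → (V → ℝ) → ℝ, IsChart (Cx.ofGraph Γ) ev' := by
  intro n
  induction n with
  | zero =>
    intro W _ A S hn hg ev hev
    have : IsEmpty W := (Nat.card_eq_zero.1 hn).resolve_right (fun h => h.not_finite ‹_›)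
    exact h4 H V W Γ A S hg (fun i => (this.false i).elim) ev hev
  | succ n ih =>
    intro W _ A S hn hg ev hev
    rcases h1 V W Γ A S hg with hs | ⟨i, p, k, u, v, hr⟩
    · exact h4 H V W Γ A S hg hs ev hev
    · obtain ⟨ev1, hev1⟩ := h3 H W A i p k hr.ip hr.ik hr.pk hr.npk hr.nb ev hev
      refine ih {w : W // w ≠ i} (delG A i p k) (fun w => S w.1) ?_
        (h2 V W Γ A S i p k u v hg hr) ev1 hev1
      classical
      have : Fintype W := Fintype.ofFinite W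
      rw [Nat.card_eq_fintype_card] at hn ⊢
      rw [Fintype.card_subtype_compl, Fintype.card_subtype_eq, hn]
      rfl

/-- the main theorem -/
theorem main (hlin : S_linall) (hq : S_quot) (ht : S_thin)
    (e1 : S_E1) (e3 : S_E3) (e4 : S_E4) (e5 : S_E5)
    (f1 : S_F1) (f2 : S_F2) (f3 : S_F3) (f4 : S_F4) (f5 : S_F5) (f6 : S_F6)
    (g1 : S_G1) (g2 : S_G2) (g3 : S_G3) (g4 : S_G4) (fo : S_fo)
    (G H : Type) [AddCommGroup G] [Lattice G] [IsOrderedAddMonoid G]
    [AddCommGroup H] [Lattice H] [IsOrderedAddMonoid H]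
    (n m : ℕ) (f : (Fin n → ℝ) → ℝ) (hf : f ∈ LP (Fin n)) (ψ : ((Fin n → ℝ) → ℝ) → G)
    (hG : Pres n f G ψ) (hd : Dim2 f)
    (f' : (Fin m → ℝ) → ℝ) (hf' : f' ∈ LP (Fin m)) (ψ' : ((Fin m → ℝ) → ℝ) → H)
    (hH : Pres m f' H ψ')
    (hT : @FirstOrder.Language.completeTheory L2 G (str G) =
      @FirstOrder.Language.completeTheory L2 H (str H)) :
    ∃ e : G ≃+ H, ∀ a b : G, e a ≤ e b ↔ a ≤ b := by
  obtain ⟨M, t, hM⟩ := hq n f hf G ψ hG
  have hthin := ht n f G ψ hG M t hM hd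
  obtain ⟨s', hs'⟩ := fo G H M.V M.Δ.gr hT (asm_E e1 e3 e4 e5 G M hthin)
  obtain ⟨N₀, _, _⟩ := hq m f' hf' H ψ' hH
  obtain ⟨N, _, hc⟩ := hlin H N₀ M.V s'
  choose c hc using hc
  obtain ⟨hNt, hNg⟩ := asm_F f1 f2 f3 f4 f5 f6 H M.V M.Δ.gr N s' c ⟨hs', hc⟩
  have hch : IsChart (Cx.ofGraph N.Δ.gr) N.ev := by
    rw [thin_eq _ hNt]; exact N.chart
  obtain ⟨ev', hev'⟩ := asm_G g1 g2 g3 g4 H M.V M.Δ.gr _ N.V N.Δ.gr (lab c) rfl hNg N.ev hch
  have hch' : IsChart (Cx.ofGraph M.Δ.gr) M.ev := by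
    rw [thin_eq _ hthin]; exact M.chart
  exact iso_of_charts hch' hev'

end Pool.Agent.MP552024
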