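import Pool.Agent.Work.MP_552024_lc.Basic

/-!
Statements of the items for MP_552024_lc (each `S_...` is proved in its own file).
-/

set_option autoImplicit false

namespace Pool.Agent.MP552024

/-! ## B: linearisation -/

/-- after subdivision no edge has coefficients of opposite signs -/
def S_sign : Prop := ∀ (G : Type) [AddCommGroup G] [Lattice G] [IsOrderedAddMonoid G]
  (M : Mdl G) (g : G) (c : M.V → ℤ), M.Lin g c →
  ∃ N : Mdl G, Ref M N ∧ ∃ d : N.V → ℤ, N.Lin g d ∧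
    ∀ i j, N.Δ.face {i, j} → ¬ (0 < d i ∧ d j < 0)

/-- the positive part of a sign-consistent linear element is linear -/
def S_pos : Prop := ∀ (G : Type) [AddCommGroup G] [Lattice G] [IsOrderedAddMonoid G]
  (M : Mdl G) (g : G) (c : M.V → ℤ), M.Lin g c →
  (∀ i j, M.Δ.face {i, j} → ¬ (0 < c i ∧ c j < 0)) → M.Lin (g ⊔ 0) (fun i => max (c i) 0)

/-- a finite family of elements becomes linear in a refinement -/
def S_linall : Prop := ∀ (G : Type) [AddCommGroup G] [Lattice G] [IsOrderedAddMonoid G]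
  (M : Mdl G) (α : Type) [Finite α] (g : α → G),
  ∃ N : Mdl G, Ref M N ∧ ∀ a, ∃ c : N.V → ℤ, N.Lin (g a) c

/-! ## C: models of finitely presented groups -/

/-- the model `M` of the free group is given by integral vectors `t i` -/
def Tracks {n : ℕ} (M : Mdl (FL n)) (t : M.V → Fin n → ℤ) : Prop :=
  (∀ a : FL n, ∀ z ∈ M.Δ.Z, M.ev a z = a.1 (fun k => ∑ i, (t i k : ℝ) * z i)) ∧
  ∀ x : Fin n → ℝ, ∃ z ∈ M.Δ.Z, ∀ k, x k = ∑ i, (t i k : ℝ) * z i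

def S_base : Prop := ∀ n : ℕ, ∃ M : Mdl (FL n), ∃ t : M.V → Fin n → ℤ, Tracks M t

def S_baseRef : Prop := ∀ (n : ℕ) (M N : Mdl (FL n)) (t : M.V → Fin n → ℤ), Tracks M t → Ref M N →
  ∃ t' : N.V → Fin n → ℤ, Tracks N t'

/-- the model `M` of `G = FL n / (f)` is given by integral vectors `t i` in the zero set of `f` -/
def QTracks {n : ℕ} (f : (Fin n → ℝ) → ℝ) {G : Type} [AddCommGroup G] [Lattice G]
    (ψ : ((Fin n → ℝ) → ℝ) → G) (M : Mdl G) (t : M.V → Fin n → ℤ) : Prop :=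
  (∀ a ∈ LP (Fin n), ∀ z ∈ M.Δ.Z, M.ev (ψ a) z = a (fun k => ∑ i, (t i k : ℝ) * z i)) ∧
  ∀ z ∈ M.Δ.Z, f (fun k => ∑ i, (t i k : ℝ) * z i) = 0

def S_quot : Prop := ∀ (n : ℕ) (f : (Fin n → ℝ) → ℝ), f ∈ LP (Fin n) →
  ∀ (G : Type) [AddCommGroup G] [Lattice G] [IsOrderedAddMonoid G] (ψ : ((Fin n → ℝ) → ℝ) → G),
  Pres n f G ψ → ∃ M : Mdl G, ∃ t : M.V → Fin n → ℤ, QTracks f ψ M t

/-- the zero set of `f` has dimension at most two -/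
def Dim2 {n : ℕ} (f : (Fin n → ℝ) → ℝ) : Prop :=
  ∃ F : Set (Submodule ℝ (Fin n → ℝ)), F.Finite ∧ (∀ W ∈ F, Module.finrank ℝ W ≤ 2) ∧
    ∀ x, f x = 0 → ∃ W ∈ F, x ∈ W

def S_thin : Prop := ∀ (n : ℕ) (f : (Fin n → ℝ) → ℝ)
  (G : Type) [AddCommGroup G] [Lattice G] [IsOrderedAddMonoid G] (ψ : ((Fin n → ℝ) → ℝ) → G),
  Pres n f G ψ → ∀ (M : Mdl G) (t : M.V → Fin n → ℤ), QTracks f ψ M t → Dim2 f → M.Δ.Thin

/-! ## D: the meaning of the definable relations -/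

def S_inc : Prop := ∀ (G : Type) [AddCommGroup G] [Lattice G] [IsOrderedAddMonoid G]
  (M : Mdl G) (a t : G), 0 ≤ a → 0 ≤ t →
  (Inc a t ↔ ∀ z ∈ M.Δ.Z, M.ev t z = 0 → M.ev a z = 0)

def S_incL : Prop := ∀ (G : Type) [AddCommGroup G] [Lattice G] [IsOrderedAddMonoid G]
  (M : Mdl G) (a t : G) (ca ct : M.V → ℤ), M.Lin a ca → M.Lin t ct → 0 ≤ a → 0 ≤ t →
  (Inc a t ↔ ∀ i, ct i = 0 → ca i = 0)

def S_nzL : Prop := ∀ (G : Type) [AddCommGroup G] [Lattice G] [IsOrderedAddMonoid G]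
  (M : Mdl G) (u : G) (c : M.V → ℤ), M.Lin u c → 0 ≤ u → (NZ u ↔ ∀ i, 0 < c i)

def S_singleL : Prop := ∀ (G : Type) [AddCommGroup G] [Lattice G] [IsOrderedAddMonoid G]
  (M : Mdl G) (t : G) (c : M.V → ℤ), M.Lin t c → 0 ≤ t →
  (Single t ↔ ∃ i, c i = 0 ∧ ∀ j, c j = 0 → j = i)

def S_clPath : Prop := ∀ (G : Type) [AddCommGroup G] [Lattice G] [IsOrderedAddMonoid G]
  (M : Mdl G) (a t : G) (i : M.V) (w : M.V → ℝ), 0 ≤ t →
  (∀ z ∈ M.Δ.Z, M.ev t z = 0 → ∀ j, j ≠ i → z j = 0) →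
  (∀ ε : ℝ, 0 < ε → (fun l => pt i l + ε * w l) ∈ M.Δ.Z ∧
    0 < M.ev a (fun l => pt i l + ε * w l)) → Cl a t

def S_clL : Prop := ∀ (G : Type) [AddCommGroup G] [Lattice G] [IsOrderedAddMonoid G]
  (M : Mdl G) (a t : G) (d c : M.V → ℤ) (i : M.V), M.Lin a d → M.Lin t c → 0 ≤ a → 0 ≤ t →
  c i = 0 → (∀ j, c j = 0 → j = i) → (Cl a t ↔ ∃ j, M.Δ.face {i, j} ∧ 0 < d j)

/-! ## E: the hat functions of a thin model satisfy `Sig` -/

/-- `h v` is the coordinate function of the vertex `v` -/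
def Hats {G : Type} [AddCommGroup G] [Lattice G] (M : Mdl G) (h : M.V → G) : Prop :=
  ∀ v, ∀ z ∈ M.Δ.Z, M.ev (h v) z = z v

def S_E1 : Prop := ∀ (G : Type) [AddCommGroup G] [Lattice G] [IsOrderedAddMonoid G]
  (M : Mdl G) (h : M.V → G), Hats M h → M.Δ.Thin →
  (∀ v, 0 ≤ h v) ∧ (∀ u v, u ≠ v → ¬ M.Δ.gr.Adj u v → h u ⊓ h v = 0) ∧
  (∀ u v w, u ≠ v → v ≠ w → u ≠ w → h u ⊓ h v ⊓ h w = 0) ∧
  (∀ u v, M.Δ.gr.Adj u v → h u ⊓ h v ≠ 0) ∧ NZ (∑ v, h v) ∧ ∀ v, Single (oth h v)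

def S_E3 : Prop := ∀ (G : Type) [AddCommGroup G] [Lattice G] [IsOrderedAddMonoid G]
  (M : Mdl G) (h : M.V → G), Hats M h → M.Δ.Thin →
  ∀ u v, M.Δ.gr.Adj u v → ∀ x y : G, x ⊓ y = 0 → x + y = h u ⊓ h v → x = 0 ∨ y = 0

def S_E4 : Prop := ∀ (G : Type) [AddCommGroup G] [Lattice G] [IsOrderedAddMonoid G]
  (M : Mdl G) (h : M.V → G), Hats M h →
  ∀ u v, M.Δ.gr.Adj u v → Cl (h u ⊓ h v) (oth h v)

/-- refinements of thin models are thin, interior points of edges have at most two neighbours -/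
def S_E6 : Prop := ∀ (G : Type) [AddCommGroup G] [Lattice G] [IsOrderedAddMonoid G]
  (M : Mdl G) (h : M.V → G), Hats M h → M.Δ.Thin → ∀ N : Mdl G, Ref M N →
  N.Δ.Thin ∧ ∀ i : N.V, (∃ u v, u ≠ v ∧ N.ev (h u) (pt i) ≠ 0 ∧ N.ev (h v) (pt i) ≠ 0) →
    ∀ j k l, j ≠ i → k ≠ i → l ≠ i → N.Δ.face {i, j} → N.Δ.face {i, k} → N.Δ.face {i, l} →
    j = k ∨ j = l ∨ k = l

def S_E5 : Prop := ∀ (G : Type) [AddCommGroup G] [Lattice G] [IsOrderedAddMonoid G]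
  (M : Mdl G) (h : M.V → G), Hats M h → M.Δ.Thin →
  ∀ u v, M.Δ.gr.Adj u v → ∀ t : G, 0 ≤ t → Single t → ¬ Inc (h u ⊓ h v) t →
    ¬ ∃ a b c : G, (0 ≤ a ∧ 0 ≤ b ∧ 0 ≤ c) ∧ (a ⊓ b = 0 ∧ a ⊓ c = 0 ∧ b ⊓ c = 0) ∧
      Cl a t ∧ Cl b t ∧ Cl c t

/-! ## F: a model in which a solution of `Sig` is linear -/

/-- a solution of `Sig` that is linear in the model `M` -/
structure SigL {H : Type} [AddCommGroup H] [Lattice H] {V : Type} [Fintype V] (Γ : SimpleGraph V)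
    (M : Mdl H) (s : V → H) (c : V → M.V → ℤ) : Prop where
  sig : Sig Γ s
  lin : ∀ v, M.Lin (s v) (c v)

/-- the label of a vertex: the set of `v` for which `s v` is positive there -/
def lab {V W : Type} (c : V → W → ℤ) (i : W) : Set V := {v | 0 < c v i}

/-- labels of faces -/
def S_F1 : Prop := ∀ (H : Type) [AddCommGroup H] [Lattice H] [IsOrderedAddMonoid H]
  (V : Type) [Fintype V] (Γ : SimpleGraph V) (M : Mdl H) (s : V → H) (c : V → M.V → ℤ),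
  SigL Γ M s c → ∀ σ : Set M.V, M.Δ.face σ → σ.Nonempty →
  (∃ v, (⋃ i ∈ σ, lab c i) = {v}) ∨ ∃ u v, Γ.Adj u v ∧ (⋃ i ∈ σ, lab c i) = {u, v}

def S_F2 : Prop := ∀ (H : Type) [AddCommGroup H] [Lattice H] [IsOrderedAddMonoid H]
  (V : Type) [Fintype V] (Γ : SimpleGraph V) (M : Mdl H) (s : V → H) (c : V → M.V → ℤ),
  SigL Γ M s c → ∀ v, ∃! i, lab c i = {v}

def S_F3 : Prop := ∀ (H : Type) [AddCommGroup H] [Lattice H] [IsOrderedAddMonoid H]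
  (V : Type) [Fintype V] (Γ : SimpleGraph V) (M : Mdl H) (s : V → H) (c : V → M.V → ℤ),
  SigL Γ M s c → M.Δ.Thin

def S_F4 : Prop := ∀ (H : Type) [AddCommGroup H] [Lattice H] [IsOrderedAddMonoid H]
  (V : Type) [Fintype V] (Γ : SimpleGraph V) (M : Mdl H) (s : V → H) (c : V → M.V → ℤ),
  SigL Γ M s c → M.Δ.Thin →
  ∀ i u v, Γ.Adj u v → lab c i = {u, v} → ∀ j k l, M.Δ.gr.Adj i j → M.Δ.gr.Adj i k →
    M.Δ.gr.Adj i l → j = k ∨ j = l ∨ k = l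

def S_F5 : Prop := ∀ (H : Type) [AddCommGroup H] [Lattice H] [IsOrderedAddMonoid H]
  (V : Type) [Fintype V] (Γ : SimpleGraph V) (M : Mdl H) (s : V → H) (c : V → M.V → ℤ),
  SigL Γ M s c → M.Δ.Thin →
  ∀ u v, Γ.Adj u v → ∀ B : Set M.V, B.Nonempty → (∀ i ∈ B, lab c i = {u, v}) →
    (∀ i ∈ B, ∀ j, lab c j = {u, v} → M.Δ.gr.Adj i j → j ∈ B) →
    (∀ i, lab c i = {u, v} → i ∈ B) ∧ (∀ i j, lab c i = {u} → lab c j = {v} → ¬ M.Δ.gr.Adj i j)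

def S_F6 : Prop := ∀ (H : Type) [AddCommGroup H] [Lattice H] [IsOrderedAddMonoid H]
  (V : Type) [Fintype V] (Γ : SimpleGraph V) (M : Mdl H) (s : V → H) (c : V → M.V → ℤ),
  SigL Γ M s c → M.Δ.Thin →
  ∀ u v, Γ.Adj u v → ∃ i j, lab c i = {v} ∧ M.Δ.gr.Adj i j ∧ lab c j ⊆ {u, v}

/-! ## G: combinatorial descent -/

/-- `i` is a vertex of degree two inside an edge, next to the end point `p` -/
structure Rem {V W : Type} (Γ : SimpleGraph V) (A : SimpleGraph W) (S : W → Set V)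
    (i p k : W) (u v : V) : Prop where
  adj : Γ.Adj u v
  Si : S i = {u, v}
  Sp : S p = {v}
  Sk : S k ⊆ {u, v}
  ip : A.Adj i p
  ik : A.Adj i k
  pk : p ≠ k
  npk : ¬ A.Adj p k
  nb : ∀ j, A.Adj i j → j = p ∨ j = k

def S_G1 : Prop := ∀ (V W : Type) (Γ : SimpleGraph V) (A : SimpleGraph W)
  (S : W → Set V), GoodG Γ A S → (∀ i, ∃ v, S i = {v}) ∨ ∃ i p k u v, Rem Γ A S i p k u v

/-- remove the vertex `i`, join `p` and `k` -/
def delG {W : Type} (A : SimpleGraph W) (i p k : W) : SimpleGraph {w : W // w ≠ i} where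
  Adj a b := a ≠ b ∧ (A.Adj a b ∨ (a.1 = p ∧ b.1 = k) ∨ (a.1 = k ∧ b.1 = p))
  symm := ⟨fun a b h => ⟨h.1.symm, by
    rcases h.2 with h | h | h
    · exact Or.inl h.symm
    · exact Or.inr (Or.inr ⟨h.2, h.1⟩)
    · exact Or.inr (Or.inl ⟨h.2, h.1⟩)⟩⟩
  loopless := ⟨fun a h => h.1 rfl⟩

def S_G2 : Prop := ∀ (V W : Type) (Γ : SimpleGraph V) (A : SimpleGraph W) (S : W → Set V)
  (i p k : W) (u v : V), GoodG Γ A S → Rem Γ A S i p k u v →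
  GoodG Γ (delG A i p k) (fun w => S w.1)

def S_G3 : Prop := ∀ (H : Type) [AddCommGroup H] [Lattice H] [IsOrderedAddMonoid H]
  (W : Type) (A : SimpleGraph W) (i p k : W), A.Adj i p → A.Adj i k → p ≠ k → ¬ A.Adj p k →
  (∀ j, A.Adj i j → j = p ∨ j = k) → ∀ ev : H → (W → ℝ) → ℝ, IsChart (Cx.ofGraph A) ev →
  ∃ ev' : H → ({w : W // w ≠ i} → ℝ) → ℝ, IsChart (Cx.ofGraph (delG A i p k)) ev'

def S_G4 : Prop := ∀ (H : Type) [AddCommGroup H] [Lattice H] [IsOrderedAddMonoid H]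
  (V W : Type) (Γ : SimpleGraph V) (A : SimpleGraph W) (S : W → Set V), GoodG Γ A S →
  (∀ i, ∃ v, S i = {v}) → ∀ ev : H → (W → ℝ) → ℝ, IsChart (Cx.ofGraph A) ev →
  ∃ ev' : H → (V → ℝ) → ℝ, IsChart (Cx.ofGraph Γ) ev'

/-! ## H: first-order transfer -/

def S_fo : Prop := ∀ (G H : Type) [AddCommGroup G] [Lattice G] [IsOrderedAddMonoid G]
  [AddCommGroup H] [Lattice H] [IsOrderedAddMonoid H] (V : Type) [Fintype V] (Γ : SimpleGraph V),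
  @FirstOrder.Language.completeTheory L2 G (str G) = @FirstOrder.Language.completeTheory L2 H (str H) →
  (∃ s : V → G, Sig Γ s) → ∃ s : V → H, Sig Γ s

end Pool.Agent.MP552024
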